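import Mathlib

namespace Pool.Agent.Lib.MP_97eeef_nt

/-- The compositum, inside a fixed algebraic closure of the rationals, of all finite Galois
extensions of the rationals whose Galois group is solvable. -/
noncomputable def Qsolv : IntermediateField ℚ (AlgebraicClosure ℚ) :=
  ⨆ (L : IntermediateField ℚ (AlgebraicClosure ℚ)) (_ : FiniteDimensional ℚ L)
    (_ : IsGalois ℚ L) (_ : Group.IsSolvable (L ≃ₐ[ℚ] L)), L

/-- For any `a` alternating two-forms, `b` alternating three-forms and `c` further alternating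
three-forms on `V` there is a `k`-dimensional subspace `W` on which the first two families
vanish, the last family vanishing on `W × W × V`. -/
def CommonPlane (K V : Type) [Field K] [AddCommGroup V] [Module K V] (k a b c : ℕ) : Prop :=
  ∀ (ω : Fin a → V [⋀^Fin 2]→ₗ[K] K) (η : Fin b → V [⋀^Fin 3]→ₗ[K] K)
    (θ : Fin c → V [⋀^Fin 3]→ₗ[K] K),
    ∃ W : Submodule K V, Module.finrank K W = k ∧
      (∀ (i : Fin a) (v : Fin 2 → V), (∀ j, v j ∈ W) → ω i v = 0) ∧
      (∀ (i : Fin b) (v : Fin 3 → V), (∀ j, v j ∈ W) → η i v = 0) ∧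
      (∀ (i : Fin c) (v : Fin 3 → V), v 0 ∈ W → v 1 ∈ W → θ i v = 0)

end Pool.Agent.Lib.MP_97eeef_nt
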