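import Pool.Agent.Lib.MP_97eeef_nt.Lagr

section partG2a

open Module

namespace Pool.Agent.Lib.MP_97eeef_nt

variable {K : Type} [Field K] [CharZero K] {V : Type*} [AddCommGroup V] [Module K V]
  [FiniteDimensional K V]

theorem skew_eigen (hK : R4 K) (hV : finrank K V ≤ 9) {g : V →ₗ[K] V →ₗ[K] K}
    (hg : LinearMap.BilinForm.Nondegenerate g) (hs : ∀ u v, g u v = g v u) (y : V →ₗ[K] V)
    (hy : ∀ u v, g (y u) v = - g u (y v)) (U : Submodule K V) (hU : ∀ u ∈ U, y u ∈ U)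
    (h0 : U ≠ ⊥) : ∃ (r : K) (v : V), v ∈ U ∧ v ≠ 0 ∧ y v = r • v := by
  obtain ⟨x, hx, hx0⟩ := (Submodule.ne_bot_iff U).mp h0
  set T : Module.End K V := y * y with hT
  have hs' : ∀ (n : ℕ) u v, g ((T ^ n) u) v = g u ((T ^ n) v) := by
    intro n
    induction n with
    | zero => simp
    | succ n ih =>
      intro u v
      have : ∀ a b, g (T a) b = g a (T b) := fun a b => by
        simp only [hT, Module.End.mul_apply]
        rw [hy, hy, neg_neg]
      conv_lhs => rw [pow_succ', Module.End.mul_apply, this, ih]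
      rw [pow_succ]
      rfl
  have hc : ∀ (n : ℕ) u, y ((T ^ n) u) = (T ^ n) (y u) := fun n u => by
    have : Commute y (T ^ n) := (Commute.mul_right (Commute.refl y) (Commute.refl y)).pow_right n
    exact LinearMap.congr_fun this.eq u
  have cyc : ∀ w ∈ U, w ≠ 0 → finrank K (Submodule.span K (Set.range fun n : ℕ => (T ^ n) w)) ≤ 4 →
      ∃ (r : K) (v : V), v ∈ U ∧ v ≠ 0 ∧ y v = r • v := by
    intro w hw hw0 h4
    have hle : Submodule.span K (Set.range fun n : ℕ => (T ^ n) w) ≤ U := by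
      rw [Submodule.span_le]
      rintro _ ⟨n, rfl⟩
      induction n with
      | zero => simpa using hw
      | succ n ih =>
        show (T ^ (n + 1)) w ∈ U
        rw [pow_succ', Module.End.mul_apply]
        exact hU _ (hU _ ih)
    obtain ⟨μ, v, hv, hv0, e⟩ := exists_eigen_sub hK T
      (Submodule.span K (Set.range fun n : ℕ => (T ^ n) w)) (by
      intro u hu
      have h2 : Submodule.span K (Set.range fun n : ℕ => (T ^ n) w) ≤
          (Submodule.span K (Set.range fun n : ℕ => (T ^ n) w)).comap T := by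
        rw [Submodule.span_le]
        rintro _ ⟨n, rfl⟩
        exact Submodule.subset_span ⟨n + 1, by simp [pow_succ']⟩
      exact h2 hu)
      ((Submodule.ne_bot_iff _).mpr ⟨w, Submodule.subset_span ⟨0, by simp⟩, hw0⟩) h4
    obtain ⟨l, hl⟩ := sq_root hK μ
    have e' : y (y v) = μ • v := e
    by_cases h : y v + l • v = 0
    · exact ⟨-l, v, hle hv, hv0, by rw [neg_smul]; exact eq_neg_of_add_eq_zero_left h⟩
    · refine ⟨l, y v + l • v, U.add_mem (hU _ (hle hv)) (U.smul_mem _ (hle hv)), h, ?_⟩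
      rw [map_add, map_smul, e', ← hl]
      module
  by_cases hyx : y x = 0
  · exact ⟨0, x, hx, hx0, by simp [hyx]⟩
  have hb := isotropic_bound hg (Submodule.span K (Set.range fun n : ℕ => (T ^ n) x))
    (Submodule.span K (Set.range fun n : ℕ => (T ^ n) (y x))) (by
      apply span_zero
      intro i j
      rw [hs', ← Module.End.mul_apply, ← pow_add]
      have h1 := hs' (i + j) x (y x)
      have h2 := hy ((T ^ (i + j)) x) x
      rw [hc, hs] at h2
      linear_combination (h2 - h1) / 2)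
  by_cases h4 : finrank K (Submodule.span K (Set.range fun n : ℕ => (T ^ n) x)) ≤ 4
  · exact cyc x hx hx0 h4
  · exact cyc (y x) (hU x hx) hyx (by omega)

theorem null_eigen (hK : R4 K) (hV : finrank K V ≤ 9) (hV' : 2 ≤ finrank K V)
    {g : V →ₗ[K] V →ₗ[K] K}
    (hg : LinearMap.BilinForm.Nondegenerate g) (hs : ∀ u v, g u v = g v u) (y : V →ₗ[K] V)
    (hy : ∀ u v, g (y u) v = - g u (y v)) :
    ∃ (r : K) (v : V), v ≠ 0 ∧ g v v = 0 ∧ y v = r • v := by
  have : Nontrivial V := Module.finrank_pos_iff.mp (by omega : 0 < finrank K V)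
  have nz : ∀ (r : K) (v : V), y v = r • v → r ≠ 0 → g v v = 0 := by
    intro r v e hr
    have h1 := hy v v
    rw [e] at h1
    simp only [map_smul, LinearMap.smul_apply, smul_eq_mul] at h1
    apply mul_left_cancel₀ hr
    linear_combination h1 / 2
  obtain ⟨r, z, -, hz, e⟩ := skew_eigen hK hV hg hs y hy ⊤ (fun _ _ => trivial) top_ne_bot
  by_cases hzz : g z z = 0
  · exact ⟨r, z, hz, hzz, e⟩
  have hr : r = 0 := by
    by_contra hr
    exact hzz (nz r z e hr)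
  subst hr
  rw [zero_smul] at e
  obtain ⟨x, hx, hx'⟩ := exists_ne_ker (LinearMap.pi ![g z]) (by omega : 1 < finrank K V)
  obtain ⟨r, w, hw, hw0, e'⟩ := skew_eigen hK hV hg hs y hy (LinearMap.ker (g z))
    (fun u _ => by
      have h1 := hy z u
      rw [e] at h1
      simpa using h1)
    ((Submodule.ne_bot_iff _).mpr ⟨x, congrFun hx' 0, hx⟩)
  by_cases hr : r = 0
  · subst hr
    rw [zero_smul] at e'
    have hzw : g z w = 0 := hw
    obtain ⟨s, t, hst, h⟩ := bin2 hK (g z z) 0 (g w w)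
    refine ⟨0, s • z + t • w, fun h0 => ?_, ?_, by simp [e, e']⟩
    · have h1 := congrArg (g z) h0
      simp [hzw, hzz] at h1
      simp [h1, hw0] at h0 hst
      exact hst h0
    · simp only [map_add, map_smul, LinearMap.add_apply, LinearMap.smul_apply, smul_eq_mul,
        hs w z, hzw]
      linear_combination h
  · exact ⟨r, w, hw0, nz r w e' hr, e'⟩

theorem cross_abs (hK : R4 K) (hV : finrank K V = 7) {g : V →ₗ[K] V →ₗ[K] K}
    (hg : LinearMap.BilinForm.Nondegenerate g) (hs : ∀ u v, g u v = g v u)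
    (X : V →ₗ[K] V →ₗ[K] V) (hX : ∀ a, X a a = 0)
    (hI : ∀ u a, X u (X u a) = (2 : K) • (g u a • u - g u u • a))
    (y : V →ₗ[K] V) (hy : ∀ u v, g (y u) v = - g u (y v))
    (hD : ∀ a u, X a u = 0 → X (y a) u + X a (y u) = 0)
    {α β γ : V →ₗ[K] V →ₗ[K] K} (hα : ∀ a u, X a u = 0 → α a u = g (y a) u)
    (hβ : Alt β) (hγ : Alt γ) :
    ∃ a u : V, Ind2 K a u ∧ X a u = 0 ∧ α a u = 0 ∧ β a u = 0 ∧ γ a u = 0 := by
  have sw : ∀ a b, X b a = - X a b := fun a b => by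
    have := hX (a + b)
    simp only [map_add, LinearMap.add_apply, hX a, hX b, zero_add, add_zero] at this
    exact eq_neg_of_add_eq_zero_left this
  have iso1 : ∀ a, a ≠ 0 → g a a = 0 → ∀ u, X a u = 0 → g u u = 0 := by
    intro a ha haa u hu
    have h1 := hI u a
    rw [sw a u, hu, neg_zero, map_zero] at h1
    have h2 : g u a • u - g u u • a = 0 := by simpa using h1.symm
    have h3 := congrArg (g a) h2
    simp only [map_sub, map_smul, smul_eq_mul, haa, hs a u, mul_zero, sub_zero, map_zero,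
      mul_self_eq_zero] at h3
    simpa [h3, ha] using h2
  have iso : ∀ a, a ≠ 0 → g a a = 0 → ∀ u w, X a u = 0 → X a w = 0 → g u w = 0 := by
    intro a ha haa u w hu hw
    have h1 := iso1 a ha haa (u + w) (by simp [hu, hw])
    simp only [map_add, LinearMap.add_apply, iso1 a ha haa u hu, iso1 a ha haa w hw,
      hs w u] at h1
    linear_combination h1 / 2
  obtain ⟨l, a0, ha0, haa, e0⟩ := null_eigen hK (by omega) (by omega) hg hs y hy
  have hinv : ∀ u, X a0 u = 0 → X a0 (y u) = 0 := fun u hu => by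
    have h1 := hD a0 u hu
    rw [e0] at h1
    simpa [hu] using h1
  have hdim : finrank K (LinearMap.ker (X a0)) ≤ 3 := by
    have := isotropic_bound hg (LinearMap.ker (X a0)) (LinearMap.ker (X a0))
      (fun u hu w hw => iso a0 ha0 haa u w hu hw)
    omega
  obtain ⟨f, hf⟩ := exists_fun (K := K) ha0
  have hne : ∃ x, x ≠ 0 ∧ X a0 x = 0 ∧ f x = 0 := by
    obtain ⟨ρ, hρ, hρ'⟩ := exists_inj 5 (LinearMap.pi ![g a0, f]) (by omega)
    obtain ⟨x, hx, hx'⟩ := exists_ne_ker (V := Fin 5 → K)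
      (LinearMap.pi ![f ∘ₗ X a0 ∘ₗ ρ]) (by simp)
    have h1 : f (X a0 (ρ x)) = 0 := congrFun hx' 0
    by_cases h : X a0 (ρ x) = 0
    · exact ⟨ρ x, fun h0 => hx (hρ (by simpa using h0)), h, congrFun (hρ' x) 1⟩
    · refine ⟨_, h, ?_, h1⟩
      have h2 : g a0 (ρ x) = 0 := congrFun (hρ' x) 0
      rw [hI, h2, haa]
      simp
  obtain ⟨x, hx, hx1, hx2⟩ := hne
  obtain ⟨r, b0, hb, hb0, eb⟩ := exists_eigen_sub hK (y - (f ∘ₗ y).smulRight a0)
    (LinearMap.ker (X a0) ⊓ LinearMap.ker f)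
    (fun u hu => ⟨by simp [hinv u hu.1, hX], by simp [hf]⟩)
    ((Submodule.ne_bot_iff _).mpr ⟨x, ⟨hx1, hx2⟩, hx⟩)
    ((Submodule.finrank_mono inf_le_left).trans (by omega))
  have hab : X a0 b0 = 0 := hb.1
  have hfb : f b0 = 0 := hb.2
  have eb' : y b0 = r • b0 + f (y b0) • a0 := by
    rw [← eb]; simp
  have hind : Ind2 K a0 b0 := by
    intro s t h
    have h1 := congrArg f h
    simp [hf, hfb] at h1
    simpa [h1, hb0] using h
  have gab : g a0 b0 = 0 := iso a0 ha0 haa _ _ (hX a0) hab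
  have gbb : g b0 b0 = 0 := iso a0 ha0 haa _ _ hab hab
  obtain ⟨f1, f2, a1, a2, a3, a4⟩ := exists_fun2 hind
  obtain ⟨c0, hc0⟩ := (LinearMap.BilinForm.toDual g hg).surjective f1
  obtain ⟨d0, hd0⟩ := (LinearMap.BilinForm.toDual g hg).surjective f2
  have c1 : g a0 c0 = 1 := by rw [hs, ← a1, ← hc0]; rfl
  have c2 : g b0 c0 = 0 := by rw [hs, ← a2, ← hc0]; rfl
  have c3 : g a0 d0 = 0 := by rw [hs, ← a3, ← hd0]; rfl
  have c4 : g b0 d0 = 1 := by rw [hs, ← a4, ← hd0]; rfl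
  have XW : ∀ s t p q : K, X (s • a0 + t • b0) (p • a0 + q • b0) = 0 := by
    intro s t p q
    simp [hX, sw a0 b0, hab]
  have gW : ∀ s t : K, g (s • a0 + t • b0) (s • a0 + t • b0) = 0 := by
    intro s t
    simp [haa, gab, gbb, hs b0 a0]
  have fin1 : ∀ s t : K, (s ≠ 0 ∨ t ≠ 0) → ∀ u, X (s • a0 + t • b0) u = 0 →
      α (s • a0 + t • b0) u = 0 := by
    intro s t hst u hu
    have hne : s • a0 + t • b0 ≠ 0 := fun h => by
      have := hind s t h
      tauto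
    rw [hα _ _ hu]
    refine iso _ hne (gW s t) _ _ ?_ hu
    have : y (s • a0 + t • b0) = (s * l + t * f (y b0)) • a0 + (t * r) • b0 := by
      rw [map_add, map_smul, map_smul, e0]
      conv_lhs => rw [eb']
      module
    rw [this, XW]
  have key : ∀ β γ : V →ₗ[K] V →ₗ[K] K, Alt β → Alt γ → γ a0 b0 ≠ 0 →
      ∃ a u : V, Ind2 K a u ∧ X a u = 0 ∧ α a u = 0 ∧ β a u = 0 ∧ γ a u = 0 := by
    intro β γ hβ hγ hc
    set δ := γ a0 b0 • β - β a0 b0 • γ with hδ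
    obtain ⟨s, t, hst, e⟩ := bin3 hK (-δ a0 (X a0 d0))
      (δ a0 (X a0 c0) - δ a0 (X b0 d0) - δ b0 (X a0 d0))
      (δ a0 (X b0 c0) + δ b0 (X a0 c0) - δ b0 (X b0 d0)) (δ b0 (X b0 c0))
    have e1 : δ (s • a0 + t • b0) (X (s • a0 + t • b0) (t • c0 - s • d0)) = 0 := by
      simp only [map_add, map_sub, map_smul, LinearMap.add_apply, LinearMap.smul_apply,
        smul_eq_mul]
      linear_combination e
    obtain ⟨σ, τ, hu⟩ := exists_unimod hst
    have gaz : g (s • a0 + t • b0) (t • c0 - s • d0) = 0 := by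
      simp [c1, c2, c3, c4]; ring
    have gaz' : g (σ • a0 + τ • b0) (t • c0 - s • d0) = -1 := by
      simp [c1, c2, c3, c4]; linear_combination -hu
    have gaa' : g (σ • a0 + τ • b0) (s • a0 + t • b0) = 0 := by
      simp [haa, gab, gbb, hs b0 a0]
    have b1 : β (s • a0 + t • b0) (σ • a0 + τ • b0) = β a0 b0 := by
      simp [hβ a0, hβ b0, hβ.swap a0 b0]; linear_combination β a0 b0 * hu
    have b2 : γ (s • a0 + t • b0) (σ • a0 + τ • b0) = γ a0 b0 := by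
      simp [hγ a0, hγ b0, hγ.swap a0 b0]; linear_combination γ a0 b0 * hu
    have X1 := XW s t σ τ
    have X2 := XW σ τ s t
    have X3 := XW σ τ σ τ
    have g0 := gW s t
    have f0 := fin1 s t hst
    have hne : s • a0 + t • b0 ≠ 0 := fun h => by
      have := hind s t h
      tauto
    generalize s • a0 + t • b0 = a at *
    generalize σ • a0 + τ • b0 = a' at *
    generalize t • c0 - s • d0 = z at *
    have k1 : X a (X a z) = 0 := by rw [hI, gaz, g0]; simp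
    have k2 : X a' (X a z) = (-4 : K) • a := by
      have h1 := hI (a' + z) a
      simp only [map_add, LinearMap.add_apply, X2, hI z a, map_zero, gaa', hs z a, gaz,
        hs z a', gaz'] at h1
      rw [sw z a, map_neg]
      have h2 := hI a' a
      rw [X2, map_zero, gaa'] at h2
      linear_combination (norm := module) -h1 + h2
    have k3 : X a (γ a0 b0 • X a z - γ a (X a z) • a') = 0 := by simp [k1, X1]
    have k4 : γ a (γ a0 b0 • X a z - γ a (X a z) • a') = 0 := by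
      simp [b2]; ring
    refine ⟨a, _, ?_, k3, f0 _ k3, ?_, k4⟩
    · intro p q h
      have h1 := congrArg (X a') h
      simp [X2, X3, k2, hne, hc] at h1
      simpa [h1, hne] using h
    · simp only [hδ, LinearMap.sub_apply, LinearMap.smul_apply, smul_eq_mul] at e1
      simp only [map_sub, map_smul, smul_eq_mul, b1]
      linear_combination e1
  by_cases h1 : γ a0 b0 = 0
  · by_cases h2 : β a0 b0 = 0
    · exact ⟨a0, b0, hind, hab, by simpa using fin1 1 0 (Or.inl one_ne_zero) b0 (by simpa using hab),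
        h2, h1⟩
    · obtain ⟨a, u, k1, k2, k3, k4, k5⟩ := key γ β hγ hβ h2
      exact ⟨a, u, k1, k2, k3, k5, k4⟩
  · exact key β γ hβ hγ h1

end Pool.Agent.Lib.MP_97eeef_nt

end partG2a

section partG2b

open Module Matrix

namespace Pool.Agent.Lib.MP_97eeef_nt

variable {K : Type} [Field K]

/-- a three by three minor -/
def mnr (x y z : Fin 7 → K) (i j k : Fin 7) : K :=
  x i * (y j * z k - y k * z j) - x j * (y i * z k - y k * z i) + x k * (y i * z j - y j * z i)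

/-- the generic three-form in seven variables -/
def phi1 (x y z : Fin 7 → K) : K :=
  -mnr x y z 0 3 6 + mnr x y z 0 4 5 + mnr x y z 1 2 6 + mnr x y z 1 3 4 + mnr x y z 2 3 5

/-- the invariant symmetric form -/
def gF : (Fin 7 → K) →ₗ[K] (Fin 7 → K) →ₗ[K] K :=
  LinearMap.mk₂ K (fun u v => -2 * u 3 * v 3 + u 0 * v 6 + u 6 * v 0 + u 1 * v 4 + u 4 * v 1
      + u 2 * v 5 + u 5 * v 2)
    (by intros; simp only [Pi.add_apply]; ring)
    (by intros; simp only [Pi.smul_apply, smul_eq_mul]; ring)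
    (by intros; simp only [Pi.add_apply]; ring)
    (by intros; simp only [Pi.smul_apply, smul_eq_mul]; ring)

theorem gF_apply (u v : Fin 7 → K) : gF u v = -2 * u 3 * v 3 + u 0 * v 6 + u 6 * v 0 + u 1 * v 4
    + u 4 * v 1 + u 2 * v 5 + u 5 * v 2 := rfl

/-- the cross product -/
def xF (a b : Fin 7 → K) : Fin 7 → K :=
  ![-2 * a 0 * b 3 + 2 * a 1 * b 2 - 2 * a 2 * b 1 + 2 * a 3 * b 0,
    -2 * a 0 * b 5 + 2 * a 1 * b 3 - 2 * a 3 * b 1 + 2 * a 5 * b 0,
    2 * a 0 * b 4 + 2 * a 2 * b 3 - 2 * a 3 * b 2 - 2 * a 4 * b 0,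
    -a 0 * b 6 + a 1 * b 4 + a 2 * b 5 - a 4 * b 1 - a 5 * b 2 + a 6 * b 0,
    2 * a 2 * b 6 + 2 * a 3 * b 4 - 2 * a 4 * b 3 - 2 * a 6 * b 2,
    -2 * a 1 * b 6 + 2 * a 3 * b 5 - 2 * a 5 * b 3 + 2 * a 6 * b 1,
    -2 * a 3 * b 6 + 2 * a 4 * b 5 - 2 * a 5 * b 4 + 2 * a 6 * b 3]

/-- the cross product as a bilinear map -/
def XF : (Fin 7 → K) →ₗ[K] (Fin 7 → K) →ₗ[K] (Fin 7 → K) :=
  LinearMap.mk₂ K xF
    (by intros; ext i; fin_cases i <;> simp [xF] <;> ring)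
    (by intros; ext i; fin_cases i <;> simp [xF] <;> ring)
    (by intros; ext i; fin_cases i <;> simp [xF] <;> ring)
    (by intros; ext i; fin_cases i <;> simp [xF] <;> ring)

theorem XF_apply (a b : Fin 7 → K) : XF a b = xF a b := rfl

/-- the vector part of a two-form -/
def nF (w : Fin 7 → Fin 7 → K) : Fin 7 → K :=
  ![-1 / 3 * w 3 6 + 2 / 3 * w 4 5,
    2 / 3 * w 2 6 + 1 / 3 * w 3 4,
    -2 / 3 * w 1 6 + 1 / 3 * w 3 5,
    1 / 3 * w 0 6 - 1 / 3 * w 1 4 - 1 / 3 * w 2 5,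
    -2 / 3 * w 0 5 + 1 / 3 * w 1 3,
    2 / 3 * w 0 4 + 1 / 3 * w 2 3,
    -1 / 3 * w 0 3 + 2 / 3 * w 1 2]

/-- the derivation part of a two-form -/
def yM (w : Fin 7 → Fin 7 → K) : Matrix (Fin 7) (Fin 7) K :=
  !![2 / 3 * w 0 6 + 1 / 3 * w 1 4 + 1 / 3 * w 2 5, 1 / 3 * w 1 6 + 1 / 3 * w 3 5, 1 / 3 * w 2 6
    - 1 / 3 * w 3 4, 2 / 3 * w 3 6 + 2 / 3 * w 4 5, w 4 6, w 5 6, 0;
    1 / 3 * w 0 4 - 1 / 3 * w 2 3, 1 / 3 * w 0 6 + 2 / 3 * w 1 4 - 1 / 3 * w 2 5, w 2 4, -2 / 3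
    * w 2 6 + 2 / 3 * w 3 4, 0, -1 / 3 * w 3 6 - 1 / 3 * w 4 5, -w 4 6;
    1 / 3 * w 0 5 + 1 / 3 * w 1 3, w 1 5, 1 / 3 * w 0 6 - 1 / 3 * w 1 4 + 2 / 3 * w 2 5, 2 / 3 *
    w 1 6 + 2 / 3 * w 3 5, 1 / 3 * w 3 6 + 1 / 3 * w 4 5, 0, -w 5 6;
    -1 / 3 * w 0 3 - 1 / 3 * w 1 2, -1 / 3 * w 0 5 - 1 / 3 * w 1 3, 1 / 3 * w 0 4 - 1 / 3 * w 2
    3, 0, -1 / 3 * w 2 6 + 1 / 3 * w 3 4, 1 / 3 * w 1 6 + 1 / 3 * w 3 5, 1 / 3 * w 3 6 + 1 / 3 *
    w 4 5;
    w 0 1, 0, -1 / 3 * w 0 3 - 1 / 3 * w 1 2, -2 / 3 * w 0 5 - 2 / 3 * w 1 3, -1 / 3 * w 0 6 - 2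
    / 3 * w 1 4 + 1 / 3 * w 2 5, -w 1 5, -1 / 3 * w 1 6 - 1 / 3 * w 3 5;
    w 0 2, 1 / 3 * w 0 3 + 1 / 3 * w 1 2, 0, 2 / 3 * w 0 4 - 2 / 3 * w 2 3, -w 2 4, -1 / 3 * w 0
    6 + 1 / 3 * w 1 4 - 2 / 3 * w 2 5, -1 / 3 * w 2 6 + 1 / 3 * w 3 4;
    0, -w 0 1, -w 0 2, -2 / 3 * w 0 3 - 2 / 3 * w 1 2, -1 / 3 * w 0 4 + 1 / 3 * w 2 3, -1 / 3 *
    w 0 5 - 1 / 3 * w 1 3, -2 / 3 * w 0 6 - 1 / 3 * w 1 4 - 1 / 3 * w 2 5]

theorem gX (a b c : Fin 7 → K) : gF (XF a b) c = 2 * phi1 a b c := by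
  simp [gF_apply, XF_apply, xF, phi1, mnr]; ring

theorem expand2 {ω : (Fin 7 → K) →ₗ[K] (Fin 7 → K) →ₗ[K] K} (h : Alt ω) (u v : Fin 7 → K) :
    ω u v =
      ω (Pi.single 0 1) (Pi.single 1 1) * (u 0 * v 1 - u 1 * v 0) + ω (Pi.single 0 1) (Pi.single
      2 1) * (u 0 * v 2 - u 2 * v 0) + ω (Pi.single 0 1) (Pi.single 3 1) * (u 0 * v 3 - u 3 * v
      0) + ω (Pi.single 0 1) (Pi.single 4 1) * (u 0 * v 4 - u 4 * v 0) + ω (Pi.single 0 1)
      (Pi.single 5 1) * (u 0 * v 5 - u 5 * v 0) + ω (Pi.single 0 1) (Pi.single 6 1) * (u 0 * v 6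
      - u 6 * v 0) + ω (Pi.single 1 1) (Pi.single 2 1) * (u 1 * v 2 - u 2 * v 1) + ω (Pi.single
      1 1) (Pi.single 3 1) * (u 1 * v 3 - u 3 * v 1) + ω (Pi.single 1 1) (Pi.single 4 1) * (u 1
      * v 4 - u 4 * v 1) + ω (Pi.single 1 1) (Pi.single 5 1) * (u 1 * v 5 - u 5 * v 1) + ω
      (Pi.single 1 1) (Pi.single 6 1) * (u 1 * v 6 - u 6 * v 1) + ω (Pi.single 2 1) (Pi.single 3
      1) * (u 2 * v 3 - u 3 * v 2) + ω (Pi.single 2 1) (Pi.single 4 1) * (u 2 * v 4 - u 4 * v 2)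
      + ω (Pi.single 2 1) (Pi.single 5 1) * (u 2 * v 5 - u 5 * v 2) + ω (Pi.single 2 1)
      (Pi.single 6 1) * (u 2 * v 6 - u 6 * v 2) + ω (Pi.single 3 1) (Pi.single 4 1) * (u 3 * v 4
      - u 4 * v 3) + ω (Pi.single 3 1) (Pi.single 5 1) * (u 3 * v 5 - u 5 * v 3) + ω (Pi.single
      3 1) (Pi.single 6 1) * (u 3 * v 6 - u 6 * v 3) + ω (Pi.single 4 1) (Pi.single 5 1) * (u 4
      * v 5 - u 5 * v 4) + ω (Pi.single 4 1) (Pi.single 6 1) * (u 4 * v 6 - u 6 * v 4) + ω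
      (Pi.single 5 1) (Pi.single 6 1) * (u 5 * v 6 - u 6 * v 5) := by
  have e : ∀ x : Fin 7 → K, x = x 0 • Pi.single 0 1 + x 1 • Pi.single 1 1 + x 2 • Pi.single 2 1
      + x 3 • Pi.single 3 1 + x 4 • Pi.single 4 1 + x 5 • Pi.single 5 1 + x 6 • Pi.single 6 1 := by
    intro x
    ext i
    fin_cases i <;> simp
  have h0 : ∀ x, ω x x = 0 := h
  conv_lhs => rw [e u, e v]
  simp only [map_add, map_smul, LinearMap.add_apply, LinearMap.smul_apply, smul_eq_mul, h0,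
    h.swap (Pi.single 0 1) (Pi.single 1 1), h.swap (Pi.single 0 1) (Pi.single 2 1), h.swap
    (Pi.single 0 1) (Pi.single 3 1), h.swap (Pi.single 0 1) (Pi.single 4 1), h.swap (Pi.single 0
    1) (Pi.single 5 1), h.swap (Pi.single 0 1) (Pi.single 6 1), h.swap (Pi.single 1 1)
    (Pi.single 2 1), h.swap (Pi.single 1 1) (Pi.single 3 1), h.swap (Pi.single 1 1) (Pi.single 4
    1), h.swap (Pi.single 1 1) (Pi.single 5 1), h.swap (Pi.single 1 1) (Pi.single 6 1), h.swap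
    (Pi.single 2 1) (Pi.single 3 1), h.swap (Pi.single 2 1) (Pi.single 4 1), h.swap (Pi.single 2
    1) (Pi.single 5 1), h.swap (Pi.single 2 1) (Pi.single 6 1), h.swap (Pi.single 3 1)
    (Pi.single 4 1), h.swap (Pi.single 3 1) (Pi.single 5 1), h.swap (Pi.single 3 1) (Pi.single 6
    1), h.swap (Pi.single 4 1) (Pi.single 5 1), h.swap (Pi.single 4 1) (Pi.single 6 1), h.swap
    (Pi.single 5 1) (Pi.single 6 1)]
  ring

variable [CharZero K]

omit [CharZero K] in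
theorem yM_mulVec (w : Fin 7 → Fin 7 → K) (u : Fin 7 → K) (i : Fin 7) : (yM w).mulVecLin u i =
    yM w i 0 * u 0 + yM w i 1 * u 1 + yM w i 2 * u 2 + yM w i 3 * u 3 + yM w i 4 * u 4
      + yM w i 5 * u 5 + yM w i 6 * u 6 := by
  simp [mulVec, dotProduct, Fin.sum_univ_seven]

theorem std_g2 (hK : R4 K) {α β γ : (Fin 7 → K) →ₗ[K] (Fin 7 → K) →ₗ[K] K} (hα : Alt α)
    (hβ : Alt β) (hγ : Alt γ) :
    ∃ a u : Fin 7 → K, Ind2 K a u ∧ (∀ c, phi1 a u c = 0) ∧ α a u = 0 ∧ β a u = 0 ∧ γ a u = 0 := by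
  let w : Fin 7 → Fin 7 → K := fun i j => α (Pi.single i 1) (Pi.single j 1)
  have hs : ∀ u v : Fin 7 → K, gF u v = gF v u := fun u v => by simp only [gF_apply]; ring
  have hg : LinearMap.BilinForm.Nondegenerate (gF (K := K)) := by
    have hr : LinearMap.IsRefl (gF (K := K)) := fun x y h => by rw [hs, h]
    refine hr.nondegenerate_iff_separatingLeft.mpr fun v hv => ?_
    have h0 := hv (Pi.single 0 1)
    have h1 := hv (Pi.single 1 1)
    have h2 := hv (Pi.single 2 1)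
    have h3 := hv (Pi.single 3 1)
    have h4 := hv (Pi.single 4 1)
    have h5 := hv (Pi.single 5 1)
    have h6 := hv (Pi.single 6 1)
    simp [gF_apply] at h0 h1 h2 h3 h4 h5 h6
    ext i
    fin_cases i <;> simp [h0, h1, h2, h3, h4, h5, h6]
  have hD : ∀ a u : Fin 7 → K, XF ((yM w).mulVecLin a) u + XF a ((yM w).mulVecLin u) =
      (yM w).mulVecLin (XF a u) := by
    intro a u
    ext i
    rw [yM_mulVec]
    fin_cases i <;> simp only [XF_apply, xF, Pi.add_apply, yM_mulVec] <;> simp [yM] <;> ring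
  obtain ⟨a, u, h1, h2, h3⟩ := cross_abs hK (by simp) hg hs XF
    (fun a => by ext i; fin_cases i <;> simp [XF_apply, xF] <;> ring)
    (fun u a => by ext i; fin_cases i <;> simp [XF_apply, xF, gF_apply] <;> ring)
    (yM w).mulVecLin
    (fun u v => by simp only [gF_apply, yM_mulVec]; simp [yM]; ring)
    (fun a u h => by rw [hD, h, map_zero]) (α := α)
    (fun a u h => by
      have h1 := gX a u (nF w)
      rw [h, map_zero, LinearMap.zero_apply] at h1
      rw [expand2 hα]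
      simp only [gF_apply, yM_mulVec]
      simp only [phi1, mnr] at h1
      simp [yM, nF] at h1 ⊢
      simp only [w] at h1 ⊢
      linear_combination h1) hβ hγ
  refine ⟨a, u, h1, fun c => ?_, h3⟩
  have h4 := gX a u c
  rw [h2, map_zero, LinearMap.zero_apply] at h4
  linear_combination -h4 / 2

end Pool.Agent.Lib.MP_97eeef_nt

end partG2b

section partG2c

open Module Matrix

namespace Pool.Agent.Lib.MP_97eeef_nt

variable {K : Type} [Field K] {V : Type*} [AddCommGroup V] [Module K V]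

theorem Alt3.expand7 {t : V →ₗ[K] V →ₗ[K] V →ₗ[K] K} (h : Alt3 t) (a b c T E G F : V)
    (x y z : Fin 7 → K) :
    t (Fintype.linearCombination K ![a, b, c, T, E, G, F] x)
      (Fintype.linearCombination K ![a, b, c, T, E, G, F] y)
      (Fintype.linearCombination K ![a, b, c, T, E, G, F] z) =
      t a b c * mnr x y z 0 1 2 + t a b T * mnr x y z 0 1 3 + t a b E * mnr x y z 0 1 4 + t a b
      G * mnr x y z 0 1 5 + t a b F * mnr x y z 0 1 6 + t a c T * mnr x y z 0 2 3 + t a c E *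
      mnr x y z 0 2 4 + t a c G * mnr x y z 0 2 5 + t a c F * mnr x y z 0 2 6 + t a T E * mnr x
      y z 0 3 4 + t a T G * mnr x y z 0 3 5 + t a T F * mnr x y z 0 3 6 + t a E G * mnr x y z 0
      4 5 + t a E F * mnr x y z 0 4 6 + t a G F * mnr x y z 0 5 6 + t b c T * mnr x y z 1 2 3 +
      t b c E * mnr x y z 1 2 4 + t b c G * mnr x y z 1 2 5 + t b c F * mnr x y z 1 2 6 + t b T
      E * mnr x y z 1 3 4 + t b T G * mnr x y z 1 3 5 + t b T F * mnr x y z 1 3 6 + t b E G *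
      mnr x y z 1 4 5 + t b E F * mnr x y z 1 4 6 + t b G F * mnr x y z 1 5 6 + t c T E * mnr x
      y z 2 3 4 + t c T G * mnr x y z 2 3 5 + t c T F * mnr x y z 2 3 6 + t c E G * mnr x y z 2
      4 5 + t c E F * mnr x y z 2 4 6 + t c G F * mnr x y z 2 5 6 + t T E G * mnr x y z 3 4 5 +
      t T E F * mnr x y z 3 4 6 + t T G F * mnr x y z 3 5 6 + t E G F * mnr x y z 4 5 6 := by
  have e : ∀ x : Fin 7 → K, Fintype.linearCombination K ![a, b, c, T, E, G, F] x =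
      x 0 • a + x 1 • b + x 2 • c + x 3 • T + x 4 • E + x 5 • G + x 6 • F := by
    intro x
    simp [Fintype.linearCombination_apply, Fin.sum_univ_seven]
  rw [e, e, e]
  simp only [map_add, map_smul, LinearMap.add_apply, LinearMap.smul_apply, smul_eq_mul,
    h.s12 a b, h.s23 a b, h.s12 a c, h.s23 a c, h.s12 a T, h.s23 a T, h.s12 a E, h.s23 a E,
    h.s12 a G, h.s23 a G, h.s12 a F, h.s23 a F, h.s12 b c, h.s23 b c, h.s12 b T, h.s23 b T,
    h.s12 b E, h.s23 b E, h.s12 b G, h.s23 b G, h.s12 b F, h.s23 b F, h.s12 c T, h.s23 c T,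
    h.s12 c E, h.s23 c E, h.s12 c G, h.s23 c G, h.s12 c F, h.s23 c F, h.s12 T E, h.s23 T E,
    h.s12 T G, h.s23 T G, h.s12 T F, h.s23 T F, h.s12 E G, h.s23 E G, h.s12 E F, h.s23 E F,
    h.s12 G F, h.s23 G F,
    h.z12, h.z23, neg_zero, neg_neg, mnr]
  ring

/-- the unipotent change of coordinates -/
def pM (p1 p2 p3 p4 q0 q1 q2 q3 q4 r1 r2 s : K) : Matrix (Fin 7) (Fin 7) K :=
  !![1, -p3, -p4, p1 * p4 - p2 * p3 - q0 - q1 - q4,
      p1 * q3 - p2 * q1 - r1, p1 * q4 - p2 * q2 - r2, q1 * q4 - q2 * q3 - s;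
    0, 1, 0, p2 + p4, q3, q4, 0;
    0, 0, 1, -p1 - p3, -q1, -q2, 0;
    0, 0, 0, 1, 0, 0, 0;
    0, 0, 0, 0, 1, 0, 0;
    0, 0, 0, 0, 0, 1, 0;
    0, 0, 0, 0, 0, 0, 1]

theorem pM_phi (p1 p2 p3 p4 q0 q1 q2 q3 q4 r1 r2 s : K) (x y z x' y' z' : Fin 7 → K)
    (hx : x' = (pM p1 p2 p3 p4 q0 q1 q2 q3 q4 r1 r2 s).mulVecLin x)
    (hy : y' = (pM p1 p2 p3 p4 q0 q1 q2 q3 q4 r1 r2 s).mulVecLin y)
    (hz : z' = (pM p1 p2 p3 p4 q0 q1 q2 q3 q4 r1 r2 s).mulVecLin z) :
    phi1 x' y' z' + p1 * mnr x' y' z' 1 3 6 + p2 * mnr x' y' z' 2 3 6 + p3 * mnr x' y' z' 1 4 5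
      + p4 * mnr x' y' z' 2 4 5 + q0 * mnr x' y' z' 3 4 5 + q1 * mnr x' y' z' 1 4 6
      + q2 * mnr x' y' z' 1 5 6 + q3 * mnr x' y' z' 2 4 6 + q4 * mnr x' y' z' 2 5 6
      + r1 * mnr x' y' z' 3 4 6 + r2 * mnr x' y' z' 3 5 6 + s * mnr x' y' z' 4 5 6
      = phi1 x y z := by
  have e : ∀ x : Fin 7 → K, (pM p1 p2 p3 p4 q0 q1 q2 q3 q4 r1 r2 s).mulVecLin x =
      ![x 0 - p3 * x 1 - p4 * x 2 + (p1 * p4 - p2 * p3 - q0 - q1 - q4) * x 3
        + (p1 * q3 - p2 * q1 - r1) * x 4 + (p1 * q4 - p2 * q2 - r2) * x 5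
        + (q1 * q4 - q2 * q3 - s) * x 6,
        x 1 + (p2 + p4) * x 3 + q3 * x 4 + q4 * x 5,
        x 2 + (-p1 - p3) * x 3 - q1 * x 4 - q2 * x 5, x 3, x 4, x 5, x 6] := by
    intro x
    ext i
    fin_cases i <;> simp [pM, mulVec, dotProduct, Fin.sum_univ_seven] <;> ring
  rw [hx, hy, hz, e, e, e]
  simp [phi1, mnr]
  ring

theorem pM_det (p1 p2 p3 p4 q0 q1 q2 q3 q4 r1 r2 s : K) :
    (pM p1 p2 p3 p4 q0 q1 q2 q3 q4 r1 r2 s).det = 1 := by
  rw [det_of_isUpperTriangular]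
  · simp [pM, Fin.prod_univ_seven]
  · intro i j hij
    fin_cases i <;> fin_cases j <;> simp at hij <;> simp [pM]

/-- a point of the surface of genus ten -/
def Sol (t : V →ₗ[K] V →ₗ[K] V →ₗ[K] K) (α β γ : V →ₗ[K] V →ₗ[K] K) : Prop :=
  ∃ a u : V, Ind2 K a u ∧ (∀ c, t a u c = 0) ∧ α a u = 0 ∧ β a u = 0 ∧ γ a u = 0

variable [CharZero K] [FiniteDimensional K V]

theorem sol_of_frame (hK : R4 K) (hV : finrank K V = 7) {t : V →ₗ[K] V →ₗ[K] V →ₗ[K] K}
    (h : Alt3 t) {α β γ : V →ₗ[K] V →ₗ[K] K} (hα : Alt α) (hβ : Alt β) (hγ : Alt γ)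
    (a b c T E G F : V)
    (hs : Function.Surjective (Fintype.linearCombination K ![a, b, c, T, E, G, F]))
    (h1 : ∀ v, t a b v = 0) (h2 : ∀ v, t a c v = 0) (h3 : t a T E = 0) (h4 : t a T G = 0)
    (h5 : t a T F = -1) (h6 : t a E G = 1) (h7 : t a E F = 0) (h8 : t a G F = 0)
    (h9 : t b c T = 0) (h10 : t b c E = 0) (h11 : t b c G = 0) (h12 : t b c F = 1)
    (h13 : t b T E = 1) (h14 : t b T G = 0) (h15 : t c T E = 0) (h16 : t c T G = 1) :
    Sol t α β γ := by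
  let P := (pM (t b T F) (t c T F) (t b E G) (t c E G) (t T E G) (t b E F) (t b G F) (t c E F)
    (t c G F) (t T E F) (t T G F) (t E G F))
  let ρ := Fintype.linearCombination K ![a, b, c, T, E, G, F] ∘ₗ P.mulVecLin
  have hP : Function.Surjective P.mulVecLin :=
    mulVec_surjective_iff_isUnit.mpr ((isUnit_iff_isUnit_det P).mpr (by simp [P, pM_det]))
  have hρ : Function.Surjective ρ := hs.comp hP
  have hρ' : Function.Injective ρ :=
    (LinearMap.injective_iff_surjective_of_finrank_eq_finrank (by simp [hV])).mpr hρ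
  have key : ∀ x y z, t (ρ x) (ρ y) (ρ z) = phi1 x y z := by
    intro x y z
    rw [← pM_phi _ _ _ _ _ _ _ _ _ _ _ _ x y z (P.mulVecLin x) (P.mulVecLin y) (P.mulVecLin z)
      rfl rfl rfl]
    simp only [ρ, LinearMap.comp_apply]
    rw [h.expand7]
    simp only [h1, h2, h3, h4, h5, h6, h7, h8, h9, h10, h11, h12, h13, h14, h15, h16, phi1]
    ring
  obtain ⟨x, u, k1, k2, k3⟩ := std_g2 hK (hα.pull ρ) (hβ.pull ρ) (hγ.pull ρ)
  refine ⟨ρ x, ρ u, k1.map hρ', fun v => ?_, k3⟩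
  obtain ⟨z, rfl⟩ := hρ v
  rw [key, k2]

theorem ker_odd {ω : V →ₗ[K] V →ₗ[K] K} (h : Alt ω) (ho : Odd (finrank K V)) :
    Odd (finrank K (LinearMap.ker ω)) := by
  by_contra hn
  obtain ⟨P, hP⟩ := Submodule.exists_isCompl (LinearMap.ker ω)
  have h1 := Submodule.finrank_add_eq_of_isCompl hP
  have h2 : Odd (finrank K P) := by
    rw [← h1, Nat.odd_add] at ho
    by_contra h3
    exact hn (ho.mpr (Nat.not_odd_iff_even.mp h3))
  obtain ⟨w, hw, hw'⟩ := odd_kernel (h.pull P.subtype) h2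
  have h3 : (w : V) ∈ LinearMap.ker ω := by
    rw [LinearMap.mem_ker]
    ext u
    obtain ⟨x, y, hx, hy, rfl⟩ := Submodule.codisjoint_iff_exists_add_eq.mp hP.codisjoint u
    have h4 : ω x = 0 := hx
    have h5 : ω w y = 0 := hw' ⟨y, hy⟩
    simp [h.swap x w, h4, h5]
  exact hw (Subtype.ext ((Submodule.disjoint_def.mp hP.disjoint) w h3 w.2))

theorem sol_of_big (hV : finrank K V = 7) {t : V →ₗ[K] V →ₗ[K] V →ₗ[K] K}
    (h : Alt3 t) (α β γ : V →ₗ[K] V →ₗ[K] K) {a : V} (ha : a ≠ 0)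
    (h4 : 4 ≤ finrank K (LinearMap.ker (t a))) : Sol t α β γ := by
  have h5 := ker_odd (h.1 a) (by rw [hV]; decide)
  obtain ⟨f, hf⟩ := exists_fun (K := K) ha
  obtain ⟨u, hu, hu'⟩ := exists_ne_ker (V := LinearMap.ker (t a))
    (LinearMap.pi ![f, α a, β a, γ a] ∘ₗ (LinearMap.ker (t a)).subtype)
    (by obtain ⟨m, hm⟩ := h5; omega)
  have hfu : f u = 0 := congrFun hu' 0
  refine ⟨a, u, fun s r e => ?_, fun c => by rw [show t a u = 0 from u.2]; rfl, congrFun hu' 1,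
    congrFun hu' 2, congrFun hu' 3⟩
  have h1 := congrArg f e
  simp [hf, hfu] at h1
  simpa [h1, hu] using e

omit [CharZero K] in
theorem le_finrank_of_inj {m : ℕ} (N : Submodule K V) (ρ : (Fin m → K) →ₗ[K] V)
    (hρ : Function.Injective ρ) (h : ∀ x, ρ x ∈ N) : m ≤ finrank K N := by
  have := LinearMap.finrank_le_finrank_of_injective (f := ρ.codRestrict N h)
    (fun x y e => hρ (congrArg Subtype.val e))
  simpa using this

omit [CharZero K] in
theorem four_le (N : Submodule K V) {a b c d : V} (h : Ind4 K a b c d) (ha : a ∈ N) (hb : b ∈ N)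
    (hc : c ∈ N) (hd : d ∈ N) : 4 ≤ finrank K N := by
  refine le_finrank_of_inj N _ (linearIndependent_iff_injective_fintypeLinearCombination.mp h.li)
    fun x => ?_
  simp only [Fintype.linearCombination_apply, Fin.sum_univ_four]
  exact N.add_mem (N.add_mem (N.add_mem (N.smul_mem _ ha) (N.smul_mem _ hb)) (N.smul_mem _ hc))
    (N.smul_mem _ hd)

omit [CharZero K] in
theorem exists_onto {r : ℕ} (m : ℕ) (φ : V →ₗ[K] (Fin r → K)) (hφ : Function.Surjective φ)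
    (h : finrank K V = m + r) : ∃ ρ : (Fin m → K) →ₗ[K] V, Function.Injective ρ ∧
      (∀ x, φ (ρ x) = 0) ∧ ∀ v, φ v = 0 → ∃ x, ρ x = v := by
  have h1 := LinearMap.finrank_range_add_finrank_ker φ
  rw [LinearMap.range_eq_top.mpr hφ] at h1
  simp only [finrank_top, finrank_fintype_fun_eq_card, Fintype.card_fin] at h1
  let e : (Fin m → K) ≃ₗ[K] LinearMap.ker φ := LinearEquiv.ofFinrankEq _ _ (by simp; omega)
  refine ⟨(LinearMap.ker φ).subtype ∘ₗ e.toLinearMap,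
    (LinearMap.ker φ).injective_subtype.comp e.injective, fun x => (e x).2, fun v hv => ?_⟩
  exact ⟨e.symm ⟨v, hv⟩, by simp⟩

omit [CharZero K] in
theorem null_pair (hK : R4 K) (hV : finrank K V = 7) {t : V →ₗ[K] V →ₗ[K] V →ₗ[K] K}
    (h : Alt3 t) {a u v : V} (h0 : t a u v ≠ 0) : ∃ a b : V, Ind2 K a b ∧ ∀ c, t a b c = 0 := by
  have hi : Ind2 K a u := by
    intro s r e
    have h1 := congrArg (fun x => t a x v) e
    have h2 := congrArg (fun x => t x u v) e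
    simp [h.z12, h0] at h1 h2
    exact ⟨h2, h1⟩
  obtain ⟨f1, f2, a1, a2, a3, a4⟩ := exists_fun2 hi
  obtain ⟨ρ, -, -, hρ⟩ := exists_onto 5 (LinearMap.pi ![f1, f2])
    (fun x => ⟨x 0 • a + x 1 • u, by ext i; fin_cases i <;> simp [a1, a2, a3, a4]⟩) hV
  have hH : 6 ≤ finrank K (LinearMap.ker (t a u)) := by
    obtain ⟨π, h1, h2⟩ := exists_inj 6 (LinearMap.pi ![t a u]) hV.ge
    exact le_finrank_of_inj _ π h1 fun x => congrFun (h2 x) 0
  have ma : a ∈ LinearMap.ker (t a u) := by simp [h.s23 a u, h.z12]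
  have mu : u ∈ LinearMap.ker (t a u) := h.z23 a u
  obtain ⟨s, r, b, k1, k2⟩ := plane_through_line hK (V := LinearMap.ker (t a u)) 4 (by norm_num)
    le_rfl hH (e1 := ⟨a, ma⟩) (e2 := ⟨u, mu⟩) (fun s r e => hi s r (congrArg Subtype.val e))
    (fun i => (t.compr₂ (LinearMap.applyₗ (ρ (Pi.single i 1)))).compl₁₂
      (LinearMap.ker (t a u)).subtype (LinearMap.ker (t a u)).subtype) (fun i x => h.z12 _ _)
  have hb : t a u b = 0 := b.2
  refine ⟨s • a + r • u, b, k1.map (LinearMap.ker (t a u)).injective_subtype, fun c => ?_⟩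
  obtain ⟨x, hx⟩ := hρ (c - f1 c • a - f2 c • u)
    (by ext i; fin_cases i <;> simp [a1, a2, a3, a4])
  have h1 : t (s • a + r • u) b (ρ x) = 0 := by
    have : (t (s • a + r • u) b) ∘ₗ ρ = 0 := LinearMap.pi_ext' fun i => by
      ext
      simpa using k2 i
    exact LinearMap.congr_fun this x
  rw [hx] at h1
  simp [h.s23 a b, h.s23 u b, h.s12 a u, h.z12, hb] at h1 ⊢
  exact h1

omit [CharZero K] [FiniteDimensional K V] in
theorem exists_fun3 {e1 e2 e3 : V} (h' : Ind3 K e1 e2 e3) :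
    ∃ φ : V →ₗ[K] (Fin 3 → K), φ e1 = ![1, 0, 0] ∧ φ e2 = ![0, 1, 0] ∧ φ e3 = ![0, 0, 1] := by
  obtain ⟨g, hg⟩ := LinearMap.exists_leftInverse_of_injective
    (Fintype.linearCombination K ![e1, e2, e3])
    (LinearMap.ker_eq_bot.mpr (linearIndependent_iff_injective_fintypeLinearCombination.mp h'.li))
  have h1 := LinearMap.congr_fun hg ![1, 0, 0]
  have h2 := LinearMap.congr_fun hg ![0, 1, 0]
  have h3 := LinearMap.congr_fun hg ![0, 0, 1]
  simp [Fintype.linearCombination_apply, Fin.sum_univ_three] at h1 h2 h3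
  exact ⟨g, h1, h2, h3⟩

/-- genus 10 -/
theorem genus10 (hK : R4 K) (hV : finrank K V = 7) {t : V →ₗ[K] V →ₗ[K] V →ₗ[K] K}
    (h : Alt3 t) {α β γ : V →ₗ[K] V →ₗ[K] K} (hα : Alt α) (hβ : Alt β) (hγ : Alt γ) :
    Sol t α β γ := by
  by_contra hcon
  have N1 : ∀ a, a ≠ 0 → ¬ 4 ≤ finrank K (LinearMap.ker (t a)) := fun a ha h4 =>
    hcon (sol_of_big hV h α β γ ha h4)
  have : Nontrivial V := Module.finrank_pos_iff.mp (by omega : 0 < finrank K V)
  obtain ⟨a1, ha1⟩ := exists_ne (0 : V)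
  obtain ⟨u1, v1, h0⟩ : ∃ u v, t a1 u v ≠ 0 := by
    by_contra h0
    push Not at h0
    apply N1 a1 ha1
    rw [show t a1 = 0 by ext u v; exact h0 u v, LinearMap.ker_zero, finrank_top]
    omega
  obtain ⟨a, b, hab, h1⟩ := null_pair hK hV h h0
  have ha : a ≠ 0 := fun e => by simpa using (hab 1 0 (by simp [e])).1
  obtain ⟨c, habc, h2⟩ : ∃ c, Ind3 K a b c ∧ ∀ v, t a c v = 0 := by
    obtain ⟨f1, f2, a1, a2, a3, a4⟩ := exists_fun2 hab
    have h3 : 2 ≤ finrank K (LinearMap.ker (t a)) := by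
      refine le_finrank_of_inj _ _
        (linearIndependent_iff_injective_fintypeLinearCombination.mp hab.li) fun x => ?_
      rw [LinearMap.mem_ker]
      ext v
      simp [Fintype.linearCombination_apply, Fin.sum_univ_two, h.z12, h1]
    obtain ⟨m, hm⟩ := ker_odd (h.1 a) (by rw [hV]; decide)
    obtain ⟨c, hc, hc'⟩ := exists_ne_ker (V := LinearMap.ker (t a))
      (LinearMap.pi ![f1, f2] ∘ₗ (LinearMap.ker (t a)).subtype) (by omega)
    have c1 : f1 c = 0 := congrFun hc' 0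
    have c2 : f2 c = 0 := congrFun hc' 1
    refine ⟨c, fun s r u e => ?_, fun v => by rw [show t a c = 0 from c.2]; rfl⟩
    have b1 := congrArg f1 e
    have b2 := congrArg f2 e
    simp [a1, a2, a3, a4, c1, c2] at b1 b2
    simpa [b1, b2, hc] using e
  obtain ⟨φ, f1, f2, f3⟩ := exists_fun3 habc
  obtain ⟨ρ, hρ, hρ1, hρ2⟩ := exists_onto 4 φ
    (fun x => ⟨x 0 • a + x 1 • b + x 2 • c, by ext i; fin_cases i <;> simp [f1, f2, f3]⟩) hV
  have dec : ∀ v, ∃ x, v = φ v 0 • a + φ v 1 • b + φ v 2 • c + ρ x := by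
    intro v
    obtain ⟨x, hx⟩ := hρ2 (v - φ v 0 • a - φ v 1 • b - φ v 2 • c)
      (by ext i; fin_cases i <;> simp [f1, f2, f3, vecHead, vecTail])
    exact ⟨x, by rw [hx]; abel⟩
  have ind4 : ∀ x, x ≠ 0 → Ind4 K a b c (ρ x) := by
    intro x hx p q r s e
    have b1 := congrArg φ e
    simp only [map_add, map_smul, f1, f2, f3, hρ1, map_zero] at b1
    have b2 := congrFun b1 0
    have b3 := congrFun b1 1
    have b4 := congrFun b1 2
    simp at b2 b3 b4
    refine ⟨b2, b3, b4, ?_⟩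
    by_contra hs
    exact hx (hρ (by simpa [b2, b3, b4, hs] using e))
  have nz : ∀ p q r : K, (q ≠ 0 ∨ r ≠ 0) ∨ p ≠ 0 → p • a + q • b + r • c ≠ 0 := by
    intro p q r hp e
    have := habc p q r e
    tauto
  have hσ := (h.1 a).pull ρ
  have nd : LinearMap.BilinForm.Nondegenerate ((t a).compl₁₂ ρ ρ) := by
    refine hσ.nondeg ?_
    rintro ⟨x, hx, hx'⟩
    refine N1 a ha (four_le _ (ind4 x hx) ?_ ?_ ?_ ?_) <;> rw [LinearMap.mem_ker] <;> ext v
    · exact h.z12 a v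
    · exact h1 v
    · exact h2 v
    · obtain ⟨y, hy⟩ := dec v
      have := hx' y
      rw [hy]
      simpa [h.s23 a (ρ x), h.s23 b (ρ x), h.s23 c (ρ x), h.z12, h1, h2] using this
  obtain ⟨xF, hF⟩ : ∃ x, t b c (ρ x) = 1 := by
    by_contra h3
    have h4 : ∀ x, t b c (ρ x) = 0 := by
      intro x
      by_contra h4
      exact h3 ⟨(t b c (ρ x))⁻¹ • x, by simp [h4]⟩
    have h5 : ∀ v, t b c v = 0 := by
      intro v
      obtain ⟨y, hy⟩ := dec v
      rw [hy]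
      simp [h.s23 a c, h.s12 a b, h.s23 b c b, h.z12, h.z23, h1, h4]
    obtain ⟨s, r, x, hsr, hx, hx'⟩ := degenerate_member hK hσ ((h.1 b).pull ρ) (by simp) (by simp)
    refine N1 (s • a + r • b + (0 : K) • c) (nz s r 0 (by tauto))
      (four_le _ (ind4 x hx) ?_ ?_ ?_ ?_) <;> rw [LinearMap.mem_ker] <;> ext v
    · simp [h.z12, h.s12 a b, h1]
    · simp [h.z12, h1]
    · simp [h2, h5]
    · obtain ⟨y, hy⟩ := dec v
      have := hx' y
      rw [hy]
      simpa [h.s23 a (ρ x), h.s23 b (ρ x), h.s23 c (ρ x), h.s12 a b, h.z12, h1, h2, h5]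
        using this
  obtain ⟨xT, hT⟩ := (LinearMap.BilinForm.toDual _ nd).surjective (-(t b c ∘ₗ ρ))
  have hT' : ∀ x, t a (ρ xT) (ρ x) = -t b c (ρ x) := fun x => LinearMap.congr_fun hT x
  have lT : t b c (ρ xT) = 0 := by simpa [h.z23] using hT' xT
  have FT : t a (ρ xF) (ρ xT) = 1 := by rw [h.s23, hT', hF, neg_neg]
  obtain ⟨κ, hκ, hκ1, hκ2⟩ := exists_onto (V := Fin 4 → K) 2
    (LinearMap.pi ![t b c ∘ₗ ρ, t a (ρ xF) ∘ₗ ρ])
    (fun x => ⟨x 0 • xF + x 1 • xT, by ext i; fin_cases i <;> simp [hF, lT, FT, h.z23]⟩) (by simp)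
  have k1 : ∀ x, t b c (ρ (κ x)) = 0 := fun x => congrFun (hκ1 x) 0
  have k2 : ∀ x, t a (ρ xF) (ρ (κ x)) = 0 := fun x => congrFun (hκ1 x) 1
  have k3 : ∀ x, t a (ρ xT) (ρ (κ x)) = 0 := fun x => by rw [hT', k1, neg_zero]
  have dec2 : ∀ x, ∃ p q r s : K, ρ x = p • ρ xT + q • ρ (κ ![1, 0]) + r • ρ (κ ![0, 1]) +
      s • ρ xF := by
    intro x
    obtain ⟨y, hy⟩ := hκ2 (x - t b c (ρ x) • xF - t a (ρ xF) (ρ x) • xT)
      (by ext i; fin_cases i <;> simp [hF, lT, FT, h.z23])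
    refine ⟨t a (ρ xF) (ρ x), y 0, y 1, t b c (ρ x), ?_⟩
    have e : y = y 0 • ![1, 0] + y 1 • ![0, 1] := by ext i; fin_cases i <;> simp
    have e' : ρ (κ y) = y 0 • ρ (κ ![1, 0]) + y 1 • ρ (κ ![0, 1]) := by
      conv_lhs => rw [e]
      simp only [map_add, map_smul]
    rw [add_assoc (_ • ρ xT), ← e', hy]
    simp only [map_sub, map_smul]
    abel
  have hδ : t a (ρ (κ ![1, 0])) (ρ (κ ![0, 1])) ≠ 0 := by
    intro hδ
    have h3 : κ ![1, 0] = 0 := nd.1 _ fun y => by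
      obtain ⟨p, q, r, s, e⟩ := dec2 y
      simp [e, hδ, h.z23, h.s23 (ρ xT) (ρ (κ ![1, 0])), h.s23 (ρ xF) (ρ (κ ![1, 0])), k2, k3]
    simpa using congrFun (hκ (h3.trans (map_zero κ).symm)) 0
  have dec3 : ∀ v, ∃ x0 x1 x2 p q r s : K, v = x0 • a + x1 • b + x2 • c + p • ρ xT +
      q • ρ (κ ![1, 0]) + r • ρ (κ ![0, 1]) + s • ρ xF := by
    intro v
    obtain ⟨x, hx⟩ := dec v
    obtain ⟨p, q, r, s, e⟩ := dec2 x
    refine ⟨φ v 0, φ v 1, φ v 2, p, q, r, s, hx.trans ?_⟩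
    rw [e]
    abel
  have k1E := k1 ![1, 0]
  have k1G := k1 ![0, 1]
  have k2E := k2 ![1, 0]
  have k2G := k2 ![0, 1]
  have k3E := k3 ![1, 0]
  have k3G := k3 ![0, 1]
  have TF := hT' xF
  rw [hF] at TF
  generalize ρ xT = T at *
  generalize ρ xF = F at *
  generalize ρ (κ ![1, 0]) = E at *
  generalize ρ (κ ![0, 1]) = G at *
  by_cases hD : t b T E * t c T G - t b T G * t c T E = 0
  · obtain ⟨y, z, hyz, m1, m2⟩ : ∃ y z : K, (y ≠ 0 ∨ z ≠ 0) ∧ y * t b T E + z * t c T E = 0 ∧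
        y * t b T G + z * t c T G = 0 := by
      obtain ⟨v, hv, hv'⟩ := exists_vecMul_eq_zero_iff.mpr
        (show det !![t b T E, t b T G; t c T E, t c T G] = 0 by rw [det_fin_two_of]; exact hD)
      refine ⟨v 0, v 1, ?_, ?_, ?_⟩
      · by_contra h3
        push Not at h3
        exact hv (by ext i; fin_cases i; exacts [h3.1, h3.2])
      · simpa [vecMul, dotProduct, Fin.sum_univ_two] using congrFun hv' 0
      · simpa [vecMul, dotProduct, Fin.sum_univ_two] using congrFun hv' 1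
    obtain ⟨η, hη⟩ : ∃ η : K, η * t a E G + y * t b E G + z * t c E G = 0 :=
      ⟨-(y * t b E G + z * t c E G) / t a E G, by field_simp; ring⟩
    have bca : t b c a = 0 := by rw [h.s23 a c, h.s12 a b, h1]; simp
    have bcb : t b c b = 0 := by rw [h.s23 b c, h.z12]; simp
    have z0 : ∀ v w, t b c v = 0 → t b c w = 0 → t (η • a + y • b + z • c) v w = 0 := by
      intro v w hv hw
      obtain ⟨x0, x1, x2, p, q, r, s, rfl⟩ := dec3 v
      obtain ⟨x0', x1', x2', p', q', r', s', rfl⟩ := dec3 w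
      simp [bca, bcb, h.z23, lT, k1E, k1G, hF] at hv hw
      subst hv hw
      simp only [zero_smul, add_zero, map_add, map_smul, LinearMap.add_apply, LinearMap.smul_apply,
        smul_eq_mul, h.s12 a b, h.s12 a c, h.s12 b c, h.s23 a b, h.s23 a c, h.s23 a T, h.s23 a E,
        h.s23 a G, h.s23 b c, h.s23 b T, h.s23 b E, h.s23 b G, h.s23 c T, h.s23 c E, h.s23 c G,
        h.s23 T E, h.s23 T G, h.s23 E G, h.z12, h.z23, h1, h2, lT, k1E, k1G, k3E, k3G]
      linear_combination (p * q' - q * p') * m1 + (p * r' - r * p') * m2 + (q * r' - r * q') * hη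
    obtain ⟨π, p1, p2⟩ := exists_inj 4 (LinearMap.pi ![t b c, t (η • a + y • b + z • c) F])
      (by omega)
    refine N1 _ (nz η y z (Or.inl hyz)) (le_finrank_of_inj _ π p1 fun x => ?_)
    rw [LinearMap.mem_ker]
    ext w
    have q1 : t b c (π x) = 0 := congrFun (p2 x) 0
    have q2 : t (η • a + y • b + z • c) F (π x) = 0 := congrFun (p2 x) 1
    have q3 := z0 (π x) (w - t b c w • F) q1 (by simp [hF])
    rw [map_sub, map_smul, h.s23 F (π x), q2] at q3
    simpa using q3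
  · obtain ⟨l, hl⟩ : ∃ l : K, l ^ 3 * t a E G = t b T E * t c T G - t b T G * t c T E := by
      obtain ⟨s, r, hsr, e⟩ := bin3 hK (t a E G) 0 0 (-(t b T E * t c T G - t b T G * t c T E))
      have hr : r ≠ 0 := by
        rintro rfl
        simp [hδ] at e hsr
        exact hsr e
      exact ⟨s / r, by field_simp; linear_combination e⟩
    have hl0 : l ≠ 0 := by
      rintro rfl
      apply hD
      rw [← hl]; ring
    set D := t b T E * t c T G - t b T G * t c T E with hDD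
    apply hcon
    refine sol_of_frame hK hV h hα hβ hγ (l • a) b c (l⁻¹ • T)
      ((l / D) • (t c T G • E - t c T E • G)) ((l / D) • (t b T E • G - t b T G • E)) F
      (fun v => ?_) ?_ ?_ ?_ ?_ ?_ ?_ ?_ ?_ ?_ ?_ ?_ ?_ ?_ ?_ ?_ ?_
    · obtain ⟨x0, x1, x2, p, q, r, s, rfl⟩ := dec3 v
      refine ⟨![x0 / l, x1, x2, p * l, (q * t b T E + r * t b T G) / l,
        (q * t c T E + r * t c T G) / l, s], ?_⟩
      simp only [Fintype.linearCombination_apply, Fin.sum_univ_seven]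
      show (x0 / l) • l • a + x1 • b + x2 • c + (p * l) • l⁻¹ • T +
        ((q * t b T E + r * t b T G) / l) • (l / D) • (t c T G • E - t c T E • G) +
        ((q * t c T E + r * t c T G) / l) • (l / D) • (t b T E • G - t b T G • E) + s • F = _
      match_scalars <;> field_simp <;> ring
    all_goals simp [h1, h2, TF, k1E, k1G, k3E, k3G, lT, hF, h.s23 F E, h.s23 F G, k2E, k2G, h.z23,
      h.s23 E G, hl0]
    all_goals first
      | exact Or.inr (by ring1)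
      | (field_simp; first | ring1 | linear_combination D * hl)

end Pool.Agent.Lib.MP_97eeef_nt

end partG2c

section partBr

open Module

namespace Pool.Agent.Lib.MP_97eeef_nt

variable {K : Type} [Field K] {V : Type*} [AddCommGroup V] [Module K V]

omit [AddCommGroup V] in
theorem upd2 (x y z : V) : Function.update ![x, y] 1 z = ![x, z] := by
  ext i; fin_cases i <;> simp

/-- the bilinear map of an alternating two-form -/
def bil (β : V [⋀^Fin 2]→ₗ[K] K) : V →ₗ[K] V →ₗ[K] K :=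
  LinearMap.mk₂ K (fun x y => β ![x, y]) (fun x x' y => β.map_vecCons_add ![y] x x')
    (fun c x y => β.map_vecCons_smul ![y] c x)
    (fun x y y' => by simpa only [upd2] using β.map_update_add ![x, y] 1 y y')
    (fun c x y => by simpa only [upd2] using β.map_update_smul ![x, y] 1 c y)

theorem bil_apply (β : V [⋀^Fin 2]→ₗ[K] K) (x y : V) : bil β x y = β ![x, y] := rfl

theorem bil_alt (β : V [⋀^Fin 2]→ₗ[K] K) : Alt (bil β) := fun x =>
  β.map_eq_zero_of_eq ![x, x] (i := 0) (j := 1) rfl (by decide)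

/-- the trilinear map of an alternating three-form -/
def tri (η : V [⋀^Fin 3]→ₗ[K] K) : V →ₗ[K] V →ₗ[K] V →ₗ[K] K where
  toFun x := bil (η.curryLeft x)
  map_add' x x' := by ext y z; simp [bil_apply]
  map_smul' c x := by ext y z; simp [bil_apply]

theorem tri_apply (η : V [⋀^Fin 3]→ₗ[K] K) (x y z : V) : tri η x y z = η ![x, y, z] := rfl

theorem tri_alt (η : V [⋀^Fin 3]→ₗ[K] K) : Alt3 (tri η) :=
  ⟨fun v => bil_alt (η.curryLeft v),
    fun x z => η.map_eq_zero_of_eq ![x, x, z] (i := 0) (j := 1) rfl (by decide)⟩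

theorem vanish2 {k : ℕ} (β : V [⋀^Fin 2]→ₗ[K] K) (w : Fin k → V)
    (h : ∀ i j, bil β (w i) (w j) = 0) (v : Fin 2 → V)
    (hv : ∀ j, v j ∈ Submodule.span K (Set.range w)) : β v = 0 := by
  have h1 := span_zero w w h (v 0) (hv 0) (v 1) (hv 1)
  have h2 : v = ![v 0, v 1] := by ext i; fin_cases i <;> rfl
  rw [h2]
  exact h1

theorem vanish3 (η : V [⋀^Fin 3]→ₗ[K] K) {a b c : V} (h : tri η a b c = 0) (v : Fin 3 → V)
    (hv : ∀ j, v j ∈ Submodule.span K (Set.range ![a, b, c])) : η v = 0 := by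
  have h2 : v = ![v 0, v 1, v 2] := by ext i; fin_cases i <;> rfl
  rw [h2, ← tri_apply]
  obtain ⟨x, hx⟩ := (Submodule.mem_span_range_iff_exists_fun K).mp (hv 0)
  obtain ⟨y, hy⟩ := (Submodule.mem_span_range_iff_exists_fun K).mp (hv 1)
  obtain ⟨z, hz⟩ := (Submodule.mem_span_range_iff_exists_fun K).mp (hv 2)
  have g := tri_alt η
  rw [← hx, ← hy, ← hz]
  simp only [Fin.sum_univ_three, Matrix.cons_val_zero, Matrix.cons_val_one, Matrix.cons_val_two,
    Matrix.head_cons, Matrix.tail_cons, map_add, map_smul, LinearMap.add_apply,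
    LinearMap.smul_apply, smul_eq_mul, g.s12 a b, g.s12 a c, g.s12 b c, g.s23 a b, g.s23 a c,
    g.s23 b c, g.z12, g.z23, h, neg_zero, mul_zero, add_zero]

theorem pairs2 {ω : V →ₗ[K] V →ₗ[K] K} (hω : Alt ω) {a b : V} (h : ω a b = 0) (i j : Fin 2) :
    ω (![a, b] i) (![a, b] j) = 0 := by
  fin_cases i <;> fin_cases j <;> simp [hω a, hω b, hω.swap a b, h]

theorem pairs3 {ω : V →ₗ[K] V →ₗ[K] K} (hω : Alt ω) {a b c : V} (h1 : ω a b = 0) (h2 : ω a c = 0)
    (h3 : ω b c = 0) (i j : Fin 3) : ω (![a, b, c] i) (![a, b, c] j) = 0 := by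
  fin_cases i <;> fin_cases j <;>
    simp [hω a, hω b, hω c, hω.swap a b, hω.swap a c, hω.swap b c, h1, h2, h3]

theorem schema [CharZero K] (hK : R4 K) (k n a b c : ℕ)
    (h : (k, n, a, b, c) = (2, 6, 6, 0, 0) ∨ (k, n, a, b, c) = (3, 6, 1, 4, 0) ∨
      (k, n, a, b, c) = (2, 7, 3, 0, 1) ∨ (k, n, a, b, c) = (3, 7, 3, 1, 0) ∨
      (k, n, a, b, c) = (4, 9, 3, 0, 0))
    (ω : Fin a → (Fin n → K) [⋀^Fin 2]→ₗ[K] K) (η : Fin b → (Fin n → K) [⋀^Fin 3]→ₗ[K] K)
    (θ : Fin c → (Fin n → K) [⋀^Fin 3]→ₗ[K] K) :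
    ∃ W : Submodule K (Fin n → K), finrank K W = k ∧
      (∀ (i : Fin a) (v : Fin 2 → Fin n → K), (∀ j, v j ∈ W) → ω i v = 0) ∧
      (∀ (i : Fin b) (v : Fin 3 → Fin n → K), (∀ j, v j ∈ W) → η i v = 0) ∧
      (∀ (i : Fin c) (v : Fin 3 → Fin n → K), v 0 ∈ W → v 1 ∈ W → θ i v = 0) := by
  simp only [Prod.mk.injEq] at h
  rcases h with ⟨rfl, rfl, rfl, rfl, rfl⟩ | ⟨rfl, rfl, rfl, rfl, rfl⟩ | ⟨rfl, rfl, rfl, rfl, rfl⟩ |
    ⟨rfl, rfl, rfl, rfl, rfl⟩ | ⟨rfl, rfl, rfl, rfl, rfl⟩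
  · obtain ⟨p, q, h1, h2⟩ := genus8 hK (by simp) (fun i => bil (ω i)) (fun i => bil_alt _)
    exact ⟨_, by simpa using finrank_span_eq_card h1.li,
      fun i => vanish2 _ _ (pairs2 (bil_alt _) (h2 i)), fun i => i.elim0, fun i => i.elim0⟩
  · obtain ⟨p, q, r, h1, h2, h3, h4, h5⟩ := genus9 hK (by simp) (bil_alt (ω 0))
      (fun i => tri (η i)) (fun i => tri_alt _)
    refine ⟨_, by simpa using finrank_span_eq_card h1.li, fun i => ?_, fun i => vanish3 _ (h5 i),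
      fun i => i.elim0⟩
    fin_cases i
    exact vanish2 _ _ (pairs3 (bil_alt _) h2 h3 h4)
  · obtain ⟨p, q, h1, h2, h3, h4, h5⟩ := genus10 hK (by simp) (tri_alt (θ 0)) (bil_alt (ω 0))
      (bil_alt (ω 1)) (bil_alt (ω 2))
    refine ⟨_, by simpa using finrank_span_eq_card h1.li, fun i => ?_, fun i => i.elim0,
      fun i v h6 h7 => ?_⟩
    · fin_cases i
      · exact vanish2 _ _ (pairs2 (bil_alt _) h3)
      · exact vanish2 _ _ (pairs2 (bil_alt _) h4)
      · exact vanish2 _ _ (pairs2 (bil_alt _) h5)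
    · fin_cases i
      have h8 : v = ![v 0, v 1, v 2] := by ext i; fin_cases i <;> rfl
      rw [h8]
      exact span_zero (B := (tri (θ 0)).compr₂ (LinearMap.applyₗ (v 2))) _ _
        (pairs2 (fun x => (tri_alt (θ 0)).z12 x _) (h2 _)) _ h6 _ h7
  · obtain ⟨p, q, r, h1, h2, h3, h4, h5⟩ := genus12 hK (by simp) (bil_alt (ω 0)) (bil_alt (ω 1))
      (bil_alt (ω 2)) (tri (η 0)) (tri_alt _).1
    refine ⟨_, by simpa using finrank_span_eq_card h1.li, fun i => ?_, fun i => ?_,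
      fun i => i.elim0⟩
    · fin_cases i
      · exact vanish2 _ _ (pairs3 (bil_alt _) h2.1 h2.2.1 h2.2.2)
      · exact vanish2 _ _ (pairs3 (bil_alt _) h3.1 h3.2.1 h3.2.2)
      · exact vanish2 _ _ (pairs3 (bil_alt _) h4.1 h4.2.1 h4.2.2)
    · fin_cases i
      exact vanish3 _ h5
  · obtain ⟨w, h1, h2⟩ := genus20 hK (by simp) (bil_alt (ω 0)) (bil_alt (ω 1)) (bil_alt (ω 2))
    refine ⟨_, by simpa using finrank_span_eq_card h1, fun i => ?_, fun i => i.elim0,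
      fun i => i.elim0⟩
    fin_cases i
    · exact vanish2 _ _ fun i j => (h2 i j).1
    · exact vanish2 _ _ fun i j => (h2 i j).2.1
    · exact vanish2 _ _ fun i j => (h2 i j).2.2

end Pool.Agent.Lib.MP_97eeef_nt

end partBr
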