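import Pool.Agent.Lib.MP_97eeef_nt.Linear

section partLG1

open Polynomial Module Matrix

namespace Pool.Agent.Lib.MP_97eeef_nt

/-- coefficients of a linear form in the Pluecker coordinates of a `3 × 6` matrix -/
structure Y (R : Type) where
  a : R
  B : Matrix (Fin 3) (Fin 3) R
  C : Matrix (Fin 3) (Fin 3) R
  b : R

section ring

variable {R : Type} [CommRing R]

/-- the value of the linear form -/
def ev (y : Y R) (X Z : Matrix (Fin 3) (Fin 3) R) : R :=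
  y.a * X.det + trace (y.B * (adjugate X * Z)) + trace (y.C * (adjugate Z * X)) + y.b * Z.det

/-- polarised adjugate -/
def crs (M N : Matrix (Fin 3) (Fin 3) R) : Matrix (Fin 3) (Fin 3) R :=
  adjugate (M + N) - adjugate M - adjugate N

/-- translation -/
def trl (D : Matrix (Fin 3) (Fin 3) R) (y : Y R) : Y R :=
  ⟨y.a + trace (y.B * D) + trace (y.C * adjugate D) + y.b * D.det,
    y.B + crs D y.C + y.b • adjugate D, y.C + y.b • D, y.b⟩

/-- swap -/
def sw (y : Y R) : Y R := ⟨y.b, y.C, y.B, y.a⟩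

/-- change of basis -/
def gl (g h : Matrix (Fin 3) (Fin 3) R) (y : Y R) : Y R :=
  ⟨y.a * g.det, h * y.B * adjugate g, g * y.C * adjugate h, y.b * h.det⟩

/-- swap of the third coordinates -/
def ps (y : Y R) : Y R :=
  ⟨-y.B 2 2, !![-y.C 1 1, y.C 0 1, y.B 0 2; y.C 1 0, -y.C 0 0, y.B 1 2; y.B 2 0, y.B 2 1, y.a],
    !![y.B 1 1, -y.B 0 1, y.C 0 2; -y.B 1 0, y.B 0 0, y.C 1 2; y.C 2 0, y.C 2 1, -y.b], y.C 2 2⟩

/-- linear combination -/
def cmb (s t : R) (y z : Y R) : Y R :=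
  ⟨s * y.a + t * z.a, s • y.B + t • z.B, s • y.C + t • z.C, s * y.b + t * z.b⟩

/-- the quartic invariant -/
def qq (y : Y R) : R :=
  (y.a * y.b - trace (y.B * y.C)) ^ 2 + 4 * y.a * y.C.det + 4 * y.b * y.B.det
    - 4 * trace (adjugate y.B * adjugate y.C)

theorem ev_trl (y : Y R) (X Z D : Matrix (Fin 3) (Fin 3) R) :
    ev y X (Z + X * D) = ev (trl D y) X Z := by
  simp only [ev, trl, crs, det_fin_three, adjugate_fin_three, trace_fin_three, Matrix.mul_apply,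
    Fin.sum_univ_three, Matrix.add_apply, Matrix.sub_apply, Matrix.smul_apply, smul_eq_mul, of_apply, cons_val',
    cons_val_zero, cons_val_one, cons_val_two, cons_val_fin_one, head_cons, tail_cons,
    head_fin_const, empty_val']
  ring

theorem ev_sw (y : Y R) (X Z : Matrix (Fin 3) (Fin 3) R) : ev y Z X = ev (sw y) X Z := by
  simp only [ev, sw]; ring

theorem ev_gl (y : Y R) (X Z g h : Matrix (Fin 3) (Fin 3) R) :
    ev y (X * g) (Z * h) = ev (gl g h y) X Z := by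
  simp only [ev, gl, det_mul, adjugate_mul_distrib]
  have h1 : trace (y.B * (adjugate g * adjugate X * (Z * h))) =
      trace (h * y.B * adjugate g * (adjugate X * Z)) := by
    rw [show y.B * (adjugate g * adjugate X * (Z * h)) =
      (y.B * adjugate g * (adjugate X * Z)) * h by simp only [Matrix.mul_assoc], trace_mul_comm]
    simp only [Matrix.mul_assoc]
  have h2 : trace (y.C * (adjugate h * adjugate Z * (X * g))) =
      trace (g * y.C * adjugate h * (adjugate Z * X)) := by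
    rw [show y.C * (adjugate h * adjugate Z * (X * g)) =
      (y.C * adjugate h * (adjugate Z * X)) * g by simp only [Matrix.mul_assoc], trace_mul_comm]
    simp only [Matrix.mul_assoc]
  rw [h1, h2]; ring

theorem ev_ps (y : Y R) (X Z : Matrix (Fin 3) (Fin 3) R) :
    ev y (!![X 0 0, X 0 1, Z 0 2; X 1 0, X 1 1, Z 1 2; X 2 0, X 2 1, Z 2 2])
      (!![Z 0 0, Z 0 1, -X 0 2; Z 1 0, Z 1 1, -X 1 2; Z 2 0, Z 2 1, -X 2 2]) = ev (ps y) X Z := by
  simp only [ev, ps, det_fin_three, adjugate_fin_three, trace_fin_three, Matrix.mul_apply,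
    Fin.sum_univ_three, of_apply, cons_val',
    cons_val_zero, cons_val_one, cons_val_two, cons_val_fin_one, head_cons, tail_cons,
    head_fin_const, empty_val']
  ring

theorem ev_cmb (s t : R) (y z : Y R) (X Z : Matrix (Fin 3) (Fin 3) R) :
    ev (cmb s t y z) X Z = s * ev y X Z + t * ev z X Z := by
  simp only [ev, cmb, Matrix.add_mul, Matrix.smul_mul, trace_add, trace_smul, smul_eq_mul]
  ring

theorem qq_sw (y : Y R) : qq (sw y) = qq y := by
  simp only [qq, sw]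
  rw [trace_mul_comm y.C, trace_mul_comm (adjugate y.C)]
  ring

set_option maxHeartbeats 4000000 in
theorem qq_trl (y : Y R) (D : Matrix (Fin 3) (Fin 3) R) : qq (trl D y) = qq y := by
  simp only [qq, trl, crs, det_fin_three, adjugate_fin_three, trace_fin_three, Matrix.mul_apply,
    Fin.sum_univ_three, Matrix.add_apply, Matrix.sub_apply, Matrix.smul_apply, smul_eq_mul, of_apply, cons_val',
    cons_val_zero, cons_val_one, cons_val_two, cons_val_fin_one, head_cons, tail_cons,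
    head_fin_const, empty_val']
  ring

end ring

end Pool.Agent.Lib.MP_97eeef_nt

end partLG1

section partLG2

open Polynomial Module Matrix

namespace Pool.Agent.Lib.MP_97eeef_nt

variable {K : Type} [Field K]

/-- the rows of `(X | Z)` span a Lagrangian subspace -/
def Lag (X Z : Matrix (Fin 3) (Fin 3) K) : Prop :=
  X * Zᵀ = Z * Xᵀ ∧ ∀ c : Fin 3 → K, c ᵥ* X = 0 → c ᵥ* Z = 0 → c = 0

/-- a common Lagrangian zero -/
def Good (y0 y1 y2 y3 : Y K) : Prop :=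
  ∃ X Z, Lag X Z ∧ ev y0 X Z = 0 ∧ ev y1 X Z = 0 ∧ ev y2 X Z = 0 ∧ ev y3 X Z = 0

theorem Good.of_trl {D : Matrix (Fin 3) (Fin 3) K} (hD : Dᵀ = D) {y0 y1 y2 y3 : Y K}
    (h : Good (trl D y0) (trl D y1) (trl D y2) (trl D y3)) : Good y0 y1 y2 y3 := by
  obtain ⟨X, Z, ⟨l1, l2⟩, h⟩ := h
  refine ⟨X, Z + X * D, ⟨?_, fun c h1 h2 => l2 c h1 ?_⟩, by simpa only [ev_trl] using h⟩
  · rw [transpose_add, transpose_mul, hD, Matrix.mul_add, Matrix.add_mul, l1, Matrix.mul_assoc]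
  · rwa [vecMul_add, ← vecMul_vecMul, h1, zero_vecMul, add_zero] at h2

theorem Good.of_sw {y0 y1 y2 y3 : Y K}
    (h : Good (sw y0) (sw y1) (sw y2) (sw y3)) : Good y0 y1 y2 y3 := by
  obtain ⟨X, Z, ⟨l1, l2⟩, h⟩ := h
  exact ⟨Z, X, ⟨l1.symm, fun c h1 h2 => l2 c h2 h1⟩, by simpa only [ev_sw _ X Z] using h⟩

theorem Good.of_gl {g h : Matrix (Fin 3) (Fin 3) K} {d : K} (hd : d ≠ 0) (h1 : g * hᵀ = d • 1)
    (h2 : h * gᵀ = d • 1) {y0 y1 y2 y3 : Y K}
    (H : Good (gl g h y0) (gl g h y1) (gl g h y2) (gl g h y3)) : Good y0 y1 y2 y3 := by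
  obtain ⟨X, Z, ⟨l1, l2⟩, H⟩ := H
  refine ⟨X * g, Z * h, ⟨?_, fun c a1 a2 => l2 c ?_ ?_⟩, by simpa only [ev_gl] using H⟩
  · rw [transpose_mul, transpose_mul, Matrix.mul_assoc, Matrix.mul_assoc, ← Matrix.mul_assoc g,
      ← Matrix.mul_assoc h, h1, h2]
    simp [l1]
  · have := congrArg (fun v => v ᵥ* hᵀ) a1
    simp only [vecMul_vecMul, Matrix.mul_assoc, h1, zero_vecMul] at this
    simpa [vecMul_smul, hd] using this
  · have := congrArg (fun v => v ᵥ* gᵀ) a2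
    simp only [vecMul_vecMul, Matrix.mul_assoc, h2, zero_vecMul] at this
    simpa [vecMul_smul, hd] using this

theorem Good.of_ps {y0 y1 y2 y3 : Y K}
    (h : Good (ps y0) (ps y1) (ps y2) (ps y3)) : Good y0 y1 y2 y3 := by
  obtain ⟨X, Z, ⟨l1, l2⟩, h⟩ := h
  refine ⟨_, _, ⟨?_, fun c h1 h2 => l2 c ?_ ?_⟩, by simpa only [← ev_ps] using h⟩
  · ext i j
    have := congrFun (congrFun l1 i) j
    fin_cases i <;> fin_cases j <;>
      simp [Matrix.mul_apply, Fin.sum_univ_three] at this ⊢ <;> linear_combination this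
  · have a0 := congrFun h1 0
    have a1 := congrFun h1 1
    have a2 := congrFun h2 2
    ext j
    fin_cases j <;> simp [vecMul, dotProduct, Fin.sum_univ_three] at a0 a1 a2 ⊢
    · exact a0
    · exact a1
    · linear_combination -a2
  · have a0 := congrFun h2 0
    have a1 := congrFun h2 1
    have a2 := congrFun h1 2
    ext j
    fin_cases j <;> simp [vecMul, dotProduct, Fin.sum_univ_three] at a0 a1 a2 ⊢
    · exact a0
    · exact a1
    · exact a2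

theorem two_conics (hK : R4 K) (P Q : Matrix (Fin 3) (Fin 3) K) [CharZero K] :
    ∃ u : Fin 3 → K, u ≠ 0 ∧ u ⬝ᵥ P *ᵥ u = 0 ∧ u ⬝ᵥ Q *ᵥ u = 0 := by
  obtain ⟨s, t, p, hst, hp, e⟩ := pencil hK (P + Pᵀ).mulVecLin (Q + Qᵀ).mulVecLin
    (by simp) (by simp) rfl
  obtain ⟨f, hf⟩ := exists_fun (K := K) hp
  obtain ⟨ρ, hρ, hρ'⟩ := exists_inj 2 (LinearMap.pi ![f]) (V := Fin 3 → K) (by simp)
  have r0 : ∀ x, f (ρ x) = 0 := fun x => congrFun (hρ' x) 0
  set R := s • P + t • Q with hR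
  have hRp : ∀ w, p ⬝ᵥ R *ᵥ w + w ⬝ᵥ R *ᵥ p = 0 := by
    intro w
    have := congrArg (fun v => w ⬝ᵥ v) e
    simp [hR, mulVec, vecMul, dotProduct, Fin.sum_univ_three] at this ⊢
    linear_combination this
  have quad : ∀ (M : Matrix (Fin 3) (Fin 3) K) (a b : K) (v w : Fin 3 → K),
      (a • v + b • w) ⬝ᵥ M *ᵥ (a • v + b • w) =
        v ⬝ᵥ M *ᵥ v * a ^ 2 + (v ⬝ᵥ M *ᵥ w + w ⬝ᵥ M *ᵥ v) * a * b + w ⬝ᵥ M *ᵥ w * b ^ 2 := by
    intro M a b v w
    simp [mulVec, dotProduct, Fin.sum_univ_three]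
    ring
  obtain ⟨a, b, hab, e1⟩ := bin2 hK (ρ ![1, 0] ⬝ᵥ R *ᵥ ρ ![1, 0])
    (ρ ![1, 0] ⬝ᵥ R *ᵥ ρ ![0, 1] + ρ ![0, 1] ⬝ᵥ R *ᵥ ρ ![1, 0]) (ρ ![0, 1] ⬝ᵥ R *ᵥ ρ ![0, 1])
  rw [← quad, ← map_smul, ← map_smul, ← map_add] at e1
  set z := ρ (a • ![1, 0] + b • ![0, 1]) with hz
  have hz0 : z ≠ 0 := by
    intro h
    have h1 := hρ (h.trans (map_zero ρ).symm)
    have h2 := congrFun h1 0
    have h3 := congrFun h1 1
    simp at h2 h3
    tauto
  have hfz : f z = 0 := r0 _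
  have key : ∀ M : Matrix (Fin 3) (Fin 3) K, ∃ u : Fin 3 → K, u ≠ 0 ∧ u ⬝ᵥ M *ᵥ u = 0 ∧
      s * (u ⬝ᵥ P *ᵥ u) + t * (u ⬝ᵥ Q *ᵥ u) = 0 := by
    intro M
    obtain ⟨c, d, hcd, e2⟩ := bin2 hK (p ⬝ᵥ M *ᵥ p) (p ⬝ᵥ M *ᵥ z + z ⬝ᵥ M *ᵥ p) (z ⬝ᵥ M *ᵥ z)
    rw [← quad] at e2
    refine ⟨c • p + d • z, fun h => ?_, e2, ?_⟩
    · have h1 := congrArg f h
      simp [hf, hfz] at h1
      simp [h1, hz0] at h hcd
      exact hcd h
    · have h1 := quad R c d p z
      have h2 : p ⬝ᵥ R *ᵥ p = 0 := by linear_combination hRp p / 2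
      rw [h2, hRp z, e1] at h1
      generalize c • p + d • z = u at *
      simp [hR, add_mulVec, smul_mulVec] at h1
      exact h1
  rcases hst with h | h
  · obtain ⟨u, h1, h2, h3⟩ := key Q
    exact ⟨u, h1, by simpa [h2, h] using h3, h2⟩
  · obtain ⟨u, h1, h2, h3⟩ := key P
    exact ⟨u, h1, h2, by simpa [h2, h] using h3⟩

theorem exists_frame {u : Fin 3 → K} (hu : u ≠ 0) : ∃ g1 g2 g3 : Fin 3 → K,
    g1 1 * g2 2 - g1 2 * g2 1 = u 0 ∧ g1 2 * g2 0 - g1 0 * g2 2 = u 1 ∧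
      g1 0 * g2 1 - g1 1 * g2 0 = u 2 ∧ u 0 * g3 0 + u 1 * g3 1 + u 2 * g3 2 = 1 := by
  obtain ⟨i, hi⟩ := Function.ne_iff.mp hu
  fin_cases i <;> simp at hi
  · refine ⟨![-u 1, u 0, 0], ![-u 2 / u 0, 0, 1], ![(u 0)⁻¹, 0, 0], ?_, ?_, ?_, ?_⟩ <;>
      simp <;> field_simp
  · refine ⟨![0, -u 2, u 1], ![1, -u 0 / u 1, 0], ![0, (u 1)⁻¹, 0], ?_, ?_, ?_, ?_⟩ <;>
      simp <;> field_simp
  · refine ⟨![u 2, 0, -u 0], ![0, 1, -u 1 / u 2], ![0, 0, (u 2)⁻¹], ?_, ?_, ?_, ?_⟩ <;>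
      simp <;> field_simp

theorem cone_point {u : Fin 3 → K} (hu : u ≠ 0) (t0 t1 : K) (ht : t1 ≠ 0) :
    ∃ X Z : Matrix (Fin 3) (Fin 3) K, Lag X Z ∧
      ∀ y : Y K, ev y X Z = y.a * t0 + t1 * (u ⬝ᵥ y.B *ᵥ u) := by
  obtain ⟨g1, g2, g3, e0, e1, e2, e3⟩ := exists_frame hu
  refine ⟨!![g1 0, g1 1, g1 2; g2 0, g2 1, g2 2; t0 * g3 0, t0 * g3 1, t0 * g3 2],
    !![0, 0, 0; 0, 0, 0; t1 * u 0, t1 * u 1, t1 * u 2], ⟨?_, fun c h1 h2 => ?_⟩, fun y => ?_⟩
  · ext i j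
    fin_cases i <;> fin_cases j <;>
      simp [Matrix.mul_apply, Fin.sum_univ_three, ← e0, ← e1, ← e2] <;> ring
  · have a0 := congrFun h1 0
    have a1 := congrFun h1 1
    have a2 := congrFun h1 2
    have b0 := congrFun h2 0
    have b1 := congrFun h2 1
    have b2 := congrFun h2 2
    simp only [vecMul, dotProduct, Fin.sum_univ_three, of_apply, cons_val',
      cons_val_zero, cons_val_one, cons_val_two, cons_val_fin_one, head_cons, tail_cons,
      head_fin_const, empty_val', Pi.zero_apply] at a0 a1 a2 b0 b1 b2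
    have c2 : c 2 * t1 = 0 := by
      linear_combination (g3 0 * b0 + g3 1 * b1 + g3 2 * b2) - c 2 * t1 * e3
    have c2' : c 2 = 0 := (mul_eq_zero.mp c2).resolve_right ht
    rw [c2'] at a0 a1 a2
    rw [← e0, ← e1, ← e2] at e3
    ext j
    fin_cases j
    · show c 0 = 0
      linear_combination (g2 1 * g3 2 - g2 2 * g3 1) * a0 + (g2 2 * g3 0 - g2 0 * g3 2) * a1
        + (g2 0 * g3 1 - g2 1 * g3 0) * a2 - c 0 * e3
    · show c 1 = 0
      linear_combination -(g1 1 * g3 2 - g1 2 * g3 1) * a0 - (g1 2 * g3 0 - g1 0 * g3 2) * a1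
        - (g1 0 * g3 1 - g1 1 * g3 0) * a2 - c 1 * e3
    · exact c2'
  · simp only [ev, det_fin_three, adjugate_fin_three, trace_fin_three, Matrix.mul_apply,
      Fin.sum_univ_three, of_apply, cons_val', mulVec, dotProduct,
      cons_val_zero, cons_val_one, cons_val_two, cons_val_fin_one, head_cons, tail_cons,
      head_fin_const, empty_val']
    rw [← e0, ← e1, ← e2] at e3 ⊢
    linear_combination y.a * t0 * e3

variable [CharZero K]

theorem good_tangent (hK : R4 K) {y0 : Y K} (ha : y0.a = 0) (hB : y0.B = 0) (y1 y2 y3 : Y K) :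
    Good y0 y1 y2 y3 := by
  have key : ∀ z1 z2 z3 : Y K, z1.a ≠ 0 → Good y0 z1 z2 z3 := by
    intro z1 z2 z3 h
    obtain ⟨u, hu, h1, h2⟩ := two_conics hK (z1.a • z2.B - z2.a • z1.B) (z1.a • z3.B - z3.a • z1.B)
    obtain ⟨X, Z, hL, e⟩ := cone_point hu (-(u ⬝ᵥ z1.B *ᵥ u)) z1.a h
    simp only [sub_mulVec, smul_mulVec, dotProduct_sub, dotProduct_smul, smul_eq_mul] at h1 h2
    refine ⟨X, Z, hL, ?_, ?_, ?_, ?_⟩ <;> rw [e]
    · simp [ha, hB]
    · ring
    · linear_combination h1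
    · linear_combination h2
  by_cases h1 : y1.a = 0
  · by_cases h2 : y2.a = 0
    · by_cases h3 : y3.a = 0
      · refine ⟨1, 0, ⟨by simp, fun c hc _ => by simpa using hc⟩, ?_, ?_, ?_, ?_⟩ <;>
          simp [ev, ha, h1, h2, h3]
      · obtain ⟨X, Z, hL, a0, a1, a2, a3⟩ := key y3 y1 y2 h3
        exact ⟨X, Z, hL, a0, a2, a3, a1⟩
    · obtain ⟨X, Z, hL, a0, a1, a2, a3⟩ := key y2 y1 y3 h2
      exact ⟨X, Z, hL, a0, a2, a1, a3⟩
  · exact key y1 y2 y3 h1

theorem good_C0 (hK : R4 K) {y0 : Y K} (hs : y0.Bᵀ = y0.B) (hC : y0.C = 0) (hb : y0.b ≠ 0)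
    (hq : y0.a ^ 2 * y0.b + 4 * y0.B.det = 0) (y1 y2 y3 : Y K) : Good y0 y1 y2 y3 := by
  by_cases ha : y0.a = 0
  · have hd : y0.B.det = 0 := by rw [ha] at hq; linear_combination hq / 4
    obtain ⟨u, hu, hBu⟩ := exists_mulVec_eq_zero_iff.mpr hd
    have huB : u ᵥ* y0.B = 0 := by rw [← hs, vecMul_transpose, hBu]
    obtain ⟨h, hh, h2⟩ : ∃ h : Matrix (Fin 3) (Fin 3) K, h.det ≠ 0 ∧ h 2 = u := by
      obtain ⟨i, hi⟩ := Function.ne_iff.mp hu
      fin_cases i <;> simp at hi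
      · exact ⟨of ![![0, 1, 0], ![0, 0, 1], u], by simpa [det_fin_three] using hi, rfl⟩
      · exact ⟨of ![![0, 0, 1], ![1, 0, 0], u], by simpa [det_fin_three] using hi, rfl⟩
      · exact ⟨of ![![1, 0, 0], ![0, 1, 0], u], by simpa [det_fin_three] using hi, rfl⟩
    refine Good.of_gl (g := (adjugate h)ᵀ) (h := h) hh ?_ ?_ (Good.of_ps (good_tangent hK ?_ ?_ ..))
    · rw [← transpose_mul, mul_adjugate]; simp
    · rw [transpose_transpose, mul_adjugate]
    all_goals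
      have e1 : adjugate (adjugate h)ᵀ = h.det • hᵀ := by
        rw [← adjugate_transpose, adjugate_adjugate _ (by simp)]
        simp
      have r1 : ∀ j, (h * y0.B * adjugate (adjugate h)ᵀ) 2 j = 0 := by
        intro j
        have : (h * y0.B) 2 = 0 := by rw [← huB, ← h2]; rfl
        simp [Matrix.mul_apply (M := h * y0.B), this]
      have r2 : ∀ i, (h * y0.B * adjugate (adjugate h)ᵀ) i 2 = 0 := by
        intro i
        have : ∀ k, (y0.B * hᵀ) k 2 = 0 := fun k => by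
          have := congrFun hBu k
          rw [← h2] at this
          exact this
        rw [e1, Matrix.mul_smul, Matrix.mul_assoc]
        simp [Matrix.mul_apply (M := h), this]
    · simp [ps, gl, r1]
    · ext i j
      fin_cases i <;> fin_cases j <;> simp [ps, gl, r1, r2, hC, ha]
  · have hdB : y0.B.det = -(y0.a ^ 2 * y0.b) / 4 := by linear_combination hq / 4
    refine Good.of_trl (D := (2 / (y0.a * y0.b)) • adjugate y0.B) ?_ (good_tangent hK ?_ ?_ ..)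
    · rw [transpose_smul, adjugate_transpose, hs]
    · simp only [trl, hC, Matrix.zero_mul, trace_zero, Matrix.mul_smul, mul_adjugate, det_smul,
        det_adjugate, trace_smul, trace_one, hdB]
      simp
      field_simp
      ring
    · simp only [trl, hC, crs, adjugate_smul, add_zero, sub_self, adjugate_zero]
      rw [adjugate_adjugate _ (by simp), hdB, smul_smul, smul_smul]
      simp only [Fintype.card_fin]
      have : y0.b * (2 / (y0.a * y0.b)) ^ (3 - 1) * (-(y0.a ^ 2 * y0.b) / 4) ^ (3 - 2) = -1 := by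
        norm_num
        field_simp
        norm_num
      rw [this]
      simp

theorem good_b (hK : R4 K) {y0 : Y K} (hs : y0.Bᵀ = y0.B) (hs' : y0.Cᵀ = y0.C) (hb : y0.b ≠ 0)
    (hq : qq y0 = 0) (y1 y2 y3 : Y K) : Good y0 y1 y2 y3 := by
  have hC : (trl (-(y0.b⁻¹ • y0.C)) y0).C = 0 := by
    simp [trl, smul_smul, hb]
  refine Good.of_trl (D := -(y0.b⁻¹ • y0.C)) (by simp [hs']) (good_C0 hK ?_ hC hb ?_ ..)
  · simp [trl, crs, adjugate_transpose, hs, hs']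
  · rw [← qq_trl _ (-(y0.b⁻¹ • y0.C)), qq, hC] at hq
    have hb' : (trl (-(y0.b⁻¹ • y0.C)) y0).b = y0.b := rfl
    simp only [Matrix.mul_zero, trace_zero, adjugate_zero, det_zero, hb'] at hq ⊢
    apply mul_left_cancel₀ hb
    linear_combination hq

theorem good_q (hK : R4 K) {y0 : Y K} (hs : y0.Bᵀ = y0.B) (hs' : y0.Cᵀ = y0.C)
    (hq : qq y0 = 0) (y1 y2 y3 : Y K) : Good y0 y1 y2 y3 := by
  by_cases h : ∃ D : Matrix (Fin 3) (Fin 3) K, Dᵀ = D ∧ (trl D (sw y0)).a ≠ 0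
  · obtain ⟨D, hD, h⟩ := h
    refine Good.of_sw (Good.of_trl hD (Good.of_sw (good_b hK ?_ ?_ h ?_ ..)))
    · simp [sw, trl, hs, hD]
    · simp [sw, trl, crs, adjugate_transpose, hs, hs', hD]
    · rw [qq_sw, qq_trl, qq_sw, hq]
  · push Not at h
    have key : ∀ D : Matrix (Fin 3) (Fin 3) K, Dᵀ = D →
        trace (y0.B * adjugate D) = 0 ∧ y0.a * D.det = 0 := by
      intro D hD
      have h0 := h ((0 : K) • D) (by simp)
      have h1 := h ((1 : K) • D) (by simp [hD])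
      have h2 := h ((-1 : K) • D) (by simp [hD])
      have h3 := h ((2 : K) • D) (by simp [hD])
      simp only [trl, sw, adjugate_smul, det_smul, Matrix.mul_smul, trace_smul, smul_eq_mul,
        Fintype.card_fin] at h0 h1 h2 h3
      constructor
      · linear_combination (h1 + h2) / 2 - h0
      · linear_combination (h3 - 3 * h1 + 3 * h0 - h2) / 6
    have s01 : y0.B 1 0 = y0.B 0 1 := congrFun (congrFun hs 0) 1
    have s02 : y0.B 2 0 = y0.B 0 2 := congrFun (congrFun hs 0) 2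
    have s12 : y0.B 2 1 = y0.B 1 2 := congrFun (congrFun hs 1) 2
    have sy : ∀ a b c d e f : K, (!![a, b, c; b, d, e; c, e, f])ᵀ = !![a, b, c; b, d, e; c, e, f] := by
      intro a b c d e f
      ext i j
      fin_cases i <;> fin_cases j <;> simp
    have b0 := (key _ (sy 0 0 0 1 0 1)).1
    have b1 := (key _ (sy 1 0 0 0 0 1)).1
    have b2 := (key _ (sy 1 0 0 1 0 0)).1
    have b3 := (key _ (sy 0 1 0 0 0 1)).1
    have b4 := (key _ (sy 0 0 1 1 0 0)).1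
    have b5 := (key _ (sy 1 0 0 0 1 0)).1
    simp [adjugate_fin_three, trace_fin_three, Matrix.mul_apply, Fin.sum_univ_three, s01, s02,
      s12] at b0 b1 b2 b3 b4 b5
    refine good_tangent hK (by simpa using (key 1 (by simp)).2) ?_ ..
    ext i j
    fin_cases i <;> fin_cases j <;> simp [s01, s02, s12, b0, b1, b2]
    all_goals first
      | linear_combination -(b3 + b2) / 2
      | linear_combination -(b4 + b1) / 2
      | linear_combination -(b5 + b0) / 2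

omit [CharZero K] in
theorem qq_poly (y z : Y K) : ∃ p : K[X], p.natDegree ≤ 4 ∧ ∀ s, p.eval s = qq (cmb s 1 y z) := by
  refine ⟨qq (cmb X 1 ⟨C y.a, y.B.map C, y.C.map C, C y.b⟩ ⟨C z.a, z.B.map C, z.C.map C, C z.b⟩),
    ?_, fun s => ?_⟩
  · simp only [qq, cmb, det_fin_three, adjugate_fin_three, trace_fin_three, Matrix.mul_apply,
      Fin.sum_univ_three, Matrix.add_apply, Matrix.smul_apply, smul_eq_mul, of_apply, cons_val',
      cons_val_zero, cons_val_one, cons_val_two, cons_val_fin_one, head_cons, tail_cons,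
      head_fin_const, empty_val', map_apply, one_mul]
    compute_degree
  · simp only [qq, cmb, det_fin_three, adjugate_fin_three, trace_fin_three, Matrix.mul_apply,
      Fin.sum_univ_three, Matrix.add_apply, Matrix.smul_apply, smul_eq_mul, of_apply, cons_val',
      cons_val_zero, cons_val_one, cons_val_two, cons_val_fin_one, head_cons, tail_cons,
      head_fin_const, empty_val', map_apply, one_mul, eval_add, eval_sub, eval_mul, eval_pow,
      eval_neg, eval_C, eval_X, eval_ofNat]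

omit [CharZero K] in
theorem qq_hom (y z : Y K) (l s t : K) : qq (cmb (l * s) (l * t) y z) = l ^ 4 * qq (cmb s t y z) := by
  have h1 : (l * s) • y.B + (l * t) • z.B = l • (s • y.B + t • z.B) := by module
  have h2 : (l * s) • y.C + (l * t) • z.C = l • (s • y.C + t • z.C) := by module
  simp only [qq, cmb, h1, h2, det_smul, adjugate_smul, Matrix.mul_smul, Matrix.smul_mul,
    trace_smul, smul_eq_mul, Fintype.card_fin]
  ring

theorem qq_root (hK : R4 K) (y z : Y K) : ∃ s t : K, (s ≠ 0 ∨ t ≠ 0) ∧ qq (cmb s t y z) = 0 := by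
  obtain ⟨p, hp, e⟩ := qq_poly y z
  obtain ⟨p', hp', e'⟩ := qq_poly z y
  have hc : ∀ s t : K, cmb s t z y = cmb t s y z := by
    intro s t
    simp only [cmb, add_comm]
  by_cases h : 1 ≤ p.natDegree
  · obtain ⟨s, hs⟩ := hK p h hp
    exact ⟨s, 1, Or.inr one_ne_zero, by rw [← e]; exact hs⟩
  by_cases h' : 1 ≤ p'.natDegree
  · obtain ⟨s, hs⟩ := hK p' h' hp'
    exact ⟨1, s, Or.inl one_ne_zero, by rw [← hc, ← e']; exact hs⟩
  obtain ⟨c, rfl⟩ := natDegree_eq_zero.mp (by omega : p.natDegree = 0)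
  obtain ⟨c', rfl⟩ := natDegree_eq_zero.mp (by omega : p'.natDegree = 0)
  simp only [eval_C, hc] at e e'
  have h1 := qq_hom y z 2 1 (1 / 2)
  rw [← e', show (2 : K) * (1 / 2) = 1 by norm_num, ← e] at h1
  have h2 := e 1
  rw [← e'] at h2
  refine ⟨0, 1, Or.inr one_ne_zero, ?_⟩
  rw [← e]
  linear_combination (16 * h2 - h1) / 15

theorem good_sym (hK : R4 K) {y0 y1 : Y K} (h0 : y0.Bᵀ = y0.B) (h0' : y0.Cᵀ = y0.C)
    (h1 : y1.Bᵀ = y1.B) (h1' : y1.Cᵀ = y1.C) (y2 y3 : Y K) : Good y0 y1 y2 y3 := by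
  obtain ⟨s, t, hst, hq⟩ := qq_root hK y0 y1
  have key := fun w => good_q hK (y0 := cmb s t y0 y1) (by simp [cmb, h0, h1])
    (by simp [cmb, h0', h1']) hq w y2 y3
  rcases hst with h | h
  · obtain ⟨X, Z, hL, a0, a1, a2⟩ := key y1
    rw [ev_cmb] at a0
    exact ⟨X, Z, hL, by simpa [a1, h] using a0, a1, a2⟩
  · obtain ⟨X, Z, hL, a0, a1, a2⟩ := key y0
    rw [ev_cmb] at a0
    exact ⟨X, Z, hL, a1, by simpa [a1, h] using a0, a2⟩

omit [CharZero K] in
theorem lag_symm {X Z : Matrix (Fin 3) (Fin 3) K} (h : X * Zᵀ = Z * Xᵀ) :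
    (adjugate X * Z)ᵀ = adjugate X * Z := by
  have a := congrFun (congrFun h 0) 1
  have b := congrFun (congrFun h 0) 2
  have c := congrFun (congrFun h 1) 2
  simp only [Matrix.mul_apply, Fin.sum_univ_three, transpose_apply] at a b c
  ext i j
  rw [transpose_apply, Matrix.mul_apply, Matrix.mul_apply]
  fin_cases i <;> fin_cases j <;>
    simp [adjugate_fin_three, Fin.sum_univ_three]
  all_goals first
    | linear_combination X 2 2 * a - X 1 2 * b + X 0 2 * c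
    | linear_combination -(X 2 2 * a - X 1 2 * b + X 0 2 * c)
    | linear_combination X 2 1 * a - X 1 1 * b + X 0 1 * c
    | linear_combination -(X 2 1 * a - X 1 1 * b + X 0 1 * c)
    | linear_combination X 2 0 * a - X 1 0 * b + X 0 0 * c
    | linear_combination -(X 2 0 * a - X 1 0 * b + X 0 0 * c)

theorem good_all (hK : R4 K) (y0 y1 y2 y3 : Y K) : Good y0 y1 y2 y3 := by
  let sy : Y K → Y K := fun y => ⟨y.a, (1 / 2 : K) • (y.B + y.Bᵀ), (1 / 2 : K) • (y.C + y.Cᵀ), y.b⟩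
  obtain ⟨X, Z, hL, a0, a1, a2⟩ := good_sym hK (y0 := sy y0) (y1 := sy y1) (by simp [sy, add_comm])
    (by simp [sy, add_comm]) (by simp [sy, add_comm]) (by simp [sy, add_comm]) y2 y3
  have key : ∀ y, ev (sy y) X Z = ev y X Z := by
    intro y
    have t : ∀ M P : Matrix (Fin 3) (Fin 3) K, Pᵀ = P →
        trace (((1 / 2 : K) • (M + Mᵀ)) * P) = trace (M * P) := by
      intro M P hP
      have : trace (Mᵀ * P) = trace (M * P) := by
        rw [← trace_transpose, transpose_mul, hP, transpose_transpose, trace_mul_comm]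
      rw [Matrix.smul_mul, Matrix.add_mul, trace_smul, trace_add, this, smul_eq_mul]
      ring
    simp only [ev, sy, t _ _ (lag_symm hL.1), t _ _ (lag_symm hL.1.symm)]
  exact ⟨X, Z, hL, by rw [← key, a0], by rw [← key, a1], a2⟩

end Pool.Agent.Lib.MP_97eeef_nt

end partLG2

section partLG3

open Polynomial Module Matrix

namespace Pool.Agent.Lib.MP_97eeef_nt

variable {K : Type} [Field K] {V : Type*} [AddCommGroup V] [Module K V]

/-- alternating trilinear forms -/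
def Alt3 (t : V →ₗ[K] V →ₗ[K] V →ₗ[K] K) : Prop := (∀ v, Alt (t v)) ∧ ∀ x z, t x x z = 0

theorem Alt3.z12 {t : V →ₗ[K] V →ₗ[K] V →ₗ[K] K} (h : Alt3 t) (x z : V) : t x x z = 0 := h.2 x z

theorem Alt3.z23 {t : V →ₗ[K] V →ₗ[K] V →ₗ[K] K} (h : Alt3 t) (x y : V) : t x y y = 0 := h.1 x y

theorem Alt3.s23 {t : V →ₗ[K] V →ₗ[K] V →ₗ[K] K} (h : Alt3 t) (y z x : V) :
    t x z y = - t x y z := (h.1 x).swap y z

theorem Alt3.s12 {t : V →ₗ[K] V →ₗ[K] V →ₗ[K] K} (h : Alt3 t) (x y z : V) :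
    t y x z = - t x y z := by
  have := h.2 (x + y) z
  simp only [map_add, LinearMap.add_apply, h.2 x, h.2 y] at this
  linear_combination this

/-- the coefficients of a trilinear form in a frame -/
def yOf (t : V →ₗ[K] V →ₗ[K] V →ₗ[K] K) (e0 e1 e2 f0 f1 f2 : V) : Y K :=
  ⟨t e0 e1 e2,
    !![t e1 e2 f0, -t e0 e2 f0, t e0 e1 f0; t e1 e2 f1, -t e0 e2 f1, t e0 e1 f1;
      t e1 e2 f2, -t e0 e2 f2, t e0 e1 f2],
    !![t e0 f1 f2, -t e0 f0 f2, t e0 f0 f1; t e1 f1 f2, -t e1 f0 f2, t e1 f0 f1;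
      t e2 f1 f2, -t e2 f0 f2, t e2 f0 f1],
    t f0 f1 f2⟩

theorem Alt3.expand {t : V →ₗ[K] V →ₗ[K] V →ₗ[K] K} (h : Alt3 t) (e0 e1 e2 f0 f1 f2 : V)
    (X Z : Matrix (Fin 3) (Fin 3) K) :
    t (X 0 0 • e0 + X 0 1 • e1 + X 0 2 • e2 + Z 0 0 • f0 + Z 0 1 • f1 + Z 0 2 • f2)
      (X 1 0 • e0 + X 1 1 • e1 + X 1 2 • e2 + Z 1 0 • f0 + Z 1 1 • f1 + Z 1 2 • f2)
      (X 2 0 • e0 + X 2 1 • e1 + X 2 2 • e2 + Z 2 0 • f0 + Z 2 1 • f1 + Z 2 2 • f2) =
      ev (yOf t e0 e1 e2 f0 f1 f2) X Z := by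
  simp only [map_add, map_smul, LinearMap.add_apply, LinearMap.smul_apply, smul_eq_mul,
    h.s12 e0 e1, h.s23 e0 e1, h.s12 e0 e2, h.s23 e0 e2, h.s12 e0 f0, h.s23 e0 f0, h.s12 e0 f1, 
    h.s23 e0 f1, h.s12 e0 f2, h.s23 e0 f2, h.s12 e1 e2, h.s23 e1 e2, h.s12 e1 f0, h.s23 e1 f0, 
    h.s12 e1 f1, h.s23 e1 f1, h.s12 e1 f2, h.s23 e1 f2, h.s12 e2 f0, h.s23 e2 f0, h.s12 e2 f1, 
    h.s23 e2 f1, h.s12 e2 f2, h.s23 e2 f2, h.s12 f0 f1, h.s23 f0 f1, h.s12 f0 f2, h.s23 f0 f2, 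
    h.s12 f1 f2, h.s23 f1 f2, h.z12, h.z23, neg_zero, neg_neg]
  simp only [ev, yOf, det_fin_three, adjugate_fin_three, trace_fin_three, Matrix.mul_apply,
    Fin.sum_univ_three, of_apply, cons_val',
    cons_val_zero, cons_val_one, cons_val_two, cons_val_fin_one, head_cons, tail_cons,
    head_fin_const, empty_val']
  ring

theorem hyperbolic_step [FiniteDimensional K V] {ω : V →ₗ[K] V →ₗ[K] K} (hω : Alt ω)
    (hn : ∀ v, v ≠ 0 → ∃ u, ω v u ≠ 0) (hV : 4 < finrank K V) (e0 f0 e1 f1 : V)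
    (c0 c1 : K) (a0 : ω e0 f0 = c0) (a1 : ω e1 f1 = c1) (b0 : c0 • e0 = e0) (b1 : c0 • f0 = f0)
    (b2 : c1 • e1 = e1) (b3 : c1 • f1 = f1)
    (h1 : ω e0 e1 = 0) (h2 : ω e0 f1 = 0) (h3 : ω f0 e1 = 0) (h4 : ω f0 f1 = 0) :
    ∃ e f, ω e f = 1 ∧ ω e0 e = 0 ∧ ω f0 e = 0 ∧ ω e1 e = 0 ∧ ω f1 e = 0 ∧
      ω e0 f = 0 ∧ ω f0 f = 0 ∧ ω e1 f = 0 ∧ ω f1 f = 0 := by
  obtain ⟨e, he, he'⟩ := exists_ne_ker (LinearMap.pi ![ω e0, ω f0, ω e1, ω f1]) hV
  have r0 : ω e0 e = 0 := congrFun he' 0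
  have r1 : ω f0 e = 0 := congrFun he' 1
  have r2 : ω e1 e = 0 := congrFun he' 2
  have r3 : ω f1 e = 0 := congrFun he' 3
  obtain ⟨u, hu⟩ := hn e he
  have d0 : c0 * ω e0 u = ω e0 u := by conv_rhs => rw [← b0, map_smul]; simp
  have d1 : c0 * ω f0 u = ω f0 u := by conv_rhs => rw [← b1, map_smul]; simp
  have d2 : c1 * ω e1 u = ω e1 u := by conv_rhs => rw [← b2, map_smul]; simp
  have d3 : c1 * ω f1 u = ω f1 u := by conv_rhs => rw [← b3, map_smul]; simp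
  refine ⟨e, (ω e u)⁻¹ • (u + ω f0 u • e0 - ω e0 u • f0 + ω f1 u • e1 - ω e1 u • f1),
    ?_, r0, r1, r2, r3, ?_, ?_, ?_, ?_⟩
  all_goals simp only [map_add, map_sub, map_smul, smul_eq_mul, hω.swap e0 e, hω.swap f0 e,
    hω.swap e1 e, hω.swap f1 e, r0, r1, r2, r3, hω e0, hω f0, hω e1, hω f1, hω.swap e0 f0,
    hω.swap e1 f1, hω.swap e0 e1, hω.swap e0 f1, hω.swap f0 e1, hω.swap f0 f1, a0, a1, h1, h2,
    h3, h4]
  · field_simp; ring
  · linear_combination -(ω e u)⁻¹ * d0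
  · linear_combination -(ω e u)⁻¹ * d1
  · linear_combination -(ω e u)⁻¹ * d2
  · linear_combination -(ω e u)⁻¹ * d3

theorem genus9_nondeg [CharZero K] (hK : R4 K) [FiniteDimensional K V] (hV : finrank K V = 6)
    {ω : V →ₗ[K] V →ₗ[K] K} (hω : Alt ω) (hn : ∀ v, v ≠ 0 → ∃ u, ω v u ≠ 0)
    (t : Fin 4 → V →ₗ[K] V →ₗ[K] V →ₗ[K] K) (ht : ∀ i, Alt3 (t i)) :
    ∃ a b c : V, Ind3 K a b c ∧ ω a b = 0 ∧ ω a c = 0 ∧ ω b c = 0 ∧ ∀ i, t i a b c = 0 := by
  obtain ⟨e0, f0, a0, -⟩ := hyperbolic_step hω hn (by omega) 0 0 0 0 0 0 (by simp) (by simp)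
    (by simp) (by simp) (by simp) (by simp) (by simp) (by simp) (by simp) (by simp)
  obtain ⟨e1, f1, a1, p1, p2, -, -, p3, p4, -⟩ := hyperbolic_step hω hn (by omega) e0 f0 0 0 1 0 a0
    (by simp) (by simp) (by simp) (by simp) (by simp) (by simp) (by simp) (by simp) (by simp)
  obtain ⟨e2, f2, a2, q1, q2, q3, q4, q5, q6, q7, q8⟩ := hyperbolic_step hω hn (by omega)
    e0 f0 e1 f1 1 1 a0 a1 (by simp) (by simp) (by simp) (by simp) p1 p3 p2 p4
  obtain ⟨X, Z, ⟨l1, l2⟩, h⟩ := good_all hK (yOf (t 0) e0 e1 e2 f0 f1 f2)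
    (yOf (t 1) e0 e1 e2 f0 f1 f2) (yOf (t 2) e0 e1 e2 f0 f1 f2) (yOf (t 3) e0 e1 e2 f0 f1 f2)
  have pair : ∀ x0 x1 x2 z0 z1 z2 x0' x1' x2' z0' z1' z2' : K,
      ω (x0 • e0 + x1 • e1 + x2 • e2 + z0 • f0 + z1 • f1 + z2 • f2)
        (x0' • e0 + x1' • e1 + x2' • e2 + z0' • f0 + z1' • f1 + z2' • f2) =
        (x0 * z0' + x1 * z1' + x2 * z2') - (z0 * x0' + z1 * x1' + z2 * x2') := by
    intros
    simp only [map_add, map_smul, LinearMap.add_apply, LinearMap.smul_apply, smul_eq_mul,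
      hω e0, hω e1, hω e2, hω f0, hω f1, hω f2, hω.swap e0 f0, hω.swap e1 f1, hω.swap e2 f2,
      hω.swap e0 e1, hω.swap f0 e1, hω.swap e0 f1, hω.swap f0 f1, hω.swap e0 e2, hω.swap f0 e2,
      hω.swap e1 e2, hω.swap f1 e2, hω.swap e0 f2, hω.swap f0 f2, hω.swap e1 f2, hω.swap f1 f2,
      a0, a1, a2, p1, p2, p3, p4, q1, q2, q3, q4, q5, q6, q7, q8]
    ring
  have l01 := congrFun (congrFun l1 0) 1
  have l02 := congrFun (congrFun l1 0) 2
  have l12 := congrFun (congrFun l1 1) 2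
  simp only [Matrix.mul_apply, Fin.sum_univ_three, transpose_apply] at l01 l02 l12
  refine ⟨X 0 0 • e0 + X 0 1 • e1 + X 0 2 • e2 + Z 0 0 • f0 + Z 0 1 • f1 + Z 0 2 • f2,
    X 1 0 • e0 + X 1 1 • e1 + X 1 2 • e2 + Z 1 0 • f0 + Z 1 1 • f1 + Z 1 2 • f2,
    X 2 0 • e0 + X 2 1 • e1 + X 2 2 • e2 + Z 2 0 • f0 + Z 2 1 • f1 + Z 2 2 • f2, ?_,
    by rw [pair, l01, sub_self], by rw [pair, l02, sub_self], by rw [pair, l12, sub_self],
    fun i => ?_⟩
  · intro r s u e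
    have e' : (r * X 0 0 + s * X 1 0 + u * X 2 0) • e0 + (r * X 0 1 + s * X 1 1 + u * X 2 1) • e1
        + (r * X 0 2 + s * X 1 2 + u * X 2 2) • e2 + (r * Z 0 0 + s * Z 1 0 + u * Z 2 0) • f0
        + (r * Z 0 1 + s * Z 1 1 + u * Z 2 1) • f1 + (r * Z 0 2 + s * Z 1 2 + u * Z 2 2) • f2
        = 0 := by
      rw [← e]; module
    have key : ∀ x0 x1 x2 z0 z1 z2 : K,
        ((r * X 0 0 + s * X 1 0 + u * X 2 0) * z0 + (r * X 0 1 + s * X 1 1 + u * X 2 1) * z1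
          + (r * X 0 2 + s * X 1 2 + u * X 2 2) * z2) - ((r * Z 0 0 + s * Z 1 0 + u * Z 2 0) * x0
          + (r * Z 0 1 + s * Z 1 1 + u * Z 2 1) * x1 + (r * Z 0 2 + s * Z 1 2 + u * Z 2 2) * x2)
          = 0 := by
      intros
      rw [← pair, e']
      simp
    have := l2 ![r, s, u] (by
      ext j
      fin_cases j <;> simp [vecMul, dotProduct, Fin.sum_univ_three]
      · linear_combination key 0 0 0 1 0 0
      · linear_combination key 0 0 0 0 1 0
      · linear_combination key 0 0 0 0 0 1) (by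
      ext j
      fin_cases j <;> simp [vecMul, dotProduct, Fin.sum_univ_three]
      · linear_combination -key 1 0 0 0 0 0
      · linear_combination -key 0 1 0 0 0 0
      · linear_combination -key 0 0 1 0 0 0)
    exact ⟨congrFun this 0, congrFun this 1, congrFun this 2⟩
  · rw [(ht i).expand]
    fin_cases i
    exacts [h.1, h.2.1, h.2.2.1, h.2.2.2]

theorem hyperplane_case {ι : Type*} (t : ι → V →ₗ[K] V →ₗ[K] V →ₗ[K] K) (ht : ∀ i, Alt3 (t i))
    (r0 r1 r2 r3 : V) (hr : Ind4 K r0 r1 r2 r3) (m0 m1 m2 m3 : K) (hm : m0 ≠ 0)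
    (h : ∀ i, m0 * t i r1 r2 r3 - m1 * t i r0 r2 r3 + m2 * t i r0 r1 r3 - m3 * t i r0 r1 r2 = 0) :
    Ind3 K (m0 • r1 - m1 • r0) (m0 • r2 - m2 • r0) (m0 • r3 - m3 • r0) ∧
      ∀ i, t i (m0 • r1 - m1 • r0) (m0 • r2 - m2 • r0) (m0 • r3 - m3 • r0) = 0 := by
  refine ⟨fun a b c e => ?_, fun i => ?_⟩
  · obtain ⟨-, h1, h2, h3⟩ := hr (-(a * m1 + b * m2 + c * m3)) (a * m0) (b * m0) (c * m0)
      (by rw [← e]; module)
    simpa [hm] using And.intro h1 (And.intro h2 h3)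
  · have g := ht i
    simp only [map_sub, map_smul, LinearMap.sub_apply, LinearMap.smul_apply, smul_eq_mul,
      g.s12 r0 r1, g.s23 r0 r2, g.s23 r0 r1, g.z12, neg_zero,
      neg_neg]
    linear_combination m0 ^ 2 * h i

theorem genus9_deg (hK : R4 K) [FiniteDimensional K V] (hV : finrank K V = 6)
    {ω : V →ₗ[K] V →ₗ[K] K} (hω : Alt ω) {e1 e2 : V} (he : Ind2 K e1 e2) (k1 : ∀ u, ω e1 u = 0)
    (k2 : ∀ u, ω e2 u = 0)
    (t : Fin 4 → V →ₗ[K] V →ₗ[K] V →ₗ[K] K) (ht : ∀ i, Alt3 (t i)) :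
    ∃ a b c : V, Ind3 K a b c ∧ ω a b = 0 ∧ ω a c = 0 ∧ ω b c = 0 ∧ ∀ i, t i a b c = 0 := by
  obtain ⟨f1, f2, a1, a2, a3, a4⟩ := exists_fun2 he
  obtain ⟨l, hl, hl'⟩ := exists_ne_ker (LinearMap.pi ![f1, f2]) (by omega)
  have l1 : f1 l = 0 := congrFun hl' 0
  have l2 : f2 l = 0 := congrFun hl' 1
  obtain ⟨f, hf⟩ := exists_fun (K := K) hl
  obtain ⟨ρ, hρ, hρ'⟩ := exists_inj 2 (LinearMap.pi ![f1, f2, f, ω l]) (by omega)
  have r1 : ∀ x, f1 (ρ x) = 0 := fun x => congrFun (hρ' x) 0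
  have r2 : ∀ x, f2 (ρ x) = 0 := fun x => congrFun (hρ' x) 1
  have r3 : ∀ x, f (ρ x) = 0 := fun x => congrFun (hρ' x) 2
  have r4 : ∀ x, ω l (ρ x) = 0 := fun x => congrFun (hρ' x) 3
  have hind : ∀ x, x ≠ 0 → Ind4 K e1 e2 l (ρ x) := by
    intro x hx a b c d h
    have b1 := congrArg f1 h
    have b2 := congrArg f2 h
    simp [a1, a2, a3, a4, l1, l2, r1, r2] at b1 b2
    subst b1 b2
    have b3 := congrArg f h
    simp [hf, r3] at b3
    subst b3
    refine ⟨rfl, rfl, rfl, ?_⟩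
    by_contra hd
    exact hx (hρ (by simpa [hd] using h))
  let c : Fin 4 → K := fun i => t i e1 e2 l
  by_cases hc : c = 0
  · refine ⟨e1, e2, l, fun a b c h => ?_, k1 _, k1 _, k2 _, fun i => congrFun hc i⟩
    obtain ⟨h1, h2, h3, -⟩ := hind (fun _ => 1) (fun h => by simpa using congrFun h 0) a b c 0
      (by simpa using h)
    exact ⟨h1, h2, h3⟩
  let N : Submodule K (Fin 4 → K) := Submodule.span K {c}
  have hN : finrank K ((Fin 4 → K) ⧸ N) = finrank K (Fin 3 → K) := by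
    have h2 := Submodule.finrank_quotient_add_finrank N
    rw [finrank_span_singleton hc] at h2
    simp at h2 ⊢
    omega
  let A : V → (Fin 3 → K) →ₗ[K] (Fin 4 → K) := fun m => Fintype.linearCombination K
    ![fun i => t i e1 e2 m, fun i => t i e1 l m, fun i => t i e2 l m]
  obtain ⟨s, u, z, hst, hz, e⟩ := pencil hK (N.mkQ ∘ₗ A (ρ ![1, 0])) (N.mkQ ∘ₗ A (ρ ![0, 1]))
    (by simp) (by simp) hN
  simp only [LinearMap.comp_apply] at e
  rw [← map_smul N.mkQ, ← map_smul N.mkQ, ← map_add, Submodule.mkQ_apply,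
    Submodule.Quotient.mk_eq_zero] at e
  obtain ⟨γ, hγ⟩ := Submodule.mem_span_singleton.mp e
  have hx : (s • ![1, 0] + u • ![0, 1] : Fin 2 → K) ≠ 0 := by
    intro h
    have h2 := congrFun h 0
    have h3 := congrFun h 1
    simp at h2 h3
    tauto
  have hr := hind _ hx
  have r5 := r4 (s • ![1, 0] + u • ![0, 1])
  have rel : ∀ i, z 0 * t i e1 e2 (ρ (s • ![1, 0] + u • ![0, 1])) +
      z 1 * t i e1 l (ρ (s • ![1, 0] + u • ![0, 1])) +
      z 2 * t i e2 l (ρ (s • ![1, 0] + u • ![0, 1])) - γ * t i e1 e2 l = 0 := by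
    intro i
    have h2 := congrFun hγ i
    simp only [c, A, Fintype.linearCombination_apply, Fin.sum_univ_three, Pi.smul_apply,
      Pi.add_apply, smul_eq_mul, cons_val_zero, cons_val_one, cons_val_two, head_cons,
      tail_cons] at h2
    simp only [map_add, map_smul, smul_eq_mul]
    linear_combination -h2
  generalize ρ (s • ![1, 0] + u • ![0, 1]) = m at *
  have iso : ∀ x y : V, x ∈ Submodule.span K (Set.range ![e1, e2, l, m]) →
      y ∈ Submodule.span K (Set.range ![e1, e2, l, m]) → ω x y = 0 := by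
    intro x y hx hy
    refine span_zero _ _ (fun i j => ?_) x hx y hy
    fin_cases i <;> fin_cases j <;>
      simp [k1, k2, hω.swap e1, hω.swap e2, hω l, hω m, hω.swap l m, r5]
  have mem : ∀ (a b : K) (i j : Fin 4), a • ![e1, e2, l, m] i - b • ![e1, e2, l, m] j ∈
      Submodule.span K (Set.range ![e1, e2, l, m]) := fun a b i j =>
    Submodule.sub_mem _ (Submodule.smul_mem _ _ (Submodule.subset_span ⟨i, rfl⟩))
      (Submodule.smul_mem _ _ (Submodule.subset_span ⟨j, rfl⟩))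
  by_cases z2 : z 2 = 0
  · by_cases z1 : z 1 = 0
    · have z0 : z 0 ≠ 0 := fun z0 => hz (by ext i; fin_cases i <;> assumption)
      obtain ⟨h1, h2⟩ := hyperplane_case t ht l e1 e2 m
        (fun a b c d h => by
          obtain ⟨h1, h2, h3, h4⟩ := hr b c a d (by rw [← h]; module)
          exact ⟨h3, h1, h2, h4⟩) (z 0) (z 2) (-z 1) γ z0
        (fun i => by
          rw [(ht i).s12 e2 l, (ht i).s12 e1 l, (ht i).s12 e1 l, (ht i).s23 e2 l]
          linear_combination rel i)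
      exact ⟨_, _, _, h1, iso _ _ (mem _ _ 0 2) (mem _ _ 1 2), iso _ _ (mem _ _ 0 2) (mem _ _ 3 2),
        iso _ _ (mem _ _ 1 2) (mem _ _ 3 2), h2⟩
    · obtain ⟨h1, h2⟩ := hyperplane_case t ht e2 e1 l m
        (fun a b c d h => by
          obtain ⟨h1, h2, h3, h4⟩ := hr b a c d (by rw [← h]; module)
          exact ⟨h2, h1, h3, h4⟩) (z 1) (-z 2) (-z 0) (-γ) z1
        (fun i => by
          rw [(ht i).s12 e1 e2, (ht i).s12 e1 e2]
          linear_combination rel i)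
      exact ⟨_, _, _, h1, iso _ _ (mem _ _ 0 1) (mem _ _ 2 1), iso _ _ (mem _ _ 0 1) (mem _ _ 3 1),
        iso _ _ (mem _ _ 2 1) (mem _ _ 3 1), h2⟩
  · obtain ⟨h1, h2⟩ := hyperplane_case t ht e1 e2 l m hr (z 2) (-z 1) (z 0) γ z2
      (fun i => by linear_combination rel i)
    exact ⟨_, _, _, h1, iso _ _ (mem _ _ 1 0) (mem _ _ 2 0), iso _ _ (mem _ _ 1 0) (mem _ _ 3 0),
      iso _ _ (mem _ _ 2 0) (mem _ _ 3 0), h2⟩

/-- genus 9 -/
theorem genus9 [CharZero K] (hK : R4 K) [FiniteDimensional K V] (hV : finrank K V = 6)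
    {ω : V →ₗ[K] V →ₗ[K] K} (hω : Alt ω)
    (t : Fin 4 → V →ₗ[K] V →ₗ[K] V →ₗ[K] K) (ht : ∀ i, Alt3 (t i)) :
    ∃ a b c : V, Ind3 K a b c ∧ ω a b = 0 ∧ ω a c = 0 ∧ ω b c = 0 ∧ ∀ i, t i a b c = 0 := by
  by_cases hn : ∀ v, v ≠ 0 → ∃ u, ω v u ≠ 0
  · exact genus9_nondeg hK hV hω hn t ht
  · push Not at hn
    obtain ⟨v, hv, hv'⟩ := hn
    obtain ⟨e1, e2, he, k1, k2⟩ := two_kernel hω (by rw [hV]; decide) hv hv'
    exact genus9_deg hK hV hω he k1 k2 t ht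

end Pool.Agent.Lib.MP_97eeef_nt

end partLG3
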