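import Pool.Agent.Lib.MP_97eeef_nt.Defs

section partRoots

open Polynomial IntermediateField

namespace Pool.Agent.Lib.MP_97eeef_nt

/-- Every polynomial of degree between one and four has a root. -/
def R4 (K : Type*) [Field K] : Prop :=
  ∀ p : K[X], 1 ≤ p.natDegree → p.natDegree ≤ 4 → ∃ x, p.IsRoot x

section radicals

variable {F E : Type*} [Field F] [Field E] [Algebra F E]

theorem solv_rad {x : E} (hx : IsIntegral F x) {n : ℕ} (hn : n ≠ 0)
    (hα : Group.IsSolvable (minpoly F (x ^ n)).Gal) : Group.IsSolvable (minpoly F x).Gal := by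
  let p := minpoly F (x ^ n)
  have hp : p.comp (X ^ n) ≠ 0 := by
    intro h
    rcases comp_eq_zero_iff.mp h with h' | h'
    · exact minpoly.ne_zero (hx.pow n) h'
    · exact hn (by rw [← @natDegree_C F, ← h'.2, natDegree_X_pow])
  apply gal_isSolvable_of_splits
  · exact ⟨(SplittingField.splits (p.comp (X ^ n))).of_dvd (map_ne_zero hp)
      ((map_dvd_map' _).mpr (minpoly.dvd F x (by rw [aeval_comp, aeval_X_pow, minpoly.aeval])))⟩
  · refine gal_isSolvable_tower p (p.comp (X ^ n)) ?_ hα ?_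
    · exact Gal.splits_in_splittingField_of_comp _ _ (by rwa [natDegree_X_pow])
    · obtain ⟨s, hs⟩ := splits_iff_exists_multiset.1 (SplittingField.splits p)
      rw [map_comp, Polynomial.map_pow, map_X, hs, mul_comp, C_comp]
      apply gal_mul_isSolvable (gal_C_isSolvable _)
      rw [multiset_prod_comp]
      apply gal_prod_isSolvable
      intro q hq
      rw [Multiset.mem_map] at hq
      obtain ⟨q, hq, rfl⟩ := hq
      rw [Multiset.mem_map] at hq
      obtain ⟨q, _, rfl⟩ := hq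
      rw [sub_comp, X_comp, C_comp]
      exact gal_X_pow_sub_C_isSolvable n q

theorem solv_step {x y z : E}
    (hx : IsIntegral F x) (hy : IsIntegral F y) (hz : IsIntegral F z)
    (hx' : Group.IsSolvable (minpoly F x).Gal) (hy' : Group.IsSolvable (minpoly F y).Gal)
    (hz' : z ∈ F⟮x, y⟯) : Group.IsSolvable (minpoly F z).Gal := by
  let p := minpoly F x
  let q := minpoly F y
  have hpq := SplittingField.splits (p * q)
  rw [Polynomial.map_mul,
    splits_mul (map_ne_zero (minpoly.ne_zero hx)) (map_ne_zero (minpoly.ne_zero hy))] at hpq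
  have f : ↥F⟮x, y⟯ →ₐ[F] (p * q).SplittingField :=
    Classical.choice <| nonempty_algHom_adjoin_of_splits <| by
      rintro a (rfl | rfl)
      · exact ⟨hx, hpq.1⟩
      · exact ⟨hy, hpq.2⟩
  have key : minpoly F z = minpoly F (f ⟨z, hz'⟩) := by
    refine minpoly.eq_of_irreducible_of_monic
      (minpoly.irreducible hz) ?_ (minpoly.monic hz)
    rw [aeval_algHom_apply, map_eq_zero]
    apply (algebraMap (↥F⟮x, y⟯) E).injective
    simp [← aeval_algebraMap_apply]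
  rw [key]
  refine gal_isSolvable_of_splits ⟨Normal.splits ?_ (f ⟨z, hz'⟩)⟩ (gal_mul_isSolvable hx' hy')
  infer_instance

end radicals

theorem integ (x : AlgebraicClosure ℚ) : IsIntegral ℚ x :=
  ((AlgebraicClosure.isAlgebraic ℚ).isAlgebraic x).isIntegral

theorem solv_of_mem {x : AlgebraicClosure ℚ} (hx : x ∈ Qsolv) :
    Group.IsSolvable (minpoly ℚ x).Gal := by
  let s : Subalgebra ℚ (AlgebraicClosure ℚ) :=
  { carrier := {x | Group.IsSolvable (minpoly ℚ x).Gal}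
    algebraMap_mem' a := by
      show Group.IsSolvable (minpoly ℚ (algebraMap ℚ (AlgebraicClosure ℚ) a)).Gal
      rw [minpoly.eq_X_sub_C (AlgebraicClosure ℚ)]; infer_instance
    add_mem' := fun {a b} ha hb ↦ by
      apply solv_step (integ a) (integ b) (integ _) ha hb (add_mem ..) <;>
        apply subset_adjoin <;> simp
    mul_mem' := fun {a b} ha hb ↦ by
      apply solv_step (integ a) (integ b) (integ _) ha hb (mul_mem ..) <;>
        apply subset_adjoin <;> simp }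
  let t : IntermediateField ℚ (AlgebraicClosure ℚ) :=
    Subalgebra.IsAlgebraic.toIntermediateField (S := s)
      (fun x _ => (integ x).isAlgebraic)
  have hle : Qsolv ≤ t := by
    refine iSup_le fun L => iSup_le fun h1 => iSup_le fun h2 => iSup_le fun h3 => ?_
    intro y hy
    show Group.IsSolvable (minpoly ℚ y).Gal
    have h4 : minpoly ℚ y = minpoly ℚ (⟨y, hy⟩ : L) := (IntermediateField.minpoly_eq (⟨y, hy⟩ : L)).symm
    rw [h4]
    have : Fact (((minpoly ℚ (⟨y, hy⟩ : L)).map (algebraMap ℚ L)).Splits) :=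
      ⟨Normal.splits inferInstance _⟩
    exact Group.isSolvable_of_surjective (Gal.restrict_surjective (minpoly ℚ (⟨y, hy⟩ : L)) L)
  exact hle hx

theorem mem_of_solv {x : AlgebraicClosure ℚ} (hx : Group.IsSolvable (minpoly ℚ x).Gal) :
    x ∈ Qsolv := by
  let p := minpoly ℚ x
  let L : IntermediateField ℚ (AlgebraicClosure ℚ) := adjoin ℚ (p.rootSet (AlgebraicClosure ℚ))
  have hsp : (p.map (algebraMap ℚ (AlgebraicClosure ℚ))).Splits := IsAlgClosed.splits _
  have : IsSplittingField ℚ L p := adjoin_rootSet_isSplittingField hsp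
  have h1 : FiniteDimensional ℚ L := IsSplittingField.finiteDimensional L p
  have h2 : IsGalois ℚ L :=
    IsGalois.of_separable_splitting_field (p := p) (minpoly.irreducible (integ x)).separable
  have h3 : Group.IsSolvable (L ≃ₐ[ℚ] L) := by
    let φ : (L ≃ₐ[ℚ] L) ≃* p.Gal := (IsSplittingField.algEquiv L p).autCongr
    exact Group.isSolvable_of_isSolvable_injective (f := φ.toMonoidHom) φ.injective
  have hL : L ≤ Qsolv := by
    unfold Qsolv
    exact le_iSup_of_le L (le_iSup_of_le h1 (le_iSup_of_le h2 (le_iSup_of_le h3 le_rfl)))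
  apply hL
  apply subset_adjoin
  rw [mem_rootSet_of_ne (minpoly.ne_zero (integ x))]
  exact minpoly.aeval ℚ x

theorem Qsolv_root (n : ℕ) (hn : n ≠ 0) (a : Qsolv) : ∃ x : Qsolv, x ^ n = a := by
  obtain ⟨x, hx⟩ := IsAlgClosed.exists_pow_nat_eq (a : AlgebraicClosure ℚ) (Nat.pos_of_ne_zero hn)
  have hm : x ∈ Qsolv := by
    apply mem_of_solv
    apply solv_rad (integ x) hn
    rw [hx]
    exact solv_of_mem a.2
  exact ⟨⟨x, hm⟩, Subtype.ext hx⟩

section formulas

variable {K : Type*} [Field K] [CharZero K]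

theorem quad_root (h2 : ∀ a : K, ∃ x, x ^ 2 = a) (b c : K) : ∃ x, x ^ 2 + b * x + c = 0 := by
  obtain ⟨s, hs⟩ := h2 (b ^ 2 - 4 * c)
  exact ⟨(s - b) / 2, by linear_combination hs / 4⟩

theorem cubic_root (h2 : ∀ a : K, ∃ x, x ^ 2 = a) (h3 : ∀ a : K, ∃ x, x ^ 3 = a) (a b c : K) :
    ∃ x, x ^ 3 + a * x ^ 2 + b * x + c = 0 := by
  have dep : ∀ p q : K, ∃ t, t ^ 3 + p * t + q = 0 := by
    intro p q
    by_cases hp : p = 0
    · obtain ⟨t, ht⟩ := h3 (-q)
      exact ⟨t, by rw [hp]; linear_combination ht⟩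
    · obtain ⟨s, hs⟩ := h2 (q ^ 2 / 4 + p ^ 3 / 27)
      obtain ⟨u, hu⟩ := h3 (s - q / 2)
      have hu0 : u ≠ 0 := by
        rintro rfl
        apply hp
        have h1 : s = q / 2 := by linear_combination -hu
        have h4 : p ^ 3 = 0 := by rw [h1] at hs; linear_combination (-27) * hs
        exact pow_eq_zero_iff (by norm_num) |>.mp h4
      refine ⟨u - p / (3 * u), ?_⟩
      field_simp
      linear_combination (27 * (u ^ 3 + s + q / 2)) * hu + 27 * hs
  obtain ⟨t, ht⟩ := dep (b - a ^ 2 / 3) (c - a * b / 3 + 2 * a ^ 3 / 27)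
  exact ⟨t - a / 3, by linear_combination ht⟩

theorem quartic_root (h2 : ∀ a : K, ∃ x, x ^ 2 = a) (h3 : ∀ a : K, ∃ x, x ^ 3 = a)
    (a b c d : K) : ∃ x, x ^ 4 + a * x ^ 3 + b * x ^ 2 + c * x + d = 0 := by
  have dep : ∀ p q r : K, ∃ y, y ^ 4 + p * y ^ 2 + q * y + r = 0 := by
    intro p q r
    by_cases hq : q = 0
    · obtain ⟨z, hz⟩ := quad_root h2 p r
      obtain ⟨y, hy⟩ := h2 z
      exact ⟨y, by rw [hq]; rw [← hy] at hz; linear_combination hz⟩
    · obtain ⟨m, hm⟩ := cubic_root h2 h3 p (p ^ 2 / 4 - r) (-q ^ 2 / 8)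
      obtain ⟨s, hs⟩ := h2 (2 * m)
      have hs0 : s ≠ 0 := by
        rintro rfl
        apply hq
        have h1 : m = 0 := by linear_combination -hs / 2
        have h4 : q ^ 2 = 0 := by rw [h1] at hm; linear_combination (-8) * hm
        exact pow_eq_zero_iff (by norm_num) |>.mp h4
      obtain ⟨y, hy⟩ := quad_root h2 (-s) (p / 2 + m + q / (2 * s))
      refine ⟨y, ?_⟩
      have hm' : m = s ^ 2 / 2 := by linear_combination -hs / 2
      subst hm'
      have hq' : q / (2 * s) * s = q / 2 := by field_simp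
      set w := q / (2 * s) with hw
      have hq2 : q = 2 * w * s := by linear_combination -2 * hq'
      have hr : s ^ 2 * (w ^ 2 - ((s ^ 2 / 2) ^ 2 + p * (s ^ 2 / 2) + p ^ 2 / 4 - r)) = 0 := by
        rw [hq2] at hm
        linear_combination (-2) * hm
      have hr' : w ^ 2 - ((s ^ 2 / 2) ^ 2 + p * (s ^ 2 / 2) + p ^ 2 / 4 - r) = 0 :=
        (mul_eq_zero.mp hr).resolve_left (pow_ne_zero 2 hs0)
      rw [hq2]
      linear_combination (y ^ 2 + s * y + p / 2 + s ^ 2 / 2 - w) * hy + hr'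
  obtain ⟨y, hy⟩ := dep (b - 3 * a ^ 2 / 8) (c - a * b / 2 + a ^ 3 / 8)
    (d - a * c / 4 + a ^ 2 * b / 16 - 3 * a ^ 4 / 256)
  exact ⟨y - a / 4, by linear_combination hy⟩

theorem R4_of_roots (h2 : ∀ a : K, ∃ x, x ^ 2 = a) (h3 : ∀ a : K, ∃ x, x ^ 3 = a) : R4 K := by
  intro p h1 h4
  have hp : p ≠ 0 := by rintro rfl; simp at h1
  have hl : p.coeff p.natDegree ≠ 0 := leadingCoeff_ne_zero.mpr hp
  simp only [IsRoot.def, eval_eq_sum_range]
  generalize p.natDegree = n at *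
  interval_cases n
  · refine ⟨-p.coeff 0 / p.coeff 1, ?_⟩
    simp only [Finset.sum_range_succ, Finset.sum_range_zero]
    field_simp; ring
  · obtain ⟨x, hx⟩ := quad_root h2 (p.coeff 1 / p.coeff 2) (p.coeff 0 / p.coeff 2)
    refine ⟨x, ?_⟩
    simp only [Finset.sum_range_succ, Finset.sum_range_zero]
    field_simp at hx
    linear_combination hx
  · obtain ⟨x, hx⟩ := cubic_root h2 h3 (p.coeff 2 / p.coeff 3) (p.coeff 1 / p.coeff 3)
      (p.coeff 0 / p.coeff 3)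
    refine ⟨x, ?_⟩
    simp only [Finset.sum_range_succ, Finset.sum_range_zero]
    field_simp at hx
    linear_combination hx
  · obtain ⟨x, hx⟩ := quartic_root h2 h3 (p.coeff 3 / p.coeff 4) (p.coeff 2 / p.coeff 4)
      (p.coeff 1 / p.coeff 4) (p.coeff 0 / p.coeff 4)
    refine ⟨x, ?_⟩
    simp only [Finset.sum_range_succ, Finset.sum_range_zero]
    field_simp at hx
    linear_combination hx

end formulas

theorem R4_Qsolv : R4 Qsolv :=
  R4_of_roots (Qsolv_root 2 (by norm_num)) (Qsolv_root 3 (by norm_num))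

end Pool.Agent.Lib.MP_97eeef_nt

end partRoots

section partLin

open Polynomial Module

namespace Pool.Agent.Lib.MP_97eeef_nt

variable {K : Type*} [Field K]

section binary

theorem bin2 (hK : R4 K) (a b c : K) :
    ∃ s t : K, (s ≠ 0 ∨ t ≠ 0) ∧ a * s ^ 2 + b * s * t + c * t ^ 2 = 0 := by
  by_cases ha : a = 0
  · exact ⟨1, 0, Or.inl one_ne_zero, by simp [ha]⟩
  · have hd : (C a * X ^ 2 + C b * X + C c).natDegree = 2 := natDegree_quadratic ha
    obtain ⟨x, hx⟩ := hK (C a * X ^ 2 + C b * X + C c) (by omega) (by omega)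
    refine ⟨x, 1, Or.inr one_ne_zero, ?_⟩
    simp at hx
    linear_combination hx

theorem bin3 (hK : R4 K) (a b c d : K) :
    ∃ s t : K, (s ≠ 0 ∨ t ≠ 0) ∧ a * s ^ 3 + b * s ^ 2 * t + c * s * t ^ 2 + d * t ^ 3 = 0 := by
  by_cases ha : a = 0
  · exact ⟨1, 0, Or.inl one_ne_zero, by simp [ha]⟩
  · have hd : (C a * X ^ 3 + C b * X ^ 2 + C c * X + C d).natDegree = 3 := natDegree_cubic ha
    obtain ⟨x, hx⟩ := hK (C a * X ^ 3 + C b * X ^ 2 + C c * X + C d) (by omega) (by omega)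
    refine ⟨x, 1, Or.inr one_ne_zero, ?_⟩
    simp at hx
    linear_combination hx

theorem sq_root (hK : R4 K) (a : K) : ∃ x : K, x ^ 2 = a := by
  obtain ⟨s, t, h, e⟩ := bin2 hK 1 0 (-a)
  have ht : t ≠ 0 := by
    rintro rfl
    simp at e h
    exact h e
  exact ⟨s / t, by field_simp; linear_combination e⟩

end binary

variable {V : Type*} [AddCommGroup V] [Module K V]

theorem exists_eigen (hK : R4 K) [FiniteDimensional K V] (T : V →ₗ[K] V)
    (h1 : 1 ≤ finrank K V) (h4 : finrank K V ≤ 4) : ∃ (r : K) (v : V), v ≠ 0 ∧ T v = r • v := by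
  obtain ⟨r, hr⟩ := hK T.charpoly (by rwa [LinearMap.charpoly_natDegree])
    (by rwa [LinearMap.charpoly_natDegree])
  obtain ⟨v, hv⟩ := ((Module.End.hasEigenvalue_iff_isRoot_charpoly T r).mpr hr).exists_hasEigenvector
  exact ⟨r, v, hv.2, hv.apply_eq_smul⟩

theorem exists_eigen_sub (hK : R4 K) [FiniteDimensional K V] (T : V →ₗ[K] V) (U : Submodule K V)
    (hU : ∀ u ∈ U, T u ∈ U) (h1 : U ≠ ⊥) (h4 : finrank K U ≤ 4) :
    ∃ (r : K) (v : V), v ∈ U ∧ v ≠ 0 ∧ T v = r • v := by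
  obtain ⟨r, v, hv, e⟩ := exists_eigen hK (T.restrict hU)
    (Submodule.one_le_finrank_iff.mpr h1) h4
  exact ⟨r, v, v.2, fun h => hv (Subtype.ext h), by simpa using congrArg Subtype.val e⟩

theorem pencil (hK : R4 K) {U : Type*} [AddCommGroup U] [Module K U] [FiniteDimensional K V]
    [FiniteDimensional K U] (A B : V →ₗ[K] U) (h1 : 1 ≤ finrank K V) (h4 : finrank K V ≤ 4)
    (h : finrank K U = finrank K V) :
    ∃ (s t : K) (z : V), (s ≠ 0 ∨ t ≠ 0) ∧ z ≠ 0 ∧ s • A z + t • B z = 0 := by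
  by_cases hA : Function.Injective A
  · let e := LinearMap.linearEquivOfInjective A hA h.symm
    obtain ⟨r, v, hv, ev⟩ := exists_eigen hK (e.symm.toLinearMap ∘ₗ B) h1 h4
    refine ⟨-r, 1, v, Or.inr one_ne_zero, hv, ?_⟩
    have h2 : B v = r • A v := by
      have := congrArg e ev
      simpa [e] using this
    rw [h2]; simp
  · rw [← LinearMap.ker_eq_bot, ← Ne, Submodule.ne_bot_iff] at hA
    obtain ⟨z, hz, hz0⟩ := hA
    exact ⟨1, 0, z, Or.inl one_ne_zero, hz0, by simpa using hz⟩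

/-- an injective map from `K^m` killed by `r` given linear forms -/
theorem exists_inj [FiniteDimensional K V] {r : ℕ} (m : ℕ) (φ : V →ₗ[K] (Fin r → K))
    (h : m + r ≤ finrank K V) :
    ∃ ρ : (Fin m → K) →ₗ[K] V, Function.Injective ρ ∧ ∀ x, φ (ρ x) = 0 := by
  have h1 := LinearMap.finrank_range_add_finrank_ker φ
  have h2 : finrank K (LinearMap.range φ) ≤ r := by
    simpa using Submodule.finrank_le (LinearMap.range φ)
  obtain ⟨f, hf⟩ := exists_linearIndependent_of_le_finrank (R := K) (M := LinearMap.ker φ)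
    (n := m) (by omega)
  refine ⟨(LinearMap.ker φ).subtype ∘ₗ Fintype.linearCombination K f, ?_, fun x => ?_⟩
  · exact (LinearMap.ker φ).injective_subtype.comp
      (linearIndependent_iff_injective_fintypeLinearCombination.mp hf)
  · exact (Fintype.linearCombination K f x).2

theorem exists_ne_ker [FiniteDimensional K V] {r : ℕ} (φ : V →ₗ[K] (Fin r → K))
    (h : r < finrank K V) : ∃ v : V, v ≠ 0 ∧ φ v = 0 := by
  obtain ⟨ρ, h1, h2⟩ := exists_inj 1 φ (by omega)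
  refine ⟨ρ (fun _ => 1), fun h0 => ?_, h2 _⟩
  have := congrFun (h1 (h0.trans (map_zero ρ).symm)) 0
  simp at this

theorem exists_fun {v : V} (hv : v ≠ 0) : ∃ f : V →ₗ[K] K, f v = 1 := by
  obtain ⟨f, hf⟩ := (Module.Projective.exists_dual_ne_zero K hv)
  exact ⟨(f v)⁻¹ • f, by simp [inv_mul_cancel₀ hf]⟩

variable (K) in
/-- two independent vectors -/
def Ind2 (a b : V) : Prop := ∀ s t : K, s • a + t • b = 0 → s = 0 ∧ t = 0

variable (K) in
/-- three independent vectors -/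
def Ind3 (a b c : V) : Prop := ∀ s t u : K, s • a + t • b + u • c = 0 → s = 0 ∧ t = 0 ∧ u = 0

variable (K) in
/-- four independent vectors -/
def Ind4 (a b c d : V) : Prop :=
  ∀ s t u v : K, s • a + t • b + u • c + v • d = 0 → s = 0 ∧ t = 0 ∧ u = 0 ∧ v = 0

theorem Ind2.li {a b : V} (h : Ind2 K a b) : LinearIndependent K ![a, b] :=
  LinearIndependent.pair_iff.mpr h

theorem Ind3.li {a b c : V} (h : Ind3 K a b c) : LinearIndependent K ![a, b, c] := by
  rw [Fintype.linearIndependent_iff]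
  intro g hg i
  obtain ⟨h0, h1, h2⟩ := h (g 0) (g 1) (g 2) (by simpa [Fin.sum_univ_three] using hg)
  fin_cases i <;> assumption

theorem Ind4.li {a b c d : V} (h : Ind4 K a b c d) : LinearIndependent K ![a, b, c, d] := by
  rw [Fintype.linearIndependent_iff]
  intro g hg i
  obtain ⟨h0, h1, h2, h3⟩ := h (g 0) (g 1) (g 2) (g 3) (by simpa [Fin.sum_univ_four] using hg)
  fin_cases i <;> assumption

theorem Ind2.map {U : Type*} [AddCommGroup U] [Module K U] {a b : U} (h : Ind2 K a b)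
    {ρ : U →ₗ[K] V} (hρ : Function.Injective ρ) : Ind2 K (ρ a) (ρ b) :=
  fun s t e => h s t (hρ (by simpa using e))

theorem Ind3.map {U : Type*} [AddCommGroup U] [Module K U] {a b c : U} (h : Ind3 K a b c)
    {ρ : U →ₗ[K] V} (hρ : Function.Injective ρ) : Ind3 K (ρ a) (ρ b) (ρ c) :=
  fun s t u e => h s t u (hρ (by simpa using e))

theorem Ind2.cons {v a b : V} (h : Ind2 K a b) {f : V →ₗ[K] K} (hv : f v = 1) (ha : f a = 0)
    (hb : f b = 0) : Ind3 K v a b := by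
  intro s t u e
  have h1 := congrArg f e
  simp [hv, ha, hb] at h1
  subst h1
  exact ⟨rfl, h t u (by simpa using e)⟩

theorem Ind3.cons {v a b c : V} (h : Ind3 K a b c) {f : V →ₗ[K] K} (hv : f v = 1) (ha : f a = 0)
    (hb : f b = 0) (hc : f c = 0) : Ind4 K v a b c := by
  intro s t u w e
  have h1 := congrArg f e
  simp [hv, ha, hb, hc] at h1
  subst h1
  exact ⟨rfl, h t u w (by simpa using e)⟩

theorem exists_fun2 {e1 e2 : V} (h' : Ind2 K e1 e2) :
    ∃ f1 f2 : V →ₗ[K] K, f1 e1 = 1 ∧ f1 e2 = 0 ∧ f2 e1 = 0 ∧ f2 e2 = 1 := by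
  have h := h'.li
  obtain ⟨g, hg⟩ := LinearMap.exists_leftInverse_of_injective
    (Fintype.linearCombination K ![e1, e2])
    (LinearMap.ker_eq_bot.mpr (linearIndependent_iff_injective_fintypeLinearCombination.mp h))
  have h1 := LinearMap.congr_fun hg ![1, 0]
  have h2 := LinearMap.congr_fun hg ![0, 1]
  simp [Fintype.linearCombination_apply, Fin.sum_univ_two] at h1 h2
  refine ⟨LinearMap.proj 0 ∘ₗ g, LinearMap.proj 1 ∘ₗ g, ?_, ?_, ?_, ?_⟩ <;> simp [h1, h2]

/-- alternating bilinear forms -/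
def Alt (ω : V →ₗ[K] V →ₗ[K] K) : Prop := ∀ x, ω x x = 0

theorem Alt.swap {ω : V →ₗ[K] V →ₗ[K] K} (h : Alt ω) (x y : V) : ω y x = - ω x y := by
  have := h (x + y)
  simp only [map_add, LinearMap.add_apply, h x, h y] at this
  linear_combination this

theorem Alt.pull {U : Type*} [AddCommGroup U] [Module K U] {ω : V →ₗ[K] V →ₗ[K] K} (h : Alt ω)
    (ρ : U →ₗ[K] V) : Alt (ω.compl₁₂ ρ ρ) := fun x => h (ρ x)

theorem Alt.comb {α β : V →ₗ[K] V →ₗ[K] K} (h : Alt α) (h' : Alt β) (s t : K) :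
    Alt (s • α + t • β) := fun x => by simp [h x, h' x]

theorem Alt.nondeg {ω : V →ₗ[K] V →ₗ[K] K} (h : Alt ω)
    (hn : ¬ ∃ v, v ≠ 0 ∧ ∀ u, ω v u = 0) : LinearMap.BilinForm.Nondegenerate ω := by
  have hr : LinearMap.IsRefl ω := fun x y hxy => by rw [h.swap, hxy, neg_zero]
  refine hr.nondegenerate_iff_separatingLeft.mpr fun v hv => ?_
  by_contra h0
  exact hn ⟨v, h0, hv⟩

variable [CharZero K]

theorem odd_kernel [FiniteDimensional K V] {ω : V →ₗ[K] V →ₗ[K] K} (h : Alt ω)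
    (ho : Odd (finrank K V)) : ∃ v, v ≠ 0 ∧ ∀ u, ω v u = 0 := by
  by_contra hn
  have hd := (LinearMap.BilinForm.nondegenerate_iff_det_ne_zero (finBasis K V)).mp (h.nondeg hn)
  apply hd
  set M := LinearMap.BilinForm.toMatrix (finBasis K V) ω with hM
  have ht : M.transpose = -M := by
    ext i j
    simp [hM, LinearMap.BilinForm.toMatrix_apply, h.swap (finBasis K V j)]
  have h1 : M.det = (-1) ^ finrank K V * M.det := by
    conv_lhs => rw [← Matrix.det_transpose, ht, Matrix.det_neg]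
    simp
  rw [ho.neg_one_pow] at h1
  linear_combination h1 / 2

theorem two_kernel [FiniteDimensional K V] {ω : V →ₗ[K] V →ₗ[K] K} (h : Alt ω)
    (he : Even (finrank K V)) {v : V} (hv : v ≠ 0) (hk : ∀ u, ω v u = 0) :
    ∃ e1 e2 : V, Ind2 K e1 e2 ∧ (∀ u, ω e1 u = 0) ∧ ∀ u, ω e2 u = 0 := by
  obtain ⟨f, hf⟩ := exists_fun (K := K) hv
  have hf0 : f ≠ 0 := by rintro rfl; simp at hf
  have h1 := LinearMap.finrank_range_add_finrank_ker f
  rw [LinearMap.range_eq_top.mpr (LinearMap.surjective_of_ne_zero hf0)] at h1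
  simp only [finrank_top, finrank_self] at h1
  have ho : Odd (finrank K (LinearMap.ker f)) := by
    rw [← h1, add_comm, Nat.even_add_one] at he
    exact Nat.not_even_iff_odd.mp he
  obtain ⟨w, hw, hw'⟩ := odd_kernel (h.pull (LinearMap.ker f).subtype) ho
  refine ⟨v, w, ?_, hk, fun u => ?_⟩
  · intro s t hst
    have h2 := congrArg f hst
    have h3 : f w = 0 := w.2
    simp [hf, h3] at h2
    subst h2
    simp at hst
    exact ⟨rfl, hst.resolve_right (by simpa using hw)⟩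
  · have h2 := hw' ⟨u - f u • v, by simp [hf]⟩
    simp [h.swap v w, hk] at h2
    exact h2

omit [CharZero K] in
theorem isotropic_bound [FiniteDimensional K V] {B : V →ₗ[K] V →ₗ[K] K}
    (hB : LinearMap.BilinForm.Nondegenerate B) (U U' : Submodule K V)
    (h : ∀ x ∈ U, ∀ y ∈ U', B x y = 0) : finrank K U + finrank K U' ≤ finrank K V := by
  have h1 : U' ≤ LinearMap.BilinForm.orthogonal B U := fun y hy x hx => h x hx y hy
  have h2 := Submodule.finrank_mono h1
  rw [LinearMap.BilinForm.finrank_orthogonal hB] at h2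
  have h3 := Submodule.finrank_le U
  omega

omit [CharZero K] in
theorem span_zero {B : V →ₗ[K] V →ₗ[K] K} {ι κ : Type*} (a : ι → V) (b : κ → V)
    (h : ∀ i j, B (a i) (b j) = 0) :
    ∀ x ∈ Submodule.span K (Set.range a), ∀ y ∈ Submodule.span K (Set.range b), B x y = 0 := by
  intro x hx y hy
  have h1 : Submodule.span K (Set.range b) ≤ LinearMap.ker (B x) := by
    rw [Submodule.span_le]
    rintro _ ⟨j, rfl⟩
    have h2 : Submodule.span K (Set.range a) ≤ LinearMap.ker (B.flip (b j)) := by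
      rw [Submodule.span_le]
      rintro _ ⟨i, rfl⟩
      exact h i j
    exact h2 hx
  exact h1 hy

theorem degenerate_member (hK : R4 K) [FiniteDimensional K V] {A B : V →ₗ[K] V →ₗ[K] K}
    (hA : Alt A) (hB : Alt B) (h1 : 1 ≤ finrank K V) (h9 : finrank K V ≤ 9) :
    ∃ (s t : K) (v : V), (s ≠ 0 ∨ t ≠ 0) ∧ v ≠ 0 ∧ ∀ u, (s • A + t • B) v u = 0 := by
  by_cases hn : ∃ v, v ≠ 0 ∧ ∀ u, A v u = 0
  · obtain ⟨v, hv, hv'⟩ := hn
    exact ⟨1, 0, v, Or.inl one_ne_zero, hv, fun u => by simp [hv' u]⟩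
  have hnd := hA.nondeg hn
  let T : V →ₗ[K] V := LinearMap.BilinForm.symmCompOfNondegenerate B A hnd
  have hT : ∀ x u, A (T x) u = B x u := fun x u =>
    LinearMap.BilinForm.symmCompOfNondegenerate_left_apply B hnd u x
  have hs : ∀ x u, A (T x) u = A x (T u) := fun x u => by
    rw [hT, hA.swap (T u) x, hT, hB.swap u x]
  have hs' : ∀ (n : ℕ) x u, A ((T ^ n) x) u = A x ((T ^ n) u) := by
    intro n
    induction n with
    | zero => simp
    | succ n ih =>
      intro x u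
      conv_lhs => rw [pow_succ', Module.End.mul_apply, hs, ih]
      rw [pow_succ, Module.End.mul_apply]
  have : Nontrivial V := Module.finrank_pos_iff.mp (by omega : 0 < finrank K V)
  obtain ⟨x, hx⟩ := exists_ne (0 : V)
  let U := Submodule.span K (Set.range fun n : ℕ => (T ^ n) x)
  have hiso : ∀ a ∈ U, ∀ b ∈ U, A a b = 0 := by
    apply span_zero
    intro i j
    rw [hs', ← Module.End.mul_apply, ← pow_add]
    have h2 := hs' (i + j) x x
    rw [hA.swap x] at h2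
    linear_combination (-1 / 2) * h2
  have hb := isotropic_bound hnd U U hiso
  have hxU : x ∈ U := Submodule.subset_span ⟨0, by simp⟩
  obtain ⟨r, v, -, hv, e⟩ := exists_eigen_sub hK T U (by
      intro u hu
      have h2 : U ≤ U.comap T := by
        rw [Submodule.span_le]
        rintro _ ⟨n, rfl⟩
        exact Submodule.subset_span ⟨n + 1, by simp [pow_succ']⟩
      exact h2 hu)
    ((Submodule.ne_bot_iff U).mpr ⟨x, hxU, hx⟩) (by omega)
  refine ⟨-r, 1, v, Or.inr one_ne_zero, hv, fun u => ?_⟩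
  have h3 := hT v u
  rw [e] at h3
  simp at h3 ⊢
  linear_combination -h3

omit [CharZero K] in
theorem exists_unimod {s t : K} (h : s ≠ 0 ∨ t ≠ 0) : ∃ σ τ : K, s * τ - t * σ = 1 := by
  rcases h with h | h
  · exact ⟨0, s⁻¹, by simp [h]⟩
  · exact ⟨-t⁻¹, 0, by simp [h]⟩

omit [CharZero K] in
theorem plane_through_line (hK : R4 K) [FiniteDimensional K V] (k : ℕ) (h1 : 1 ≤ k) (h4 : k ≤ 4)
    (hV : k + 2 ≤ finrank K V) {e1 e2 : V} (he : Ind2 K e1 e2)
    (ω : Fin (k + 1) → V →ₗ[K] V →ₗ[K] K) (hω : ∀ i, Alt (ω i)) :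
    ∃ (s t : K) (b : V), Ind2 K (s • e1 + t • e2) b ∧ ∀ i, ω i (s • e1 + t • e2) b = 0 := by
  let c : Fin (k + 1) → K := fun i => ω i e1 e2
  by_cases hc : c = 0
  · exact ⟨1, 0, e2, by simpa using he, fun i => by simpa using congrFun hc i⟩
  obtain ⟨f1, f2, a1, a2, a3, a4⟩ := exists_fun2 he
  obtain ⟨ρ, hρ, hρ'⟩ := exists_inj k (LinearMap.pi ![f1, f2]) hV
  have r1 : ∀ x, f1 (ρ x) = 0 := fun x => congrFun (hρ' x) 0
  have r2 : ∀ x, f2 (ρ x) = 0 := fun x => congrFun (hρ' x) 1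
  let N : Submodule K (Fin (k + 1) → K) := Submodule.span K {c}
  have hN : finrank K ((Fin (k + 1) → K) ⧸ N) = finrank K (Fin k → K) := by
    have h2 := Submodule.finrank_quotient_add_finrank N
    rw [finrank_span_singleton hc] at h2
    simp at h2 ⊢
    omega
  obtain ⟨s, t, z, hst, hz, e⟩ := pencil hK
    (N.mkQ ∘ₗ (LinearMap.pi fun i => ω i e1) ∘ₗ ρ) (N.mkQ ∘ₗ (LinearMap.pi fun i => ω i e2) ∘ₗ ρ)
    (by simpa using h1) (by simpa using h4) hN
  simp only [LinearMap.comp_apply] at e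
  rw [← map_smul N.mkQ, ← map_smul N.mkQ, ← map_add, Submodule.mkQ_apply,
    Submodule.Quotient.mk_eq_zero] at e
  obtain ⟨γ, hγ⟩ := Submodule.mem_span_singleton.mp e
  obtain ⟨σ, τ, hu⟩ := exists_unimod hst
  refine ⟨s, t, ρ z - γ • (σ • e1 + τ • e2), ?_, fun i => ?_⟩
  · intro p q hpq
    have b1 := congrArg f1 hpq
    have b2 := congrArg f2 hpq
    simp [a1, a2, a3, a4, r1, r2] at b1 b2
    have b3 : q • ρ z = 0 := by
      have : p • (s • e1 + t • e2) + q • (ρ z - γ • (σ • e1 + τ • e2)) =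
        q • ρ z + (p * s + -(q * (γ * σ))) • e1 + (p * t + -(q * (γ * τ))) • e2 := by module
      rw [this, b1, b2] at hpq
      simpa using hpq
    have hq : q = 0 := by
      by_contra hq
      exact hz (hρ (by simpa [hq] using b3))
    subst hq
    refine ⟨?_, rfl⟩
    simp at b1 b2
    rcases hst with h | h
    · exact b1.resolve_right h
    · exact b2.resolve_right h
  · have h2 := congrFun hγ i
    simp [c] at h2
    simp [(hω i) e1, (hω i) e2, (hω i).swap e1 e2]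
    linear_combination -h2 - γ * ω i e1 e2 * hu

/-- `k + 2` alternating forms on a space of even dimension `k + 2 ≤ 6` -/
theorem even_plane (hK : R4 K) [FiniteDimensional K V] (k : ℕ) (h1 : 1 ≤ k) (h4 : k ≤ 4)
    (hk : Even k) (hV : finrank K V = k + 2)
    (α β : V →ₗ[K] V →ₗ[K] K) (hα : Alt α) (hβ : Alt β)
    (ω : Fin k → V →ₗ[K] V →ₗ[K] K) (hω : ∀ i, Alt (ω i)) :
    ∃ a b : V, Ind2 K a b ∧ α a b = 0 ∧ β a b = 0 ∧ ∀ i, ω i a b = 0 := by
  obtain ⟨s, t, v, hst, hv, hv'⟩ := degenerate_member hK hα hβ (by omega) (by omega)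
  obtain ⟨e1, e2, he, k1, k2⟩ := two_kernel (hα.comb hβ s t) (by rw [hV]; exact hk.add even_two)
    hv hv'
  have key : ∀ γ : V →ₗ[K] V →ₗ[K] K, Alt γ → ∃ a b : V, Ind2 K a b ∧ γ a b = 0 ∧
      s * α a b + t * β a b = 0 ∧ ∀ i, ω i a b = 0 := by
    intro γ hγ
    obtain ⟨p, q, b, h2, h3⟩ := plane_through_line hK k h1 h4 hV.ge he (Fin.cons γ ω)
      (fun i => by refine Fin.cases ?_ (fun j => ?_) i; exacts [hγ, hω j])
    refine ⟨_, b, h2, h3 0, ?_, fun i => h3 i.succ⟩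
    have h5 := k1 b
    have h6 := k2 b
    simp at h5 h6 ⊢
    linear_combination p * h5 + q * h6
  rcases hst with h | h
  · obtain ⟨a, b, h2, h3, h5, h6⟩ := key β hβ
    exact ⟨a, b, h2, by simpa [h3, h] using h5, h3, h6⟩
  · obtain ⟨a, b, h2, h3, h5, h6⟩ := key α hα
    exact ⟨a, b, h2, h3, by simpa [h3, h] using h5, h6⟩

theorem four_forms (hK : R4 K) [FiniteDimensional K V] (hV : finrank K V = 4)
    {α β γ δ : V →ₗ[K] V →ₗ[K] K} (hα : Alt α) (hβ : Alt β) (hγ : Alt γ) (hδ : Alt δ) :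
    ∃ a b : V, Ind2 K a b ∧ α a b = 0 ∧ β a b = 0 ∧ γ a b = 0 ∧ δ a b = 0 := by
  obtain ⟨a, b, h1, h2, h3, h4⟩ := even_plane hK 2 (by norm_num) (by norm_num) even_two hV
    α β hα hβ ![γ, δ] (fun i => by fin_cases i; exacts [hγ, hδ])
  exact ⟨a, b, h1, h2, h3, h4 0, h4 1⟩

/-- genus 8 -/
theorem genus8 (hK : R4 K) [FiniteDimensional K V] (hV : finrank K V = 6)
    (ω : Fin 6 → V →ₗ[K] V →ₗ[K] K) (hω : ∀ i, Alt (ω i)) :
    ∃ a b : V, Ind2 K a b ∧ ∀ i, ω i a b = 0 := by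
  obtain ⟨a, b, h1, h2, h3, h4⟩ := even_plane hK 4 (by norm_num) (by norm_num) (by decide) hV
    (ω 0) (ω 1) (hω 0) (hω 1) (fun i => ω i.succ.succ) (fun i => hω _)
  refine ⟨a, b, h1, fun i => ?_⟩
  fin_cases i
  exacts [h2, h3, h4 0, h4 1, h4 2, h4 3]

/-- genus 12 -/
theorem genus12 (hK : R4 K) [FiniteDimensional K V] (hV : finrank K V = 7)
    {α β γ : V →ₗ[K] V →ₗ[K] K} (hα : Alt α) (hβ : Alt β) (hγ : Alt γ)
    (η : V →ₗ[K] V →ₗ[K] V →ₗ[K] K) (hη : ∀ v, Alt (η v)) :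
    ∃ v a b : V, Ind3 K v a b ∧ (α v a = 0 ∧ α v b = 0 ∧ α a b = 0) ∧
      (β v a = 0 ∧ β v b = 0 ∧ β a b = 0) ∧ (γ v a = 0 ∧ γ v b = 0 ∧ γ a b = 0) ∧
      η v a b = 0 := by
  obtain ⟨v, hv, hv'⟩ := odd_kernel hα (by rw [hV]; decide)
  obtain ⟨f, hf⟩ := exists_fun (K := K) hv
  obtain ⟨ρ, hρ, hρ'⟩ := exists_inj 4 (LinearMap.pi ![f, β v, γ v]) (by omega)
  obtain ⟨a, b, h1, h2, h3, h4, h5⟩ := four_forms hK (V := Fin 4 → K) (by simp)
    (hα.pull ρ) (hβ.pull ρ) (hγ.pull ρ) ((hη v).pull ρ)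
  exact ⟨v, ρ a, ρ b, (h1.map hρ).cons hf (congrFun (hρ' a) 0) (congrFun (hρ' b) 0),
    ⟨hv' _, hv' _, h2⟩, ⟨congrFun (hρ' a) 1, congrFun (hρ' b) 1, h3⟩,
    ⟨congrFun (hρ' a) 2, congrFun (hρ' b) 2, h4⟩, h5⟩

section klein

open Matrix

omit [CharZero K] in
theorem common_covector (A B A' B' : Matrix (Fin 4) (Fin 4) K) (hA : Aᵀ = -A) (hB' : B'ᵀ = -B')
    (h1 : A' * A = 0) (h2 : B * B' = 0) (h2' : B' * B = 0) (h3 : B' * A + A' * B = 0)
    (h4 : A = 0 → A' = 0) (h5 : B = 0 → B' = 0) :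
    ∃ l : Fin 4 → K, l ≠ 0 ∧ A' *ᵥ l = 0 ∧ B' *ᵥ l = 0 := by
  have ne : ∀ M : Matrix (Fin 4) (Fin 4) K, M ≠ 0 → ∃ z, M *ᵥ z ≠ 0 := by
    intro M hM
    by_contra h
    push Not at h
    apply hM
    ext i j
    simpa using congrFun (h (Pi.single j 1)) i
  have h6 : B' * A = -(A' * B) := eq_neg_of_add_eq_zero_left h3
  by_cases c1 : A * B' = 0
  · have h7 : B' * A = 0 := by
      have := congrArg transpose c1
      simpa [transpose_mul, hA, hB'] using this
    by_cases c2 : B = 0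
    · by_cases c3 : A = 0
      · exact ⟨fun _ => 1, fun h => by simpa using congrFun h 0, by simp [h4 c3], by simp [h5 c2]⟩
      · obtain ⟨z, hz⟩ := ne A c3
        exact ⟨A *ᵥ z, hz, by simp [mulVec_mulVec, h1], by simp [h5 c2]⟩
    · obtain ⟨z, hz⟩ := ne B c2
      have h8 : A' * B = 0 := by simpa [h7] using h3
      exact ⟨B *ᵥ z, hz, by simp [mulVec_mulVec, h8], by simp [mulVec_mulVec, h2']⟩
  · obtain ⟨z, hz⟩ := ne _ c1
    refine ⟨(A * B') *ᵥ z, hz, ?_, ?_⟩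
    · simp [mulVec_mulVec, ← Matrix.mul_assoc, h1]
    · rw [mulVec_mulVec, ← Matrix.mul_assoc, h6, Matrix.neg_mul, Matrix.mul_assoc, h2]
      simp

/-- skew matrix with given entries -/
def sk (a b c d e f : K) : Matrix (Fin 4) (Fin 4) K :=
  !![0, a, b, c; -a, 0, d, e; -b, -d, 0, f; -c, -e, -f, 0]

omit [CharZero K] in
theorem sk_mul (a b c d e f a' b' c' d' e' f' : K)
    (h : a * f' - b * e' + c * d' + d * c' - e * b' + f * a' = 0) :
    sk f' (-e') d' c' (-b') a' * sk a b c d e f + sk f (-e) d c (-b) a * sk a' b' c' d' e' f'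
      = 0 := by
  ext i j
  fin_cases i <;> fin_cases j <;> simp [sk] <;>
    first | ring1 | linear_combination -h

theorem sk_mul_self (a b c d e f : K)
    (h : a * f - b * e + c * d + d * c - e * b + f * a = 0) :
    sk f (-e) d c (-b) a * sk a b c d e f = 0 ∧ sk a b c d e f * sk f (-e) d c (-b) a = 0 := by
  constructor <;> ext i j <;>
  fin_cases i <;> fin_cases j <;> simp [sk, Matrix.mul_apply, Fin.sum_univ_four] <;>
    first | ring1 | linear_combination -h / 2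

omit [CharZero K] in
theorem sk_zero (a b c d e f : K) (h : sk a b c d e f = 0) : sk f (-e) d c (-b) a = 0 := by
  have h1 := congrFun (congrFun h 0) 1
  have h2 := congrFun (congrFun h 0) 2
  have h3 := congrFun (congrFun h 0) 3
  have h4 := congrFun (congrFun h 1) 2
  have h5 := congrFun (congrFun h 1) 3
  have h6 := congrFun (congrFun h 2) 3
  simp [sk] at h1 h2 h3 h4 h5 h6
  ext i j
  fin_cases i <;> fin_cases j <;> simp [sk, h1, h2, h3, h4, h5, h6]

omit [CharZero K] in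
theorem sk_transpose (a b c d e f : K) : (sk a b c d e f)ᵀ = - sk a b c d e f := by
  ext i j
  fin_cases i <;> fin_cases j <;> simp [sk]

omit [CharZero K] in
theorem vanish_on_ker {α : V →ₗ[K] V →ₗ[K] K} (hα : Alt α) (r0 r1 r2 r3 : V) (l : Fin 4 → K)
    (hl : l ≠ 0)
    (h : sk (α r2 r3) (-α r1 r3) (α r1 r2) (α r0 r3) (-α r0 r2) (α r0 r1) *ᵥ l = 0)
    (x y : Fin 4 → K) (hx : l ⬝ᵥ x = 0) (hy : l ⬝ᵥ y = 0) :
    α (x 0 • r0 + x 1 • r1 + x 2 • r2 + x 3 • r3)
      (y 0 • r0 + y 1 • r1 + y 2 • r2 + y 3 • r3) = 0 := by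
  have e0 := congrFun h 0
  have e1 := congrFun h 1
  have e2 := congrFun h 2
  have e3 := congrFun h 3
  simp [sk, mulVec, dotProduct, Fin.sum_univ_four] at e0 e1 e2 e3 hx hy
  have hz : ∃ z : Fin 4 → K, l 0 * z 0 + l 1 * z 1 + l 2 * z 2 + l 3 * z 3 = 1 := by
    obtain ⟨i, hi⟩ := Function.ne_iff.mp hl
    refine ⟨Pi.single i (l i)⁻¹, ?_⟩
    fin_cases i <;> simp at hi ⊢ <;> exact mul_inv_cancel₀ hi
  obtain ⟨z, hz⟩ := hz
  simp only [map_add, map_smul, LinearMap.add_apply, LinearMap.smul_apply, smul_eq_mul,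
    hα r0, hα r1, hα r2, hα r3, hα.swap r0 r1, hα.swap r0 r2, hα.swap r0 r3, hα.swap r1 r2,
    hα.swap r1 r3, hα.swap r2 r3]
  generalize α r0 r1 = a at *
  generalize α r0 r2 = b at *
  generalize α r0 r3 = c at *
  generalize α r1 r2 = d at *
  generalize α r1 r3 = e at *
  generalize α r2 r3 = f at *
  linear_combination
    (-(a * (x 0 * y 1 - x 1 * y 0) + b * (x 0 * y 2 - x 2 * y 0) + c * (x 0 * y 3 - x 3 * y 0)
      + d * (x 1 * y 2 - x 2 * y 1) + e * (x 1 * y 3 - x 3 * y 1) + f * (x 2 * y 3 - x 3 * y 2))) * hz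
    + (a * (x 0 * z 1 - x 1 * z 0) + b * (x 0 * z 2 - x 2 * z 0) + c * (x 0 * z 3 - x 3 * z 0)
      + d * (x 1 * z 2 - x 2 * z 1) + e * (x 1 * z 3 - x 3 * z 1) + f * (x 2 * z 3 - x 3 * z 2)) * hy
    - (a * (y 0 * z 1 - y 1 * z 0) + b * (y 0 * z 2 - y 2 * z 0) + c * (y 0 * z 3 - y 3 * z 0)
      + d * (y 1 * z 2 - y 2 * z 1) + e * (y 1 * z 3 - y 3 * z 1) + f * (y 2 * z 3 - y 3 * z 2)) * hx
    + (x 1 * (y 2 * z 3 - y 3 * z 2) - x 2 * (y 1 * z 3 - y 3 * z 1)
      + x 3 * (y 1 * z 2 - y 2 * z 1)) * e0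
    - (x 0 * (y 2 * z 3 - y 3 * z 2) - x 2 * (y 0 * z 3 - y 3 * z 0)
      + x 3 * (y 0 * z 2 - y 2 * z 0)) * e1
    + (x 0 * (y 1 * z 3 - y 3 * z 1) - x 1 * (y 0 * z 3 - y 3 * z 0)
      + x 3 * (y 0 * z 1 - y 1 * z 0)) * e2
    - (x 0 * (y 1 * z 2 - y 2 * z 1) - x 1 * (y 0 * z 2 - y 2 * z 0)
      + x 2 * (y 0 * z 1 - y 1 * z 0)) * e3

/-- the four-form `α ∧ β` with the first two arguments fixed -/
def wedge (α β : V →ₗ[K] V →ₗ[K] K) (e1 e2 : V) : V →ₗ[K] V →ₗ[K] K :=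
  α e1 e2 • β - (α e1).smulRight (β e2) + (β e2).smulRight (α e1) + (α e2).smulRight (β e1)
    - (β e1).smulRight (α e2) + β e1 e2 • α

omit [CharZero K] in
theorem wedge_apply (α β : V →ₗ[K] V →ₗ[K] K) (e1 e2 x y : V) : wedge α β e1 e2 x y =
    α e1 e2 * β x y - α e1 x * β e2 y + α e1 y * β e2 x + α e2 x * β e1 y - α e2 y * β e1 x
      + α x y * β e1 e2 := by
  simp [wedge]; ring

omit [CharZero K] in
theorem wedge_alt {α β : V →ₗ[K] V →ₗ[K] K} (hα : Alt α) (hβ : Alt β) (e1 e2 : V) :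
    Alt (wedge α β e1 e2) := fun x => by
  rw [wedge_apply, hα x, hβ x]; ring

theorem three_forms (hK : R4 K) [FiniteDimensional K V] (hV : finrank K V = 6)
    {α β γ : V →ₗ[K] V →ₗ[K] K} (hα : Alt α) (hβ : Alt β) (hγ : Alt γ) :
    ∃ ρ : (Fin 3 → K) →ₗ[K] V, Function.Injective ρ ∧
      ∀ x y, α (ρ x) (ρ y) = 0 ∧ β (ρ x) (ρ y) = 0 ∧ γ (ρ x) (ρ y) = 0 := by
  obtain ⟨s, t, v, hst, hv, hv'⟩ := degenerate_member hK hα hβ (by omega) (by omega)
  have hy := hα.comb hβ s t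
  obtain ⟨e1, e2, he, k1, k2⟩ := two_kernel hy (by rw [hV]; decide) hv hv'
  have key : ∀ δ : V →ₗ[K] V →ₗ[K] K, Alt δ → ∃ ρ : (Fin 3 → K) →ₗ[K] V, Function.Injective ρ ∧
      ∀ x y, δ (ρ x) (ρ y) = 0 ∧ s * α (ρ x) (ρ y) + t * β (ρ x) (ρ y) = 0 ∧
        γ (ρ x) (ρ y) = 0 := by
    intro δ hδ
    obtain ⟨f1, f2, a1, a2, a3, a4⟩ := exists_fun2 he
    obtain ⟨π, hπ, hπ'⟩ := exists_inj 4 (LinearMap.pi ![f1, f2]) (by omega)
    have r1 : ∀ x, f1 (π x) = 0 := fun x => congrFun (hπ' x) 0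
    have r2 : ∀ x, f2 (π x) = 0 := fun x => congrFun (hπ' x) 1
    obtain ⟨p, q, hpq, c0, c1, c2, c3⟩ := four_forms hK (V := Fin 4 → K) (by simp) (hy.pull π)
      ((wedge_alt hδ hδ e1 e2).pull π) ((wedge_alt hδ hγ e1 e2).pull π)
      ((wedge_alt hγ hγ e1 e2).pull π)
    simp only [LinearMap.compl₁₂_apply, wedge_apply] at c0 c1 c2 c3
    have hpq' := hpq.map hπ
    have r1p := r1 p
    have r1q := r1 q
    have r2p := r2 p
    have r2q := r2 q
    generalize π p = l1 at *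
    generalize π q = l2 at *
    obtain ⟨l, hl, d1, d2⟩ := common_covector _ _ _ _ (sk_transpose ..) (sk_transpose ..)
      (sk_mul_self _ _ _ _ _ _ c1).1 (sk_mul_self _ _ _ _ _ _ c3).2
      (sk_mul_self _ _ _ _ _ _ c3).1 (sk_mul _ _ _ _ _ _ _ _ _ _ _ _ c2) (sk_zero _ _ _ _ _ _)
      (sk_zero _ _ _ _ _ _)
    obtain ⟨κ, hκ, hκ'⟩ := exists_inj 3 (V := Fin 4 → K)
      (LinearMap.pi ![(dotProductBilin K K l : (Fin 4 → K) →ₗ[K] K)]) (by simp)
    have hk : ∀ x, l ⬝ᵥ κ x = 0 := fun x => congrFun (hκ' x) 0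
    have hr : Ind4 K e1 e2 l1 l2 := by
      intro a b c d h
      have b1 := congrArg f1 h
      have b2 := congrArg f2 h
      simp [a1, a2, a3, a4, r1p, r1q, r2p, r2q] at b1 b2
      subst b1 b2
      exact ⟨rfl, rfl, hpq' c d (by simpa using h)⟩
    refine ⟨Fintype.linearCombination K ![e1, e2, l1, l2] ∘ₗ κ,
      (linearIndependent_iff_injective_fintypeLinearCombination.mp hr.li).comp hκ, fun x y => ?_⟩
    simp only [LinearMap.comp_apply, Fintype.linearCombination_apply, Fin.sum_univ_four]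
    refine ⟨vanish_on_ker hδ e1 e2 l1 l2 l hl d1 _ _ (hk x) (hk y), ?_,
      vanish_on_ker hγ e1 e2 l1 l2 l hl d2 _ _ (hk x) (hk y)⟩
    have h1 : (s • α + t • β) (κ x 0 • e1 + κ x 1 • e2 + κ x 2 • l1 + κ x 3 • l2)
        (κ y 0 • e1 + κ y 1 • e2 + κ y 2 • l1 + κ y 3 • l2) = 0 := by
      generalize s • α + t • β = w at *
      simp [k1, k2, hy.swap e1, hy.swap e2, hy l1, hy l2, hy.swap l1 l2, c0]
    exact h1
  rcases hst with h | h
  · obtain ⟨ρ, h2, h3⟩ := key β hβ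
    exact ⟨ρ, h2, fun x y => ⟨by simpa [(h3 x y).1, h] using (h3 x y).2.1, (h3 x y).1,
      (h3 x y).2.2⟩⟩
  · obtain ⟨ρ, h2, h3⟩ := key α hα
    exact ⟨ρ, h2, fun x y => ⟨(h3 x y).1, by simpa [(h3 x y).1, h] using (h3 x y).2.1,
      (h3 x y).2.2⟩⟩

/-- genus 20 -/
theorem genus20 (hK : R4 K) [FiniteDimensional K V] (hV : finrank K V = 9)
    {α β γ : V →ₗ[K] V →ₗ[K] K} (hα : Alt α) (hβ : Alt β) (hγ : Alt γ) :
    ∃ w : Fin 4 → V, LinearIndependent K w ∧
      ∀ i j, α (w i) (w j) = 0 ∧ β (w i) (w j) = 0 ∧ γ (w i) (w j) = 0 := by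
  obtain ⟨v, hv, hv'⟩ := odd_kernel hα (by rw [hV]; decide)
  obtain ⟨f, hf⟩ := exists_fun (K := K) hv
  obtain ⟨ρ, hρ, hρ'⟩ := exists_inj 6 (LinearMap.pi ![f, β v, γ v]) (by omega)
  obtain ⟨κ, hκ, h⟩ := three_forms hK (V := Fin 6 → K) (by simp)
    (hα.pull ρ) (hβ.pull ρ) (hγ.pull ρ)
  have r0 : ∀ x, f (ρ x) = 0 := fun x => congrFun (hρ' x) 0
  have r1 : ∀ x, β v (ρ x) = 0 := fun x => congrFun (hρ' x) 1
  have r2 : ∀ x, γ v (ρ x) = 0 := fun x => congrFun (hρ' x) 2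
  refine ⟨Fin.cons v fun i => ρ (κ (Pi.single i 1)), ?_, fun i j => ?_⟩
  · rw [linearIndependent_finCons]
    constructor
    · have h5 := (Pi.basisFun K (Fin 3)).linearIndependent.map' (ρ ∘ₗ κ)
        (LinearMap.ker_eq_bot.mpr (hρ.comp hκ))
      have h6 : (fun i => ρ (κ (Pi.single i 1))) = ⇑(ρ ∘ₗ κ) ∘ ⇑(Pi.basisFun K (Fin 3)) := by
        funext i
        simp
      rw [h6]
      exact h5
    · intro hm
      have h2 : Submodule.span K (Set.range fun i => ρ (κ (Pi.single i 1))) ≤ LinearMap.ker f := by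
        rw [Submodule.span_le]
        rintro _ ⟨i, rfl⟩
        exact r0 _
      have h3 : f v = 0 := h2 hm
      simp [hf] at h3
  · refine Fin.cases ?_ (fun i => ?_) i <;> refine Fin.cases ?_ (fun j => ?_) j
    · exact ⟨hα v, hβ v, hγ v⟩
    · exact ⟨hv' _, r1 _, r2 _⟩
    · simp only [Fin.cons_succ, Fin.cons_zero]
      rw [hα.swap, hβ.swap, hγ.swap, hv', r1, r2]
      simp
    · exact h _ _

end klein

end Pool.Agent.Lib.MP_97eeef_nt

end partLin
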