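import Mathlib

/-! Lines on the quadrics of a pencil: the local conditions of a two-descent. -/

namespace Pool.Agent.Lib.MP_97eeef_nt.NP

section Defs

variable {R : Type} [CommRing R]

/-- The first bilinear form. -/
def B1 (a b : Fin 4 → R) : R := a 0 * b 0 + a 1 * b 1 + a 2 * b 2

/-- The second bilinear form. -/
def B2 (a b : Fin 4 → R) : R := a 0 * b 0 - a 1 * b 1 - a 3 * b 3

/-- The four linear forms on the pencil that vanish at its singular members. -/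
def Ee (c1 c2 : R) : Fin 4 → R := ![c2 - c1, c2 + c1, -2 * c2, -2 * c1]

/-- For each splitting of the four indices into two pairs, one of the pairs has the property. -/
def Good (S : Fin 4 → Fin 4 → Prop) : Prop :=
  (S 0 1 ∨ S 2 3) ∧ (S 0 2 ∨ S 1 3) ∧ (S 0 3 ∨ S 1 2)

theorem Good.mono {S T : Fin 4 → Fin 4 → Prop} (h : Good S) (h' : ∀ i j, S i j → T i j) :
    Good T :=
  ⟨h.1.imp (h' _ _) (h' _ _), h.2.1.imp (h' _ _) (h' _ _), h.2.2.imp (h' _ _) (h' _ _)⟩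

theorem map_Ee {S : Type} [CommRing S] (ρ : R →+* S) (c1 c2 : R) (i : Fin 4) :
    ρ (Ee c1 c2 i) = Ee (ρ c1) (ρ c2) i := by
  fin_cases i <;> simp [Ee, map_ofNat]

theorem Ee_mul (μ c1 c2 : R) (i : Fin 4) : Ee (μ * c1) (μ * c2) i = μ * Ee c1 c2 i := by
  fin_cases i <;> simp [Ee] <;> ring

theorem map_B1 {S : Type} [CommRing S] (ρ : R →+* S) (a b : Fin 4 → R) :
    ρ (B1 a b) = B1 (fun i => ρ (a i)) (fun i => ρ (b i)) := by simp [B1]

theorem map_B2 {S : Type} [CommRing S] (ρ : R →+* S) (a b : Fin 4 → R) :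
    ρ (B2 a b) = B2 (fun i => ρ (a i)) (fun i => ρ (b i)) := by simp [B2]

theorem gram {e0 e1 e2 e3 a0 a1 a2 a3 b0 b1 b2 b3 : R}
    (h1 : e0 * a0 ^ 2 + e1 * a1 ^ 2 + e2 * a2 ^ 2 + e3 * a3 ^ 2 = 0)
    (h2 : e0 * a0 * b0 + e1 * a1 * b1 + e2 * a2 * b2 + e3 * a3 * b3 = 0)
    (h3 : e0 * b0 ^ 2 + e1 * b1 ^ 2 + e2 * b2 ^ 2 + e3 * b3 ^ 2 = 0) :
    e0 * e1 * (a0 * b1 - a1 * b0) ^ 2 = e2 * e3 * (a2 * b3 - a3 * b2) ^ 2 := by
  linear_combination (e0 * b0 ^ 2 + e1 * b1 ^ 2) * h1 - (e2 * a2 ^ 2 + e3 * a3 ^ 2) * h3 -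
    (e0 * a0 * b0 + e1 * a1 * b1 - e2 * a2 * b2 - e3 * a3 * b3) * h2

end Defs

section Field

variable {F : Type} [Field F]

theorem good_ne (h2 : (2 : F) ≠ 0) {c1 c2 : F} (hc : c1 ≠ 0 ∨ c2 ≠ 0) :
    Good fun i j => Ee c1 c2 i * Ee c1 c2 j ≠ 0 := by
  simp only [Good, Ee, Matrix.cons_val, ne_eq, mul_eq_zero, neg_eq_zero, h2, false_or]
  grind

theorem good_core (h2 : (2 : F) ≠ 0) {c1 c2 ν : F} (hc : c1 ≠ 0 ∨ c2 ≠ 0) (hν : ν ≠ 0)
    {a b : Fin 4 → F} (ha : a ≠ 0) (h1 : B1 a a = 0) (h3 : B2 a a = 0) (h4 : B1 a b = 0)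
    (h5 : B2 a b = 0) (h6 : B1 b b = c1 * ν) (h7 : B2 b b = c2 * ν) :
    Good fun i j => ∃ z, z ≠ 0 ∧ Ee c1 c2 i * Ee c1 c2 j = z ^ 2 := by
  simp only [B1, B2] at h1 h3 h4 h5 h6 h7
  have h8 : a 2 ^ 2 * c1 = a 3 ^ 2 * c2 := by
    apply mul_right_cancel₀ hν
    linear_combination -a 2 ^ 2 * h6 + a 3 ^ 2 * h7 + (b 0 ^ 2 + b 1 ^ 2) * h1 +
      (b 0 ^ 2 - b 1 ^ 2) * h3 + (a 2 * b 2 - a 0 * b 0 - a 1 * b 1) * h4 -
      (a 3 * b 3 + a 0 * b 0 - a 1 * b 1) * h5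
  obtain ⟨μ, h9, h10⟩ : ∃ μ, -2 * c2 = μ * a 2 ^ 2 ∧ -2 * c1 = μ * a 3 ^ 2 := by
    by_cases e2 : a 2 = 0
    · by_cases e3 : a 3 = 0
      · have e0 : a 0 = 0 := by
          have : 2 * a 0 ^ 2 = 0 := by linear_combination h1 + h3 - a 2 * e2 + a 3 * e3
          simpa [h2] using this
        have e1 : a 1 = 0 := by simpa [e0, e2] using h1
        exact absurd (funext fun i => by fin_cases i <;> assumption) ha
      · exact ⟨-2 * c1 / a 3 ^ 2, by field_simp; linear_combination h8, by field_simp⟩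
    · exact ⟨-2 * c2 / a 2 ^ 2, by field_simp, by field_simp; linear_combination -h8⟩
  have h11 : ∀ i, Ee c1 c2 i = μ * a i ^ 2 := fun i => by
    fin_cases i
    · apply mul_left_cancel₀ h2
      simp only [Ee, Fin.zero_eta, Matrix.cons_val]
      linear_combination h10 - h9 - μ * h1 - μ * h3
    · apply mul_left_cancel₀ h2
      simp only [Ee, Fin.mk_one, Matrix.cons_val]
      linear_combination -h10 - h9 - μ * h1 + μ * h3
    · exact h9
    · exact h10
  refine (good_ne h2 hc).mono fun i j h => ⟨μ * a i * a j, fun h0 => h ?_, ?_⟩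
  · rw [h11, h11]; linear_combination (μ * a i * a j) * h0
  · rw [h11, h11]; ring

theorem minors_zero {f g : Fin 4 → F} (h1 : B1 f f = 0) (h3 : B2 f f = 0)
    (h4 : B1 f g = 0) (h5 : B2 f g = 0) (h6 : B1 g g = 0) (h7 : B2 g g = 0) (i j : Fin 4) :
    f i * g j - f j * g i = 0 := by
  simp only [B1, B2] at h1 h3 h4 h5 h6 h7
  have p01 : f 0 * g 1 - f 1 * g 0 = 0 := by
    simpa using gram (e0 := 1) (e1 := 1) (e2 := 1) (e3 := 0) (a0 := f 0) (a1 := f 1) (a2 := f 2)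
      (a3 := 0) (b0 := g 0) (b1 := g 1) (b2 := g 2) (b3 := 0) (by linear_combination h1)
      (by linear_combination h4) (by linear_combination h6)
  have p02 : f 0 * g 2 - f 2 * g 0 = 0 := by
    simpa using gram (e0 := 1) (e1 := 1) (e2 := 1) (e3 := 0) (a0 := f 0) (a1 := f 2) (a2 := f 1)
      (a3 := 0) (b0 := g 0) (b1 := g 2) (b2 := g 1) (b3 := 0) (by linear_combination h1)
      (by linear_combination h4) (by linear_combination h6)
  have p12 : f 1 * g 2 - f 2 * g 1 = 0 := by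
    simpa using gram (e0 := 1) (e1 := 1) (e2 := 1) (e3 := 0) (a0 := f 1) (a1 := f 2) (a2 := f 0)
      (a3 := 0) (b0 := g 1) (b1 := g 2) (b2 := g 0) (b3 := 0) (by linear_combination h1)
      (by linear_combination h4) (by linear_combination h6)
  have p03 : f 0 * g 3 - f 3 * g 0 = 0 := by
    simpa using gram (e0 := 1) (e1 := -1) (e2 := -1) (e3 := 0) (a0 := f 0) (a1 := f 3) (a2 := f 1)
      (a3 := 0) (b0 := g 0) (b1 := g 3) (b2 := g 1) (b3 := 0) (by linear_combination h3)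
      (by linear_combination h5) (by linear_combination h7)
  have p13 : f 1 * g 3 - f 3 * g 1 = 0 := by
    simpa using gram (e0 := -1) (e1 := -1) (e2 := 1) (e3 := 0) (a0 := f 1) (a1 := f 3) (a2 := f 0)
      (a3 := 0) (b0 := g 1) (b1 := g 3) (b2 := g 0) (b3 := 0) (by linear_combination h3)
      (by linear_combination h5) (by linear_combination h7)
  have p23 : f 2 * g 3 - f 3 * g 2 = 0 := by
    simpa using gram (e0 := 1) (e1 := 1) (e2 := 2) (e3 := 0) (a0 := f 2) (a1 := f 3) (a2 := f 1)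
      (a3 := 0) (b0 := g 2) (b1 := g 3) (b2 := g 1) (b3 := 0) (by linear_combination h1 - h3)
      (by linear_combination h4 - h5) (by linear_combination h6 - h7)
  fin_cases i <;> fin_cases j <;> simp only [Fin.zero_eta, Fin.mk_one, Fin.reduceFinMk] <;>
    first | exact sub_self _ | assumption | (rw [← neg_eq_zero, neg_sub]; assumption)

theorem good_res (h2 : (2 : F) ≠ 0) {c1 c2 : F} (hc : c1 ≠ 0 ∨ c2 ≠ 0) {f g : Fin 4 → F}
    {i j : Fin 4} (hm : f i * g j - f j * g i ≠ 0) (h1 : c2 * B1 f f = c1 * B2 f f)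
    (h3 : c2 * B1 f g = c1 * B2 f g) (h4 : c2 * B1 g g = c1 * B2 g g)
    (h5 : B1 f f * B1 g g - B1 f g ^ 2 = 0) (h6 : B2 f f * B2 g g - B2 f g ^ 2 = 0) :
    Good fun i j => ∃ z, z ≠ 0 ∧ Ee c1 c2 i * Ee c1 c2 j = z ^ 2 := by
  obtain ⟨α, β, γ, e1, e2, e3, e4, e5, e6, e7⟩ : ∃ α β γ, B1 f f = c1 * α ∧ B2 f f = c2 * α ∧
      B1 f g = c1 * β ∧ B2 f g = c2 * β ∧ B1 g g = c1 * γ ∧ B2 g g = c2 * γ ∧ α * γ = β ^ 2 := by
    rcases hc with hc | hc
    · refine ⟨B1 f f / c1, B1 f g / c1, B1 g g / c1, ?_, ?_, ?_, ?_, ?_, ?_, ?_⟩ <;> field_simp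
      exacts [by linear_combination -h1, by linear_combination -h3, by linear_combination -h4,
        by linear_combination h5]
    · refine ⟨B2 f f / c2, B2 f g / c2, B2 g g / c2, ?_, ?_, ?_, ?_, ?_, ?_, ?_⟩ <;> field_simp
      exacts [by linear_combination h1, by linear_combination h3, by linear_combination h4,
        by linear_combination h6]
  by_cases hα : α = 0
  · have hβ : β = 0 := by simpa [hα] using e7.symm
    rw [hα, mul_zero] at e1 e2
    rw [hβ, mul_zero] at e3 e4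
    by_cases hγ : γ = 0
    · rw [hγ, mul_zero] at e5 e6
      exact absurd (minors_zero e1 e2 e3 e4 e5 e6 i j) hm
    · exact good_core h2 hc hγ (by rintro rfl; simp at hm) e1 e2 e3 e4 e5 e6
  · refine good_core (a := fun i => α * g i - β * f i) h2 hc hα (fun h => hm ?_) ?_ ?_ ?_ ?_ e1 e2
    · apply mul_left_cancel₀ hα
      have hi := congrFun h i
      have hj := congrFun h j
      simp only [Pi.zero_apply] at hi hj
      linear_combination f i * hj - f j * hi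
    all_goals simp only [B1, B2] at *
    · linear_combination β ^ 2 * e1 - 2 * α * β * e3 + α ^ 2 * e5 + c1 * α * e7
    · linear_combination β ^ 2 * e2 - 2 * α * β * e4 + α ^ 2 * e6 + c2 * α * e7
    · linear_combination α * e3 - β * e1
    · linear_combination α * e4 - β * e2

end Field

section Val

variable {k Γ : Type} [Field k] [LinearOrderedCommGroupWithZero Γ] (v : Valuation k Γ)

theorem exists_res : ∃ (F : Type) (_ : Field F) (ρ : v.integer →+* F), Function.Surjective ρ ∧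
    ∀ x, ρ x = 0 ↔ v x < 1 := by
  have : ValuationRing v.integer := ValuationRing.of_integers v (Valuation.integer.integers v)
  refine ⟨IsLocalRing.ResidueField v.integer, inferInstance, IsLocalRing.residue _,
    IsLocalRing.residue_surjective, fun x => ?_⟩
  rw [IsLocalRing.residue_eq_zero_iff, IsLocalRing.mem_maximalIdeal, mem_nonunits_iff,
    Valuation.Integer.not_isUnit_iff_valuation_lt_one]

theorem exists_max {ι : Type} [Finite ι] (x : ι → k) {j : ι} (hj : x j ≠ 0) :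
    ∃ i, x i ≠ 0 ∧ ∀ l, v (x l / x i) ≤ 1 := by
  have : Nonempty ι := ⟨j⟩
  obtain ⟨i, hi⟩ := Finite.exists_max fun i => v (x i)
  have h0 : 0 < v (x i) := ((v.pos_iff).2 hj).trans_le (hi j)
  exact ⟨i, v.pos_iff.1 h0, fun l => by rw [map_div₀, div_le_one₀ h0]; exact hi l⟩

theorem exists_norm {c1 c2 : k} (hc : c1 ≠ 0 ∨ c2 ≠ 0) : ∃ (μ : k) (d1 d2 : v.integer),
    μ ≠ 0 ∧ c1 = μ * d1 ∧ c2 = μ * d2 ∧ (d1 = 1 ∨ d2 = 1) := by
  obtain ⟨j, hj⟩ : ∃ j, ![c1, c2] j ≠ 0 := hc.elim (fun h => ⟨0, h⟩) fun h => ⟨1, h⟩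
  obtain ⟨i, h1, h2⟩ := exists_max v _ hj
  refine ⟨_, ⟨_, h2 0⟩, ⟨_, h2 1⟩, h1, (mul_div_cancel₀ _ h1).symm, (mul_div_cancel₀ _ h1).symm, ?_⟩
  fin_cases i
  · exact Or.inl (Subtype.ext (div_self h1))
  · exact Or.inr (Subtype.ext (div_self h1))

theorem good_even (h2 : v 2 = 1) {c1 c2 : k} (hc : c1 ≠ 0 ∨ c2 ≠ 0) :
    Good fun i j => ∃ y, v (Ee c1 c2 i * Ee c1 c2 j * y ^ 2) = 1 := by
  obtain ⟨F, _, ρ, -, hρ⟩ := exists_res v
  obtain ⟨μ, d1, d2, hμ, rfl, rfl, hd⟩ := exists_norm v hc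
  have h3 : (2 : F) ≠ 0 := by
    rw [← map_ofNat ρ 2, Ne, hρ]; exact h2.not_lt
  refine (good_ne h3 (c1 := ρ d1) (c2 := ρ d2) (hd.imp (by rintro rfl; simp)
    (by rintro rfl; simp))).mono fun i j h => ⟨μ⁻¹, ?_⟩
  rw [← map_Ee, ← map_Ee, ← map_mul, Ne, hρ, not_lt] at h
  have e : ∀ i, ((Ee d1 d2 i : v.integer) : k) = Ee (d1 : k) d2 i := map_Ee v.integer.subtype d1 d2
  rw [Ee_mul, Ee_mul, ← e, ← e, ← le_antisymm (Ee d1 d2 i * Ee d1 d2 j).2 h]
  congr 1
  push_cast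
  field_simp

theorem good_loc (h2 : v 2 = 1) {d : k} (hd : ∀ y, v (d * y ^ 2) ≠ 1) {a b : Fin 4 → k}
    (hc : B1 b b ≠ 0 ∨ B2 b b ≠ 0) (h1 : B1 a a + d * B1 b b = 0) (h3 : B2 a a + d * B2 b b = 0)
    (h4 : B1 a b = 0) (h5 : B2 a b = 0) {i j : Fin 4} (hm : a i * b j - a j * b i ≠ 0) :
    Good fun i j => ∃ y z, v z = 1 ∧
      v (Ee (B1 b b) (B2 b b) i * Ee (B1 b b) (B2 b b) j * y ^ 2 - z ^ 2) < 1 := by
  obtain ⟨F, _, ρ, hs, hρ⟩ := exists_res v
  obtain ⟨μ, d1, d2, hμ, e1, e2, hd'⟩ := exists_norm v hc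
  have h6 : (2 : F) ≠ 0 := by
    rw [← map_ofNat ρ 2, Ne, hρ]; exact h2.not_lt
  obtain ⟨⟨i, j⟩, h7, h8⟩ := exists_max v (fun l : Fin 4 × Fin 4 => a l.1 * b l.2 - a l.2 * b l.1)
    (j := (i, j)) hm
  simp only at h7 h8
  set π := a i * b j - a j * b i with hπ
  let f : Fin 4 → v.integer := fun l => ⟨_, h8 (i, l)⟩
  let g : Fin 4 → v.integer := fun l => ⟨_, h8 (j, l)⟩
  have k1 : ∀ s t : Fin 4, B1 (fun l => (a s * b l - a l * b s) / π)
      (fun l => (a t * b l - a l * b t) / π) = μ * d1 * (a s * a t - d * b s * b t) / π ^ 2 := by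
    intro s t
    rw [← e1]
    simp only [B1] at *
    field_simp
    linear_combination b s * b t * h1 - (a s * b t + a t * b s) * h4
  have k2 : ∀ s t : Fin 4, B2 (fun l => (a s * b l - a l * b s) / π)
      (fun l => (a t * b l - a l * b t) / π) = μ * d2 * (a s * a t - d * b s * b t) / π ^ 2 := by
    intro s t
    rw [← e2]
    simp only [B2] at *
    field_simp
    linear_combination b s * b t * h3 - (a s * b t + a t * b s) * h5
  have c1 : ∀ x y : Fin 4 → v.integer, ((B1 x y : v.integer) : k) =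
      B1 (fun l => (x l : k)) (fun l => (y l : k)) := map_B1 v.integer.subtype
  have c2 : ∀ x y : Fin 4 → v.integer, ((B2 x y : v.integer) : k) =
      B2 (fun l => (x l : k)) (fun l => (y l : k)) := map_B2 v.integer.subtype
  have k3 : ∀ x y : Fin 4 → v.integer, (d2 : k) * B1 (fun l => (x l : k)) (fun l => (y l : k)) =
      d1 * B2 (fun l => (x l : k)) (fun l => (y l : k)) →
      ρ d2 * B1 (fun l => ρ (x l)) (fun l => ρ (y l)) =
        ρ d1 * B2 (fun l => ρ (x l)) (fun l => ρ (y l)) := fun x y h => by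
    rw [← map_B1, ← map_B2, ← map_mul, ← map_mul]
    exact congrArg ρ (Subtype.ext (by rw [← c1, ← c2] at h; exact h))
  have k4 : ∀ (x : v.integer) (y : k), (x : k) = -(d * y ^ 2) → ρ x = 0 := fun x y h => by
    rw [hρ]
    refine lt_of_le_of_ne x.2 ?_
    rw [h, Valuation.map_neg]
    exact hd y
  refine (good_res h6 (c1 := ρ d1) (c2 := ρ d2) (hd'.imp (by rintro rfl; simp)
    (by rintro rfl; simp)) (f := fun l => ρ (f l)) (g := fun l => ρ (g l)) (i := i) (j := j)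
    ?_ (k3 f f ?_) (k3 f g ?_) (k3 g g ?_) ?_ ?_).mono ?_
  · have : f i * g j - f j * g i = 1 := Subtype.ext (by
      simp only [f, g]; push_cast; field_simp; rw [hπ]; ring)
    simp only [← map_mul, ← map_sub, this, map_one]
    exact one_ne_zero
  · simp only [f]; rw [k1, k2]; ring
  · simp only [f, g]; rw [k1, k2]; ring
  · simp only [g]; rw [k1, k2]; ring
  · simp only [← map_B1, ← map_mul, ← map_pow, ← map_sub]
    refine k4 _ (μ * d1 / π) ?_
    push_cast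
    simp only [c1, f, g, k1]
    field_simp
    rw [hπ]; ring
  · simp only [← map_B2, ← map_mul, ← map_pow, ← map_sub]
    refine k4 _ (μ * d2 / π) ?_
    push_cast
    simp only [c2, f, g, k2]
    field_simp
    rw [hπ]; ring
  · rintro s t ⟨z, hz, h⟩
    obtain ⟨z, rfl⟩ := hs z
    refine ⟨μ⁻¹, z, le_antisymm z.2 (not_lt.1 fun h => hz ((hρ z).2 h)), ?_⟩
    rw [← map_Ee, ← map_Ee, ← map_mul, ← map_pow, ← sub_eq_zero, ← map_sub, hρ] at h
    have e : ∀ i, ((Ee d1 d2 i : v.integer) : k) = Ee (d1 : k) d2 i :=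
      map_Ee v.integer.subtype d1 d2
    rw [e1, e2, Ee_mul, Ee_mul, ← e, ← e]
    refine lt_of_eq_of_lt (congrArg v ?_) h
    push_cast
    field_simp

end Val

end Pool.Agent.Lib.MP_97eeef_nt.NP
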