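import Pool.Agent.Lib.MP_97eeef_nt.NPRad

/-! Fields with approximate roots generate the algebraic closure of the p-adic numbers. -/

namespace Pool.Agent.Lib.MP_97eeef_nt.NP

open Polynomial Module IntermediateField IsUltrametricDist

variable {p : ℕ} [hp : Fact p.Prime]

theorem norm_aut (F : IntermediateField ℚ_[p] (PadicAlgCl p))
    (σ : PadicAlgCl p ≃ₐ[F] PadicAlgCl p) (x : PadicAlgCl p) : ‖σ x‖ = ‖x‖ :=
  (spectralNorm_eq_of_equiv (σ.restrictScalars ℚ_[p]) x).symm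

theorem norm_sub_max (x y : PadicAlgCl p) : ‖x - y‖ ≤ max ‖x‖ ‖y‖ := by
  simpa [sub_eq_add_neg] using norm_add_le_max x (-y)

theorem exists_root_close {n : ℕ} (hn : 0 < n) (a x : PadicAlgCl p) :
    ∃ ρ, ρ ^ n = a ∧ ‖x - ρ‖ ^ n ≤ ‖x ^ n - a‖ := by
  have : NeZero n := ⟨hn.ne'⟩
  obtain ⟨ζ, hζ⟩ := HasEnoughRootsOfUnity.exists_primitiveRoot (PadicAlgCl p) n
  obtain ⟨α, hα⟩ := IsAlgClosed.exists_pow_nat_eq a hn
  have h := congrArg (fun f => ‖eval x f‖) (X_pow_sub_C_eq_prod hζ hn hα)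
  simp only [eval_sub, eval_pow, eval_X, eval_C, eval_prod, norm_prod] at h
  obtain ⟨i, -, hi⟩ := Finset.exists_min_image (Finset.range n) (fun i => ‖x - ζ ^ i * α‖)
    ⟨0, Finset.mem_range.2 hn⟩
  refine ⟨ζ ^ i * α, by rw [mul_pow, ← pow_mul, mul_comm i, pow_mul, hζ.pow_eq_one, hα]; simp, ?_⟩
  rw [h]
  refine le_trans ?_ (Finset.prod_le_prod (fun _ _ => norm_nonneg _) hi)
  simp

theorem eq_one_of_close {n : ℕ} (hn : 0 < n) {η : PadicAlgCl p} (h : η ^ n = 1)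
    (h' : ‖1 - η‖ < ‖(n : PadicAlgCl p)‖) : η = 1 := by
  by_contra h1
  have h2 : ‖η‖ = 1 := by
    rw [← pow_eq_one_iff_of_nonneg (norm_nonneg _) hn.ne', ← norm_pow, h, norm_one]
  have h3 : ∀ i : ℕ, ‖1 - η ^ i‖ ≤ ‖1 - η‖ := fun i => by
    induction i with
    | zero => simp
    | succ i ih =>
      rw [show 1 - η ^ (i + 1) = (1 - η ^ i) + η ^ i * (1 - η) by ring]
      refine (norm_add_le_max _ _).trans (max_le ih ?_)
      rw [norm_mul, norm_pow, h2]; simp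
  have h4 : (n : PadicAlgCl p) = ∑ i ∈ Finset.range n, (1 - η ^ i) := by
    rw [Finset.sum_sub_distrib, geom_sum_eq h1, h]; simp
  rw [h4] at h'
  exact h'.not_ge (norm_sum_le_of_forall_le_of_nonneg (norm_nonneg _) fun i _ => h3 i)

theorem root_mem (F : IntermediateField ℚ_[p] (PadicAlgCl p)) {n : ℕ} (hn : 0 < n)
    {a b : PadicAlgCl p} (ha : a ∈ F) (hb : b ∈ F)
    (h : ‖b ^ n - a‖ < ‖(n : PadicAlgCl p) ^ n * a‖) : ∃ ρ ∈ F, ρ ^ n = a := by
  obtain ⟨ρ, h1, h2⟩ := exists_root_close hn a b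
  refine ⟨ρ, ?_, h1⟩
  have h3 : ‖b - ρ‖ < ‖(n : PadicAlgCl p) * ρ‖ := by
    refine lt_of_pow_lt_pow_left₀ n (norm_nonneg _) (h2.trans_lt ?_)
    rwa [← norm_pow, mul_pow, h1]
  have h0 : ρ ≠ 0 := by
    rintro rfl
    exact (norm_nonneg _).not_gt (by simpa using h3)
  have : IsGalois F (PadicAlgCl p) := {}
  obtain ⟨y, rfl⟩ := (InfiniteGalois.mem_range_algebraMap_iff_fixed (k := F) ρ).2 fun σ => by
    have h4 : σ b = b := σ.commutes ⟨b, hb⟩
    have h5 : σ a = a := σ.commutes ⟨a, ha⟩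
    rw [← div_eq_one_iff_eq h0]
    refine eq_one_of_close hn (by rw [div_pow, ← map_pow, h1, h5, ← h1,
      div_self (pow_ne_zero _ h0)]) ?_
    rw [one_sub_div h0, norm_div, div_lt_iff₀ (norm_pos_iff.2 h0), ← norm_mul,
      show ρ - σ ρ = σ (b - ρ) - (b - ρ) by rw [map_sub, h4]; ring]
    refine (norm_sub_max _ _).trans_lt ?_
    rwa [norm_aut, max_self]
  exact y.2

theorem exists_pow_close {x : PadicAlgCl p} (hx : x ≠ 0) :
    ∃ n : ℕ, 0 < n ∧ ∃ c : ℚ_[p], ‖x ^ n - algebraMap _ _ c‖ < ‖x‖ ^ n := by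
  let S := Subalgebra.toSubmodule (Algebra.adjoin ℚ_[p] {x})
  have : FiniteDimensional ℚ_[p] S :=
    Module.Finite.iff_fg.2 (Algebra.IsIntegral.isIntegral x).fg_adjoin_singleton
  have : ProperSpace S := FiniteDimensional.proper ℚ_[p] S
  obtain ⟨c, hc⟩ := NormedField.exists_one_lt_norm ℚ_[p]
  choose d h0 h1 h2 _ using fun k : ℕ => rescale_to_shell hc one_pos (pow_ne_zero k hx)
  let u : ℕ → S := fun k => ⟨d k • x ^ k, S.smul_mem _
    (pow_mem (Algebra.self_mem_adjoin_singleton ℚ_[p] x) k)⟩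
  obtain ⟨a, -, φ, h3, h4⟩ := tendsto_subseq_of_bounded (Metric.isBounded_ball (x := 0) (r := 1))
    (x := u) fun k => mem_ball_zero_iff.2 (h1 k)
  obtain ⟨N, hN⟩ := Metric.cauchySeq_iff'.1 h4.cauchySeq (1 / ‖c‖) (by positivity)
  have h5 : ‖d (φ (N + 1)) • x ^ φ (N + 1) - d (φ N) • x ^ φ N‖ < 1 / ‖c‖ := by
    simpa only [dist_eq_norm] using! hN (N + 1) (by omega)
  obtain ⟨n, hn⟩ := Nat.exists_eq_add_of_lt (h3 (lt_add_one N))
  refine ⟨n + 1, n.succ_pos, d (φ N) / d (φ (N + 1)), ?_⟩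
  replace h5 := h5.trans_le (h2 (φ (N + 1)))
  have h6 : algebraMap ℚ_[p] (PadicAlgCl p) (d (φ (N + 1))) ≠ 0 := by simpa using h0 _
  have h7 : 0 < ‖algebraMap ℚ_[p] (PadicAlgCl p) (d (φ (N + 1))) * x ^ φ N‖ :=
    norm_pos_iff.2 (mul_ne_zero h6 (pow_ne_zero _ hx))
  rw [← mul_lt_mul_iff_right₀ h7, ← norm_pow, ← norm_mul, ← norm_mul]
  have h8 : x ^ φ (N + 1) = x ^ φ N * x ^ (n + 1) := by rw [hn]; ring
  rw [Algebra.smul_def, Algebra.smul_def, h8, ← mul_assoc] at h5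
  refine lt_of_eq_of_lt (congrArg _ ?_) h5
  rw [map_div₀]
  field_simp

theorem top_of_roots (F : IntermediateField ℚ_[p] (PadicAlgCl p))
    (hF : ∀ l : ℕ, l.Prime → ∀ a : F, ∃ b : F, b ^ l = a) : F = ⊤ := by
  have : IsGalois F (PadicAlgCl p) := {}
  have h1 : ∀ (σ : PadicAlgCl p ≃ₐ[F] PadicAlgCl p) (x : PadicAlgCl p), x ≠ 0 →
      ‖x - σ x‖ < ‖x‖ := by
    intro σ x hx
    obtain ⟨n, hn, c, hc⟩ := exists_pow_close hx
    obtain ⟨ρ, h2, h3⟩ := exists_root_close hn (algebraMap _ _ c) x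
    have h4 := lt_of_pow_lt_pow_left₀ n (norm_nonneg _) (h3.trans_lt hc)
    obtain ⟨y, rfl⟩ := mem_of_gal_solv hF (X_pow_sub_C_ne_zero hn (algebraMap ℚ_[p] F c))
      (gal_X_pow_sub_C_isSolvable n _) (x := ρ) (by
        rw [map_sub, map_pow, aeval_X, aeval_C, h2]; exact sub_self _)
    rw [show x - σ x = (x - algebraMap _ _ y) - σ (x - algebraMap _ _ y) by
      rw [map_sub, σ.commutes]; ring]
    refine (norm_sub_max _ _).trans_lt ?_
    rwa [norm_aut, max_self]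
  rw [eq_top_iff]
  intro x _
  have hx : IsIntegral F x := Algebra.IsIntegral.isIntegral x
  let L := (minpoly F x).SplittingField
  let : Algebra L (PadicAlgCl p) := (IsAlgClosed.lift : L →ₐ[F] PadicAlgCl p).toAlgebra
  have : IsScalarTower F L (PadicAlgCl p) :=
    IsScalarTower.of_algHom (IsAlgClosed.lift : L →ₐ[F] PadicAlgCl p)
  have h2 : IsPGroup p Gal(L/F) := by
    refine IsPGroup.of_card (Nat.eq_prime_pow_of_unique_prime_dvd Nat.card_pos.ne' ?_)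
    intro l hl hd
    have := Fact.mk hl
    obtain ⟨g, hg⟩ := exists_prime_orderOf_dvd_card' l hd
    obtain ⟨z, hz⟩ : ∃ z, g z ≠ z := by
      by_contra! h
      rw [AlgEquiv.ext h (A₁ := L) (g := 1), orderOf_one] at hg
      exact hl.ne_one hg.symm
    have h3 : algebraMap L (PadicAlgCl p) (g z - z) ≠ 0 := by simpa [sub_eq_zero] using hz
    have h4 : (l : L) * (g z - z) = ∑ i ∈ Finset.range l, ((g z - z) - (g ^ i) (g z - z)) := by
      have : ∀ i : ℕ, (g ^ i) (g z - z) = (g ^ (i + 1)) z - (g ^ i) z := fun i => by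
        rw [map_sub, pow_succ, AlgEquiv.mul_apply]
      simp only [this]
      rw [Finset.sum_sub_distrib, Finset.sum_range_sub (fun i => (g ^ i) z), ← hg,
        pow_orderOf_eq_one]
      simp [mul_sub]
    obtain ⟨i, -, hi⟩ := exists_norm_finsetSum_le_of_nonempty
      (Finset.nonempty_range_iff.2 hl.ne_zero)
      (fun i => algebraMap L (PadicAlgCl p) ((g z - z) - (g ^ i) (g z - z)))
    rw [← map_sum, ← h4, map_mul, map_sub _ (g z - z), ← (g ^ i).liftNormal_commutes,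
      norm_mul] at hi
    have h5 := (mul_lt_iff_lt_one_left (norm_pos_iff.2 h3)).1 (hi.trans_lt (h1 _ _ h3))
    rw [map_natCast, ← map_natCast (algebraMap ℚ_[p] (PadicAlgCl p)), norm_algebraMap',
      Padic.norm_natCast_lt_one_iff] at h5
    exact ((Nat.prime_dvd_prime_iff_eq hp.out hl).1 h5).symm
  have := h2.isNilpotent
  obtain ⟨y, rfl⟩ := mem_of_gal_solv hF (minpoly.ne_zero hx)
    (inferInstanceAs (Group.IsSolvable Gal(L/F))) (minpoly.aeval F x)
  exact y.2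

theorem adjoin_top {K : Type} [Field K] [CharZero K] (σ : K →+* PadicAlgCl p)
    (h : ∀ l : ℕ, l.Prime → ∀ a : K, a ≠ 0 →
      ∃ b : K, ‖σ b ^ l - σ a‖ < ‖(l : PadicAlgCl p) ^ l * σ a‖) :
    adjoin ℚ_[p] (Set.range σ) = ⊤ := by
  have h1 : adjoin ℚ_[p] (Set.range σ) ≤
      σ.fieldRange.topologicalClosure.toIntermediateField (fun c => by
        refine (Padic.denseRange_ratCast p).induction_on c
          (isClosed_closure.preimage (continuous_algebraMap _ _)) fun q => subset_closure ?_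
        exact ⟨q, by simp⟩) := adjoin_le_iff.2 subset_closure
  refine top_of_roots _ fun l hl a => ?_
  by_cases ha : a = 0
  · exact ⟨0, by rw [ha, zero_pow hl.ne_zero]⟩
  have ha' : (a : PadicAlgCl p) ≠ 0 := by simpa using ha
  have h2 : 0 < ‖(l : PadicAlgCl p) ^ l * a‖ :=
    norm_pos_iff.2 (mul_ne_zero (pow_ne_zero _ (Nat.cast_ne_zero.2 hl.ne_zero)) ha')
  obtain ⟨_, ⟨a', rfl⟩, h3⟩ := Metric.mem_closure_iff.1 (h1 a.2) _ h2
  rw [dist_comm, dist_eq_norm] at h3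
  have h4 : ‖σ a'‖ = ‖(a : PadicAlgCl p)‖ := by
    have h5 : ‖σ a' - a‖ < ‖(a : PadicAlgCl p)‖ := h3.trans_le (by
      rw [norm_mul, norm_pow]
      exact mul_le_of_le_one_left (norm_nonneg _)
        (pow_le_one₀ (norm_nonneg _) (norm_natCast_le_one _ l)))
    have := norm_add_eq_max_of_norm_ne_norm h5.ne
    rwa [sub_add_cancel, max_eq_right h5.le] at this
  obtain ⟨b, hb⟩ := h l hl a' (by
    rintro rfl
    rw [map_zero, norm_zero] at h4
    exact ha' (norm_eq_zero.1 h4.symm))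
  rw [norm_mul, h4, ← norm_mul] at hb
  obtain ⟨ρ, h5, h6⟩ := root_mem _ hl.pos a.2 (subset_adjoin _ _ ⟨b, rfl⟩) (by
    rw [← sub_add_sub_cancel _ (σ a')]
    exact (norm_add_le_max _ _).trans_lt (max_lt hb h3))
  exact ⟨⟨ρ, h5⟩, Subtype.ext h6⟩

end Pool.Agent.Lib.MP_97eeef_nt.NP
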