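import Mathlib

/-! Pairs of diagonal quadratic forms under extensions of odd degree. -/

namespace Pool.Agent.Lib.MP_97eeef_nt.NP

open Polynomial

variable {ι : Type} [Fintype ι]

theorem exists_odd_factor {F : Type*} [Field F] (h : F[X]) (hh : Odd h.natDegree) :
    ∃ m : F[X], Irreducible m ∧ Odd m.natDegree ∧ m ∣ h := by
  induction h using WfDvdMonoid.induction_on_irreducible with
  | zero => simp at hh
  | unit u hu => rw [natDegree_eq_zero_of_isUnit hu] at hh; simp at hh
  | mul a i ha hi ih =>
    rw [natDegree_mul hi.ne_zero ha] at hh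
    rcases Nat.even_or_odd i.natDegree with h1 | h1
    · obtain ⟨m, h2, h3, h4⟩ := ih (by
        rcases Nat.even_or_odd a.natDegree with h2 | h2
        · exact absurd (h1.add h2) (Nat.not_even_iff_odd.2 hh)
        · exact h2)
      exact ⟨m, h2, h3, h4.mul_left _⟩
    · exact ⟨i, hi, h1, dvd_mul_right _ _⟩

theorem springer {F : Type*} [Field F] (a : ι → F)
    (han : ∀ v : ι → F, ∑ i, a i * v i ^ 2 = 0 → v = 0) (n : ℕ) :
    ∀ m : F[X], Irreducible m → Odd m.natDegree → m.natDegree = n →
      ∀ y : ι → F[X], m ∣ ∑ i, C (a i) * y i ^ 2 → ∀ i, m ∣ y i := by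
  classical
  induction n using Nat.strong_induction_on with
  | _ n ih =>
  intro m hm hodd hn
  have inner : ∀ e : ℕ, e < n → ∀ y : ι → F[X], Finset.univ.sup (fun i => (y i).natDegree) = e →
      m ∣ ∑ i, C (a i) * y i ^ 2 → y = 0 := by
    intro e
    induction e using Nat.strong_induction_on with
    | _ e ihe =>
    intro hen y hy hd
    by_contra hy0
    have hle : ∀ i, (y i).natDegree ≤ e := fun i =>
      hy ▸ Finset.le_sup (f := fun i => (y i).natDegree) (Finset.mem_univ i)
    obtain ⟨i0, hi0, hi1⟩ : ∃ i, y i ≠ 0 ∧ (y i).natDegree = e := by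
      obtain ⟨j, hj⟩ := Function.ne_iff.1 hy0
      obtain ⟨i, -, hi⟩ := Finset.exists_mem_eq_sup Finset.univ ⟨j, Finset.mem_univ j⟩
        (fun i => (y i).natDegree)
      by_cases h0 : y i = 0
      · refine ⟨j, hj, le_antisymm (hle j) ?_⟩
        rw [← hy, hi, h0]; simp
      · exact ⟨i, h0, by rw [← hy, hi]⟩
    have hc : (∑ i, C (a i) * y i ^ 2).coeff (2 * e) ≠ 0 := by
      rw [finsetSum_coeff]
      simp only [coeff_C_mul, coeff_pow_of_natDegree_le (hle _)]
      intro h
      have := congrFun (han _ h) i0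
      rw [← hi1] at this
      exact hi0 (leadingCoeff_eq_zero.1 this)
    have hdeg : (∑ i, C (a i) * y i ^ 2).natDegree = 2 * e := by
      refine natDegree_eq_of_le_of_coeff_ne_zero ?_ hc
      refine natDegree_sum_le_of_forall_le _ _ fun i _ => (natDegree_C_mul_le _ _).trans ?_
      exact natDegree_pow_le.trans (Nat.mul_le_mul_left 2 (hle i))
    obtain ⟨h, hh⟩ := hd
    have hh0 : h ≠ 0 := by
      rintro rfl
      rw [hh] at hc; simp at hc
    rw [hh, natDegree_mul hm.ne_zero hh0, hn] at hdeg
    rw [hn] at hodd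
    obtain ⟨m', h1, h2, h3⟩ := exists_odd_factor h (by
      obtain ⟨t, ht⟩ := hodd
      exact ⟨e - t - 1, by omega⟩)
    have h4 : m'.natDegree < n := (natDegree_le_of_dvd h3 hh0).trans_lt (by omega)
    have h5 := ih _ h4 m' h1 h2 rfl y (hh ▸ h3.mul_left _)
    choose z hz using h5
    have h6 : m ∣ ∑ i, C (a i) * z i ^ 2 := by
      have e1 : m * h = m' ^ 2 * ∑ i, C (a i) * z i ^ 2 := by
        rw [← hh, Finset.mul_sum]
        exact Finset.sum_congr rfl fun i _ => by rw [hz i]; ring
      refine (hm.prime.dvd_or_dvd (e1 ▸ dvd_mul_right m h)).resolve_left fun h7 => ?_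
      have := natDegree_le_of_dvd (hm.prime.dvd_of_dvd_pow h7) h1.ne_zero
      omega
    have hpos : 0 < m'.natDegree := h2.pos
    have h7 : ∀ i, (z i).natDegree + m'.natDegree ≤ e ∨ z i = 0 := fun i => by
      by_cases h0 : z i = 0
      · exact Or.inr h0
      · left
        have := hle i
        rw [hz i, natDegree_mul h1.ne_zero h0] at this
        omega
    have h8 : m'.natDegree ≤ e := by
      rcases h7 i0 with h9 | h9
      · omega
      · exact absurd (by rw [hz i0, h9, mul_zero]) hi0
    have h9 : Finset.univ.sup (fun i => (z i).natDegree) < e := by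
      rw [Finset.sup_lt_iff (by simpa using hpos.trans_le h8)]
      intro i _
      rcases h7 i with h9 | h9
      · omega
      · rw [h9, natDegree_zero]; omega
    have := ihe _ h9 (h9.trans hen) z rfl h6
    exact hi0 (by rw [hz i0, this]; simp)
  intro y hy i
  have hpos : 0 < n := hn ▸ hodd.pos
  have := inner _ ?_ (fun i => y i % m) rfl ?_
  · exact EuclideanDomain.mod_eq_zero.1 (congrFun this i)
  · rw [Finset.sup_lt_iff (by simpa using hpos)]
    intro i _
    rw [← hn]
    exact natDegree_mod_lt _ (by omega)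
  · have : ∑ i, C (a i) * (y i % m) ^ 2 = ∑ i, C (a i) * y i ^ 2 -
        m * ∑ i, C (a i) * (y i / m) * (y i + y i % m) := by
      rw [Finset.mul_sum, ← Finset.sum_sub_distrib]
      refine Finset.sum_congr rfl fun i _ => ?_
      have := EuclideanDomain.div_add_mod (y i) m
      linear_combination (C (a i) * (y i + y i % m)) * this
    rw [this]
    exact dvd_sub hy (dvd_mul_right _ _)

theorem brumer {k : Type*} [Field k] (α β : ι → k)
    (han : ∀ v : ι → k, ∑ i, α i * v i ^ 2 = 0 → ∑ i, β i * v i ^ 2 = 0 → v = 0) (d : ℕ) :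
    ∀ v : ι → k[X], (∀ i, (v i).natDegree ≤ d) →
      ∑ i, (C (α i) + X * C (β i)) * v i ^ 2 = 0 → v = 0 := by
  have hQ : ∀ w : ι → k, ∑ i, (C (α i) + X * C (β i)) * C (w i) ^ 2 =
      C (∑ i, α i * w i ^ 2) + X * C (∑ i, β i * w i ^ 2) := fun w => by
    simp only [map_sum, Finset.mul_sum, ← Finset.sum_add_distrib, map_mul, map_pow]
    exact Finset.sum_congr rfl fun i _ => by ring
  have hA : ∀ i, (C (α i) + X * C (β i)).natDegree ≤ 1 := fun i => by compute_degree
  induction d with
  | zero =>
    intro v hv h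
    have e : ∀ i, v i = C ((v i).coeff 0) := fun i => eq_C_of_natDegree_le_zero (hv i)
    have h' := hQ fun i => (v i).coeff 0
    simp only [← e] at h'
    rw [h] at h'
    have := han (fun i => (v i).coeff 0)
      (by simpa [-map_sum] using (congrArg (coeff · 0) h').symm)
      (by simpa [-map_sum] using (congrArg (coeff · 1) h').symm)
    funext i
    rw [e i, congrFun this i]; simp
  | succ d ih =>
    intro v hv h
    set w : ι → k := fun i => (v i).coeff (d + 1) with hw
    set r : ι → k[X] := fun i => v i - C (w i) * X ^ (d + 1) with hr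
    have hrd : ∀ i, (r i).natDegree ≤ d := fun i => by
      rw [natDegree_le_iff_coeff_eq_zero]
      intro N hN
      simp only [hr, coeff_sub, coeff_C_mul, coeff_X_pow]
      split_ifs with h1
      · simp [h1, hw]
      · rw [coeff_eq_zero_of_natDegree_lt ((hv i).trans_lt (by omega))]; simp
    set B : k[X] := ∑ i, (C (α i) + X * C (β i)) * C (w i) * r i with hB
    set c := ∑ i, α i * w i ^ 2 with hc
    set c' := ∑ i, β i * w i ^ 2 with hc'
    have key : ∀ s : k[X], ∑ i, (C (α i) + X * C (β i)) * (r i + s * C (w i)) ^ 2 =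
        ∑ i, (C (α i) + X * C (β i)) * r i ^ 2 + 2 * s * B + s ^ 2 * (C c + X * C c') := by
      intro s
      rw [hc, hc', ← hQ w, hB]
      simp only [Finset.mul_sum, ← Finset.sum_add_distrib]
      exact Finset.sum_congr rfl fun i _ => by ring
    have hv' : ∀ i, v i = r i + X ^ (d + 1) * C (w i) := fun i => by simp only [hr]; ring
    have h1 := key (X ^ (d + 1))
    simp only [← hv'] at h1
    rw [h] at h1
    set G : k[X] := X ^ (d + 1) * (C c + X * C c') + 2 * B with hG
    have hBd : B.natDegree ≤ d + 1 := by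
      refine natDegree_sum_le_of_forall_le _ _ fun i _ => natDegree_mul_le.trans ?_
      have h2 : ((C (α i) + X * C (β i)) * C (w i)).natDegree ≤ 1 :=
        (natDegree_mul_C_le _ _).trans (hA i)
      have := hrd i
      omega
    have hGd : G.natDegree ≤ d := by
      by_cases h0 : G = 0
      · simp [h0]
      have h2 : X ^ (d + 1) * G = -∑ i, (C (α i) + X * C (β i)) * r i ^ 2 := by
        rw [hG]; linear_combination -h1
      have h3 : (X ^ (d + 1) * G).natDegree ≤ 2 * d + 1 := by
        rw [h2, natDegree_neg]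
        refine natDegree_sum_le_of_forall_le _ _ fun i _ => natDegree_mul_le.trans ?_
        have h4 : (r i ^ 2).natDegree ≤ 2 * d :=
          natDegree_pow_le.trans (Nat.mul_le_mul_left 2 (hrd i))
        have := hA i
        omega
      rw [natDegree_mul (pow_ne_zero _ X_ne_zero) h0, natDegree_X_pow] at h3
      omega
    have hc0 : c' = 0 := by
      have h2 : G.coeff (d + 2) = 0 := coeff_eq_zero_of_natDegree_lt (by omega)
      have h3 : B.coeff (d + 2) = 0 := coeff_eq_zero_of_natDegree_lt (by omega)
      have h4 : G = C c * X ^ (d + 1) + C c' * X ^ (d + 2) + C 2 * B := by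
        rw [hG, show (C 2 : k[X]) = 2 from rfl]; ring
      rw [h4] at h2
      simpa [coeff_X_pow, h3] using h2
    by_cases hc1 : c = 0
    · have hw0 := han w hc1 hc0
      refine ih v (fun i => ?_) h
      have := hrd i
      simpa [hr, hw0] using this
    have hci : C c⁻¹ * C c = 1 := by rw [← map_mul, inv_mul_cancel₀ hc1, map_one]
    have h2 := key (-(C c⁻¹ * G))
    rw [hc0, map_zero, mul_zero, add_zero] at h1 h2 hG
    have h3 := ih (fun i => r i + -(C c⁻¹ * G) * C (w i)) (fun i => ?_) (by
      rw [h2, hG]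
      linear_combination -h1 + ((X ^ (d + 1) * C c + 2 * B) *
        (X ^ (d + 1) + C c⁻¹ * (X ^ (d + 1) * C c + 2 * B))) * hci)
    · have h4 : ∀ i, v i = (X ^ (d + 1) + C c⁻¹ * G) * C (w i) := fun i => by
        have := congrFun h3 i
        simp only [Pi.zero_apply] at this
        rw [hv' i]
        linear_combination this
      have h5 : (X ^ (d + 1) + C c⁻¹ * G) ^ 2 * C c = 0 := by
        have h6 := hQ w
        rw [← hc, ← hc', hc0, map_zero, mul_zero, add_zero] at h6
        rw [← h6, ← h, Finset.mul_sum]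
        exact Finset.sum_congr rfl fun i _ => by rw [h4 i]; ring
      have h6 := pow_eq_zero_iff two_ne_zero |>.1
        ((mul_eq_zero.1 h5).resolve_right (by simpa using hc1))
      funext i
      rw [h4 i, h6]; simp
    · refine natDegree_add_le_of_degree_le (hrd i) ((natDegree_mul_C_le _ _).trans ?_)
      rw [natDegree_neg]
      exact (natDegree_C_mul_le _ _).trans hGd

theorem odd_step {k : Type*} [Field k] (α β : ι → k)
    (han : ∀ v : ι → k, ∑ i, α i * v i ^ 2 = 0 → ∑ i, β i * v i ^ 2 = 0 → v = 0)
    {m : k[X]} (hm : Irreducible m) (hodd : Odd m.natDegree) (y : ι → k[X])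
    (h1 : m ∣ ∑ i, C (α i) * y i ^ 2) (h2 : m ∣ ∑ i, C (β i) * y i ^ 2) (i : ι) : m ∣ y i := by
  classical
  let F := FractionRing k[X]
  let φ : k[X] →+* F := algebraMap k[X] F
  have hφ : Function.Injective φ := IsFractionRing.injective _ _
  let ψ : k →+* F := φ.comp C
  have han' : ∀ v : ι → F, ∑ i, φ (C (α i) + X * C (β i)) * v i ^ 2 = 0 → v = 0 := by
    intro v hv
    obtain ⟨b, hb⟩ := IsLocalization.exist_integer_multiples_of_finite (nonZeroDivisors k[X]) v
    choose u hu using hb
    have hb0 : φ b ≠ 0 := (map_ne_zero_iff _ hφ).2 (nonZeroDivisors.ne_zero b.2)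
    have hu' : ∀ i, φ (u i) = φ b * v i := fun i => by rw [hu i, Algebra.smul_def]
    have := brumer α β han _ u
      (fun i => Finset.le_sup (f := fun i => (u i).natDegree) (Finset.mem_univ i)) (by
        apply hφ
        rw [map_sum, map_zero, ← mul_zero (φ b ^ 2), ← hv, Finset.mul_sum]
        exact Finset.sum_congr rfl fun i _ => by rw [map_mul, map_pow, hu']; ring)
    funext i
    have h3 := hu' i
    rw [this] at h3
    exact (mul_eq_zero.1 (by simpa using h3.symm)).resolve_left hb0
  obtain ⟨m', h3, h4, h5⟩ := exists_odd_factor (m.map ψ) (by rwa [natDegree_map])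
  have h6 := springer _ han' _ m' h3 h4 rfl (fun i => (y i).map ψ) (h5.trans (by
    have e : ∑ i, C (φ (C (α i) + X * C (β i))) * (y i).map ψ ^ 2 =
        (∑ i, C (α i) * y i ^ 2).map ψ + C (φ X) * (∑ i, C (β i) * y i ^ 2).map ψ := by
      simp only [Polynomial.map_sum, Polynomial.map_mul, Polynomial.map_pow, map_C,
        Finset.mul_sum, ← Finset.sum_add_distrib, map_add, map_mul]
      exact Finset.sum_congr rfl fun i _ => by simp only [ψ, RingHom.comp_apply]; ring
    rw [e]
    exact dvd_add (map_dvd ψ h1) ((map_dvd ψ h2).mul_left _))) i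
  by_contra h7
  have h8 := (hm.coprime_iff_not_dvd.2 h7).map (mapRingHom ψ)
  exact h3.not_isUnit (h8.isUnit_of_dvd' h5 h6)

end Pool.Agent.Lib.MP_97eeef_nt.NP
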