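import Pool.Agent.Lib.MP_97eeef_nt.NPAlg
import Pool.Agent.Lib.MP_aed2da_nt.QCheb

/-! Quadratic extensions of a number field over which the curve gets no point. -/

namespace Pool.Agent.Lib.MP_97eeef_nt.NP

open NumberField IsDedekindDomain WithZero

theorem exists_sq_mul {R : Type} [CommRing R] [IsDedekindDomain R] (I : Ideal R) (hI : I ≠ 0) :
    ∃ J S : Ideal R, I = J ^ 2 * S ∧ Squarefree S := by
  induction I using UniqueFactorizationMonoid.induction_on_prime with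
  | h₁ => exact absurd rfl hI
  | h₂ x hx => exact ⟨1, x, by rw [one_pow, one_mul], hx.squarefree⟩
  | h₃ a p ha hp ih =>
    obtain ⟨J, S, rfl, hS⟩ := ih ha
    by_cases h : p ∣ S
    · obtain ⟨S, rfl⟩ := h
      exact ⟨J * p, S, by ring, hS.of_mul_right⟩
    · exact ⟨J, p * S, by ring, squarefree_mul_iff.2
        ⟨hp.irreducible.isRelPrime_iff_not_dvd.2 h, hp.squarefree, hS⟩⟩

theorem ne_one_of_odd {k : Type} [Field k] (v : Valuation k ℤᵐ⁰) {x : k} {n : ℤ}
    (hx : v x = exp n) (hn : Odd n) (y : k) : v (x * y ^ 2) ≠ 1 := by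
  intro h
  have hy : v y ≠ 0 := by
    intro h0
    simp [h0] at h
  rw [map_mul, map_pow, hx, ← exp_log hy, ← exp_nsmul, ← exp_add, exp_eq_one] at h
  obtain ⟨m, rfl⟩ := hn
  simp only [nsmul_eq_mul] at h
  omega

variable {k : Type} [Field k] [NumberField k]

theorem exists_label (x : 𝓞 k) (hx : x ≠ 0)
    (h : ∀ w : HeightOneSpectrum (𝓞 k), 2 ∉ w.asIdeal → ∃ y, w.valuation k (x * y ^ 2) = 1) :
    ∃ (J : nonZeroDivisors (Ideal (𝓞 k))) (S : {S : Ideal (𝓞 k) // S ∣ Ideal.span {2}}),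
      Ideal.span {x} = J ^ 2 * S := by
  have hx' : Ideal.span {x} ≠ 0 := by simpa using hx
  obtain ⟨J, S, h1, h2⟩ := exists_sq_mul _ hx'
  have hJ : J ≠ 0 := by rintro rfl; simp [h1] at hx'
  refine ⟨⟨J, mem_nonZeroDivisors_of_ne_zero hJ⟩, ⟨S, ?_⟩, h1⟩
  have h3 : (2 : 𝓞 k) ∈ S.radical := by
    rw [Ideal.radical_eq_sInf, Ideal.mem_sInf]
    rintro P ⟨hP, hP'⟩
    by_contra h4
    have hP0 : P ≠ ⊥ := by
      rintro rfl
      exact h2.ne_zero (le_bot_iff.1 hP)
    let w : HeightOneSpectrum (𝓞 k) := ⟨P, hP', hP0⟩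
    obtain ⟨y, hy⟩ := h w h4
    refine ne_one_of_odd _ ((w.valuation_of_algebraMap x).trans
      (w.intValuation_eq_exp_neg_multiplicity hx)) ?_ y hy
    have h5 : multiplicity w.asIdeal S = 1 := by
      refine multiplicity_eq_of_dvd_of_not_dvd (by simpa using Ideal.dvd_iff_le.2 hP) fun h6 => ?_
      exact w.prime.not_isUnit (h2 _ (by rwa [← sq]))
    rw [h1, multiplicity_mul w.prime (h1 ▸ FiniteMultiplicity.of_prime_left w.prime hx'), h5,
      (FiniteMultiplicity.of_prime_left w.prime hJ).multiplicity_pow w.prime]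
    exact Odd.neg ⟨_, by push_cast; rfl⟩
  obtain ⟨n, hn⟩ := h3
  refine h2.isRadical n _ ?_
  rwa [Ideal.span_singleton_pow, Ideal.dvd_span_singleton]

theorem exists_finite : ∃ U : Set (𝓞 k), U.Finite ∧ ∀ x : k, x ≠ 0 →
    (∀ w : HeightOneSpectrum (𝓞 k), 2 ∉ w.asIdeal → ∃ y, w.valuation k (x * y ^ 2) = 1) →
      ∃ u ∈ U, ∃ y : k, x = u * y ^ 2 := by
  classical
  let T := {x : 𝓞 k // x ≠ 0 ∧ ∀ w : HeightOneSpectrum (𝓞 k), 2 ∉ w.asIdeal →
    ∃ y, w.valuation k (x * y ^ 2) = 1}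
  choose J S hJ using fun x : T => exists_label x.1 x.2.1 x.2.2
  let H := (powMonoidHom (α := (𝓞 k)ˣ) 2).range
  have : Group.FG (𝓞 k)ˣ := Group.fg_iff_monoid_fg.2 inferInstance
  have : H.FiniteIndex := Subgroup.finiteIndex_range_powMonoidHom_of_fg _ two_ne_zero
  have := UniqueFactorizationMonoid.fintypeSubtypeDvd (Ideal.span {(2 : 𝓞 k)}) (by simp)
  let f : T → _ := fun x => (ClassGroup.mk0 (J x), S x)
  refine ⟨Set.range fun z : ((𝓞 k)ˣ ⧸ H) × Set.range f =>
    ((z.1.out : (𝓞 k)ˣ) : 𝓞 k) * z.2.2.choose.1, Set.finite_range _, fun x hx h => ?_⟩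
  obtain ⟨a, b, hb, rfl⟩ := IsFractionRing.div_surjective (A := 𝓞 k) x
  have hb0 := nonZeroDivisors.ne_zero hb
  have hb' : (b : k) ≠ 0 := by simpa using hb0
  let t : T := ⟨a * b, mul_ne_zero (by rintro rfl; simp at hx) hb0, fun w hw => by
    obtain ⟨y, hy⟩ := h w hw
    refine ⟨y / b, ?_⟩
    rw [← hy]
    congr 1
    simp only [RingOfIntegers.coe_eq_algebraMap, map_mul] at hb' ⊢
    field_simp⟩
  have h1 : f t ∈ Set.range f := ⟨t, rfl⟩
  have h2 := h1.choose_spec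
  set t' := h1.choose with ht'
  obtain ⟨r, s, hr, hs, h3⟩ := ClassGroup.mk0_eq_mk0_iff.1 (congrArg Prod.fst h2)
  have h4 : S t' = S t := congrArg Prod.snd h2
  have h5 : Ideal.span {r ^ 2 * t'.1} = Ideal.span {s ^ 2 * t.1} := by
    rw [← Ideal.span_singleton_mul_span_singleton, ← Ideal.span_singleton_mul_span_singleton,
      ← Ideal.span_singleton_pow, ← Ideal.span_singleton_pow, hJ, hJ, h4, ← mul_assoc,
      ← mul_assoc, ← mul_pow, ← mul_pow, h3]
  obtain ⟨u, hu⟩ := Ideal.span_singleton_eq_span_singleton.1 h5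
  obtain ⟨⟨_, c, rfl⟩, hc⟩ := QuotientGroup.mk_out_eq_mul H u
  refine ⟨_, ⟨(u, ⟨_, h1⟩), rfl⟩, r / (s * b * c), ?_⟩
  have hs' : (s : k) ≠ 0 := by simpa using hs
  have hc' : ((c : 𝓞 k) : k) ≠ 0 := by simp
  have h6 := congrArg (algebraMap (𝓞 k) k) hu
  simp only [hc, ← ht', powMonoidHom_apply, Units.val_mul, Units.val_pow_eq_pow_val,
    RingOfIntegers.coe_eq_algebraMap, map_mul, map_pow, t] at h6 hs' hc' hb' ⊢
  field_simp
  linear_combination -h6

theorem exists_param (a : 𝓞 k) (ha : a ≠ 0) {p : ℕ} (hp : p ≠ 0) {U : Set (𝓞 k)} (hU : U.Finite) :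
    ∃ t : 𝓞 k, (∀ σ : k →+* ℝ, σ (a * (1 + 4 * p * t) : 𝓞 k) < 0) ∧ ∀ u ∈ U, ¬ IsSquare (u : k) →
      ∃ w : HeightOneSpectrum (𝓞 k), 2 ∉ w.asIdeal ∧ u ∉ w.asIdeal ∧
        (¬ ∃ r, u - r ^ 2 ∈ w.asIdeal) ∧
          w.valuation k (a * (1 + 4 * p * t) : 𝓞 k) = exp (-1) := by
  classical
  have h4 : (4 * p * a : 𝓞 k) ≠ 0 := mul_ne_zero (mul_ne_zero (by norm_num) (by simpa)) ha
  have h1 : ∀ u : {u ∈ U | ¬ IsSquare (u : k)}, ∃ w : HeightOneSpectrum (𝓞 k), 2 ∉ w.asIdeal ∧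
      u.1 ∉ w.asIdeal ∧ (¬ ∃ r, u.1 - r ^ 2 ∈ w.asIdeal) ∧ 4 * p * a ∉ w.asIdeal := fun u => by
    obtain ⟨P, h1, h2, h3, h5⟩ := MP_aed2da_nt.exists_prime_prescribed (fun _ : Unit => u.1)
      (fun _ => False) (fun J hJ => by
        rw [Finset.eq_univ_of_forall (s := J) fun _ => hJ.choose_spec]
        simpa using u.2.2)
      (UniqueFactorizationMonoid.normalizedFactors (Ideal.span {4 * p * a})).toFinset
    refine ⟨⟨P, h1.isPrime, NeZero.ne P⟩, h3, (h5 ()).1, (h5 ()).2.1, fun h6 => h2 ?_⟩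
    rw [Multiset.mem_toFinset, Ideal.mem_normalizedFactors_iff (by simpa using h4),
      Ideal.span_singleton_le_iff_mem]
    exact ⟨h1.isPrime, h6⟩
  choose w hw2 hwu hwr hwa using h1
  have : Finite {u ∈ U | ¬ IsSquare (u : k)} := hU.subset (Set.sep_subset _ _)
  let W := (Set.finite_range w).toFinset
  have h2 : ∀ P : W, ∃ t : 𝓞 k, ∀ t', t' - t ∈ P.1.asIdeal ^ 2 →
      P.1.valuation k (a * (1 + 4 * p * t') : 𝓞 k) = exp (-1) := by
    rintro ⟨P, hP⟩
    obtain ⟨u, rfl⟩ := (Set.Finite.mem_toFinset _).1 hP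
    obtain ⟨π, hπ⟩ := (w u).intValuation_exists_uniformizer
    have h3 : IsCoprime (Ideal.span {(4 * p : 𝓞 k)}) ((w u).asIdeal ^ 2) := by
      refine IsCoprime.pow_right (Ideal.isCoprime_iff_sup_eq.2 ?_)
      rw [sup_comm]
      refine (w u).isMaximal.1.2 _ (lt_of_le_of_ne le_sup_left fun h => hwa u ?_)
      exact Ideal.mul_mem_right _ _ (h ▸ Ideal.mem_sup_right (Ideal.mem_span_singleton_self _))
    obtain ⟨i, hi, j, hj, hij⟩ := Ideal.isCoprime_iff_exists.1 h3
    obtain ⟨s, rfl⟩ := Ideal.mem_span_singleton'.1 hi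
    refine ⟨(π - 1) * s, fun t' ht => ?_⟩
    have h5 : (w u).intValuation (4 * p * (t' - (π - 1) * s) - (π - 1) * j) < exp (-1) :=
      (((w u).intValuation_le_pow_iff_mem _ 2).2 (sub_mem (Ideal.mul_mem_left _ _ ht)
        (Ideal.mul_mem_left _ _ hj))).trans_lt (by rw [exp_lt_exp]; norm_num)
    rw [HeightOneSpectrum.valuation_of_algebraMap, map_mul,
      (w u).intValuation_eq_one_iff.2 fun h => hwa u (Ideal.mul_mem_left _ _ h), one_mul,
      show 1 + 4 * p * t' = π + (4 * p * (t' - (π - 1) * s) - (π - 1) * j) by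
        linear_combination (π - 1) * hij,
      Valuation.map_add_eq_of_lt_left _ (by rw [hπ]; exact h5), hπ]
  choose t ht using h2
  obtain ⟨y, hy⟩ := IsDedekindDomain.exists_forall_sub_mem_ideal (s := W) (fun P => P.asIdeal)
    (fun _ => 2) (fun P _ => P.prime) (fun P _ Q _ h e => h (HeightOneSpectrum.ext e)) t
  set N := Ideal.absNorm (∏ P ∈ W, P.asIdeal ^ 2) with hN
  have hN0 : N ≠ 0 := by
    rw [hN, Ne, Ideal.absNorm_eq_zero_iff]
    exact Finset.prod_ne_zero_iff.2 fun P _ => pow_ne_zero _ P.ne_bot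
  obtain ⟨M, hM⟩ := (Filter.eventually_all.2 fun σ : k →+* ℝ =>
    (tendsto_natCast_atTop_atTop.const_mul_atTop (r := 4 * p * N * σ a ^ 2) (by
      have : σ a ≠ 0 := by simpa using ha
      positivity)).eventually_gt_atTop (σ (a * (1 + 4 * p * y) : 𝓞 k))).exists
  refine ⟨y - a * N * M, fun σ => ?_, fun u hu hs => ⟨w ⟨u, hu, hs⟩, hw2 _, hwu _, hwr _, ?_⟩⟩
  · have := hM σ
    simp only [RingOfIntegers.coe_eq_algebraMap, map_mul, map_add, map_sub, map_one, map_natCast,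
      map_ofNat] at this ⊢
    linarith
  · have h3 : w ⟨u, hu, hs⟩ ∈ W := (Set.Finite.mem_toFinset _).2 ⟨_, rfl⟩
    refine ht ⟨_, h3⟩ _ ?_
    rw [sub_right_comm]
    refine sub_mem (hy _ h3) (Ideal.mul_mem_right _ _ (Ideal.mul_mem_left _ _ ?_))
    exact Ideal.le_of_dvd (Finset.dvd_prod_of_mem (fun P => P.asIdeal ^ 2) h3) (Ideal.absNorm_mem _)

theorem isSquare_mul_of {F : Type} [Field F] {x y u w : F} (h : x * u ^ 2 = y * w ^ 2)
    (h0 : u ≠ 0 ∨ w ≠ 0) : IsSquare (x * y) := by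
  rcases h0 with h0 | h0
  · exact ⟨y * w / u, by field_simp; linear_combination y * h⟩
  · exact ⟨x * u / w, by field_simp; linear_combination -x * h⟩

theorem transfer {F : Type} [Field F] {P : F → Prop} (hP : ∀ x s, s ≠ 0 → P x → P (x * s ^ 2))
    (h0 : ¬ P 0) {x y : F} (h : IsSquare (x * y)) (hx : x ≠ 0) (h' : P x ∨ P y) : P x := by
  refine h'.elim id fun hy => ?_
  obtain ⟨r, hr⟩ := h
  have hy0 : y ≠ 0 := fun e => h0 (e ▸ hy)
  have hr0 : r ≠ 0 := by
    rintro rfl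
    exact mul_ne_zero hx hy0 (by simpa using hr)
  convert hP y (r / y) (div_ne_zero hr0 hy0) hy using 1
  field_simp
  linear_combination hr

theorem quad_step (han : ∀ x : Fin 4 → k, B1 x x = 0 → B2 x x = 0 → x = 0) (a : 𝓞 k) (ha : a ≠ 0)
    {p : ℕ} (hp : p ≠ 0) : ∃ (t : 𝓞 k) (d : k), d = (a * (1 + 4 * p * t) : 𝓞 k) ∧
      (∀ σ : k →+* ℝ, σ d < 0) ∧ (d ≠ 0 → ∀ x y : Fin 4 → k, B1 x x + d * B1 y y = 0 →
        B2 x x + d * B2 y y = 0 → B1 x y = 0 → B2 x y = 0 → x = 0 ∧ y = 0) := by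
  obtain ⟨U, hU, hU'⟩ := exists_finite (k := k)
  obtain ⟨t, ht, ht'⟩ := exists_param a ha hp hU
  refine ⟨t, _, rfl, ht, ?_⟩
  generalize ((a * (1 + 4 * p * t) : 𝓞 k) : k) = d at ht' ⊢
  intro hd x y h1 h2 h3 h4
  have hc : ¬ (B1 y y ≠ 0 ∨ B2 y y ≠ 0) := by
    intro hc
    have hv : ∀ w : HeightOneSpectrum (𝓞 k), 2 ∉ w.asIdeal → w.valuation k 2 = 1 := fun w hw =>
      (w.valuation_eq_one_iff_notMem (K := k) (r := 2)).2 hw
    obtain ⟨i, j, hm⟩ : ∃ i j, x i * y j - x j * y i ≠ 0 := by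
      by_contra! h
      rcases hc with hc | hc
      · refine mul_ne_zero hd (pow_ne_zero 2 hc) ?_
        simp only [B1] at h1 h3 ⊢
        linear_combination (y 0 * y 0 + y 1 * y 1 + y 2 * y 2) * h1 -
          (x 0 * y 0 + x 1 * y 1 + x 2 * y 2) * h3 - (x 0 * y 1 - x 1 * y 0) * h 0 1 -
          (x 0 * y 2 - x 2 * y 0) * h 0 2 - (x 1 * y 2 - x 2 * y 1) * h 1 2
      · refine mul_ne_zero hd (pow_ne_zero 2 hc) ?_
        simp only [B2] at h2 h4 ⊢
        linear_combination (y 0 * y 0 - y 1 * y 1 - y 3 * y 3) * h2 -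
          (x 0 * y 0 - x 1 * y 1 - x 3 * y 3) * h4 + (x 0 * y 1 - x 1 * y 0) * h 0 1 +
          (x 0 * y 3 - x 3 * y 0) * h 0 3 - (x 1 * y 3 - x 3 * y 1) * h 1 3
    have he := fun w hw => good_even _ (hv w hw) hc
    have hl := fun (w : HeightOneSpectrum (𝓞 k)) hw (h : w.valuation k d = exp (-1)) =>
      good_loc _ (hv w hw) (ne_one_of_odd _ h (by decide)) hc h1 h2 h3 h4 hm
    set c1 := B1 y y with hc1
    set c2 := B2 y y with hc2
    have key : ∀ z z' : k, IsSquare (z * z') →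
        (∀ w : HeightOneSpectrum (𝓞 k), 2 ∉ w.asIdeal →
          (∃ s, w.valuation k (z * s ^ 2) = 1) ∨ ∃ s, w.valuation k (z' * s ^ 2) = 1) →
        (∀ w : HeightOneSpectrum (𝓞 k), 2 ∉ w.asIdeal → w.valuation k d = exp (-1) →
          (∃ s r, w.valuation k r = 1 ∧ w.valuation k (z * s ^ 2 - r ^ 2) < 1) ∨
          ∃ s r, w.valuation k r = 1 ∧ w.valuation k (z' * s ^ 2 - r ^ 2) < 1) → IsSquare z := by
      intro z z' e1 e2 e3
      by_cases hz : z = 0
      · exact hz ▸ IsSquare.zero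
      obtain ⟨u, hu, s, rfl⟩ := hU' z hz fun w hw =>
        transfer (P := fun z => ∃ s, w.valuation k (z * s ^ 2) = 1)
          (fun z s hs ⟨r, hr⟩ => ⟨r / s, by rw [← hr]; congr 1; field_simp⟩) (by simp) e1 hz
          (e2 w hw)
      refine IsSquare.mul (by_contra fun hs => ?_) (IsSquare.sq s)
      obtain ⟨w, hw, e4, e5, e6⟩ := ht' u hu hs
      obtain ⟨m, r, e7, e8⟩ := transfer
        (P := fun z => ∃ s r, w.valuation k r = 1 ∧ w.valuation k (z * s ^ 2 - r ^ 2) < 1)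
        (fun z s hs ⟨m, r, hr, hm⟩ => ⟨m / s, r, hr, by
          refine lt_of_eq_of_lt ?_ hm; congr 1; field_simp⟩)
        (by rintro ⟨m, r, hr, hm⟩; simp [hr] at hm) e1 hz (e3 w hw e6)
      have e9 : w.valuation k u = 1 := w.valuation_eq_one_iff_notMem.2 e4
      have e10 : w.valuation k (s * m) = 1 := by
        have := Valuation.map_add_eq_of_lt_right (w.valuation k) (y := r ^ 2)
          (e8.trans_eq (by simp [e7]))
        rw [sub_add_cancel, mul_assoc, ← mul_pow, map_mul, map_pow, map_pow, e9, e7, one_mul,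
          one_pow] at this
        exact (pow_eq_one_iff_of_nonneg zero_le two_ne_zero).1 this
      have e11 : s * m ≠ 0 := fun h => by simp [h] at e10
      have e12 : w.valuation k (r / (s * m)) = 1 := by rw [map_div₀, e7, e10, div_one]
      obtain ⟨n, hn⟩ := w.exists_valuation_sub_lt_of_integer e12.le 1
      refine e5 ⟨n, (w.valuation_lt_one_iff_mem (K := k) _).1 ?_⟩
      have e13 : ((u - n ^ 2 : 𝓞 k) : k) = (u * s ^ 2 * m ^ 2 - r ^ 2) / (s * m) ^ 2 -
          (algebraMap _ k n - r / (s * m)) * (n + r / (s * m)) := by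
        simp only [RingOfIntegers.coe_eq_algebraMap, map_sub, map_pow]
        field_simp [left_ne_zero_of_mul e11, right_ne_zero_of_mul e11]
        ring
      refine lt_of_eq_of_lt (congrArg _ e13) (Valuation.map_sub_lt _ ?_ ?_)
      · rwa [map_div₀, map_pow, e10, one_pow, div_one]
      · rw [map_mul]
        exact mul_lt_one_of_lt_of_le hn (Valuation.map_add_le _ (w.valuation_le_one n) e12.le)
    have g1 : c2 * B1 x x = c1 * B2 x x := by linear_combination c2 * h1 - c1 * h2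
    simp only [B1, B2] at g1 h3 h4 hc1 hc2
    have hsq : IsSquare (Ee c1 c2 0 * Ee c1 c2 1 * (Ee c1 c2 2 * Ee c1 c2 3)) := by
      have q1 : (c2 - c1) * x 0 ^ 2 + (c2 + c1) * x 1 ^ 2 + c2 * x 2 ^ 2 + c1 * x 3 ^ 2 = 0 := by
        linear_combination g1
      have q2 : (c2 - c1) * x 0 * y 0 + (c2 + c1) * x 1 * y 1 + c2 * x 2 * y 2 +
          c1 * x 3 * y 3 = 0 := by linear_combination c2 * h3 - c1 * h4
      have q3 : (c2 - c1) * y 0 ^ 2 + (c2 + c1) * y 1 ^ 2 + c2 * y 2 ^ 2 + c1 * y 3 ^ 2 = 0 := by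
        linear_combination c1 * hc2 - c2 * hc1
      have : IsSquare ((c2 - c1) * (c2 + c1) * (c2 * c1)) := by
        by_contra hn
        have p1 := not_or.1 fun h => hn (isSquare_mul_of (gram q1 q2 q3) h)
        have p2 := not_or.1 fun h => hn (by
          convert isSquare_mul_of (gram (e0 := c2 - c1) (e1 := c2) (e2 := c2 + c1) (e3 := c1)
            (a0 := x 0) (a1 := x 2) (a2 := x 1) (a3 := x 3) (b0 := y 0) (b1 := y 2) (b2 := y 1)
            (b3 := y 3) (by linear_combination q1) (by linear_combination q2)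
            (by linear_combination q3)) h using 1
          ring)
        have p3 := not_or.1 fun h => hn (by
          convert isSquare_mul_of (gram (e0 := c2 - c1) (e1 := c1) (e2 := c2 + c1) (e3 := c2)
            (a0 := x 0) (a1 := x 3) (a2 := x 1) (a3 := x 2) (b0 := y 0) (b1 := y 3) (b2 := y 1)
            (b3 := y 2) (by linear_combination q1) (by linear_combination q2)
            (by linear_combination q3)) h using 1
          ring)
        simp only [ne_eq, not_not] at p1 p2 p3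
        obtain ⟨p01, p23⟩ := p1
        obtain ⟨p02, p13⟩ := p2
        obtain ⟨p03, p12⟩ := p3
        apply hm
        fin_cases i <;> fin_cases j <;> simp only [Fin.zero_eta, Fin.mk_one, Fin.reduceFinMk] <;>
          first | exact sub_self _ | assumption | (rw [← neg_eq_zero, neg_sub]; assumption)
      rw [show Ee c1 c2 0 * Ee c1 c2 1 * (Ee c1 c2 2 * Ee c1 c2 3) =
        (c2 - c1) * (c2 + c1) * (c2 * c1) * 2 ^ 2 by simp only [Ee, Matrix.cons_val]; ring]
      exact this.mul (IsSquare.sq 2)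
    have s23 := key (Ee c1 c2 2 * Ee c1 c2 3) _ (by rwa [mul_comm])
      (fun w hw => (he w hw).1.symm) fun w hw h => (hl w hw h).1.symm
    rcases hc with hc | hc
    · obtain ⟨r0, e0⟩ := key (Ee c1 c2 0 * Ee c1 c2 3) (Ee c1 c2 1 * Ee c1 c2 2)
        (by convert hsq using 1; ring) (fun w hw => (he w hw).2.2) fun w hw h => (hl w hw h).2.2
      obtain ⟨r1, e1⟩ := key (Ee c1 c2 1 * Ee c1 c2 3) (Ee c1 c2 0 * Ee c1 c2 2)
        (by convert hsq using 1; ring) (fun w hw => (he w hw).2.1.symm)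
        fun w hw h => (hl w hw h).2.1.symm
      obtain ⟨r2, e2⟩ := s23
      simp only [Ee, Matrix.cons_val] at e0 e1 e2
      have := congrFun (han ![r0, r1, r2, -2 * c1]
        (by simp only [B1, Matrix.cons_val]; linear_combination -e0 - e1 - e2)
        (by simp only [B2, Matrix.cons_val]; linear_combination -e0 + e1)) 3
      exact hc (by simpa using this)
    · obtain ⟨r0, e0⟩ := key (Ee c1 c2 0 * Ee c1 c2 2) (Ee c1 c2 1 * Ee c1 c2 3)
        (by convert hsq using 1; ring) (fun w hw => (he w hw).2.1) fun w hw h => (hl w hw h).2.1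
      obtain ⟨r1, e1⟩ := key (Ee c1 c2 1 * Ee c1 c2 2) (Ee c1 c2 0 * Ee c1 c2 3)
        (by convert hsq using 1; ring) (fun w hw => (he w hw).2.2.symm)
        fun w hw h => (hl w hw h).2.2.symm
      obtain ⟨r3, e3⟩ := s23
      simp only [Ee, Matrix.cons_val] at e0 e1 e3
      have := congrFun (han ![r0, r1, -2 * c2, r3]
        (by simp only [B1, Matrix.cons_val]; linear_combination -e0 - e1)
        (by simp only [B2, Matrix.cons_val]; linear_combination -e0 + e1 + e3)) 2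
      exact hc (by simpa using this)
  rw [not_or, not_not, not_not] at hc
  rw [hc.1, mul_zero, add_zero] at h1
  rw [hc.2, mul_zero, add_zero] at h2
  exact ⟨han x h1 h2, han y hc.1 hc.2⟩

end Pool.Agent.Lib.MP_97eeef_nt.NP
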