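import Mathlib

/-! A field of characteristic zero that has roots of all its elements has no solvable extension. -/

namespace Pool.Agent.Lib.MP_97eeef_nt.NP

open Polynomial Module IntermediateField

variable {F : Type} [Field F]

theorem kummer_false (hF : ∀ l : ℕ, l.Prime → ∀ a : F, ∃ b : F, b ^ l = a) (L : Type) [Field L]
    [Algebra F L] [FiniteDimensional F L] [IsGalois F L] (hl : (finrank F L).Prime) {ζ : F}
    (hζ : IsPrimitiveRoot ζ (finrank F L)) : False := by
  have := Fact.mk hl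
  have : IsCyclic Gal(L/F) := isCyclic_of_prime_card (IsGalois.card_aut_eq_finrank F L)
  obtain ⟨α, ⟨a, ha⟩, h⟩ := exists_root_adjoin_eq_top_of_isCyclic F L
    ⟨ζ, (mem_primitiveRoots hl.pos).2 hζ⟩
  obtain ⟨b, rfl⟩ := hF _ hl a
  have h1 : α ∈ (⊥ : IntermediateField F L) := by
    by_cases hb : b = 0
    · rw [hb, zero_pow hl.ne_zero, map_zero, eq_comm, pow_eq_zero_iff hl.ne_zero] at ha
      exact ha ▸ zero_mem _
    have hb' : algebraMap F L b ≠ 0 := by simpa using hb
    obtain ⟨i, -, hi⟩ := (hζ.map_of_injective (algebraMap F L).injective).eq_pow_of_pow_eq_one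
      (ξ := α / algebraMap F L b) (by rw [div_pow, ← ha, map_pow, div_self (pow_ne_zero _ hb')])
    refine ⟨ζ ^ i * b, ?_⟩
    simp only [AlgHom.toRingHom_eq_coe, RingHom.coe_coe, Algebra.ofId_apply, map_mul, map_pow]
    rw [hi, div_mul_cancel₀ _ hb']
  rw [← adjoin_simple_eq_bot_iff, h, eq_comm, bot_eq_top_iff_finrank_eq_one] at h1
  exact hl.ne_one h1

theorem exists_prime_index (G : Type) [Group G] [Finite G] [Nontrivial G] [Group.IsSolvable G] :
    ∃ N : Subgroup G, ∃ _ : N.Normal, (Nat.card (G ⧸ N)).Prime := by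
  obtain ⟨N, hN, h1⟩ := (eq_top_or_exists_le_coatom (commutator G)).resolve_left
    (Group.IsSolvable.commutator_lt_top_of_nontrivial G).ne
  have := Subgroup.Normal.of_commutator_le G h1
  refine ⟨N, this, ?_⟩
  obtain ⟨l, hl, h2⟩ := Nat.exists_prime_and_dvd (n := Nat.card (G ⧸ N))
    (fun h => hN.1 (Subgroup.index_eq_one.1 h))
  have := Fact.mk hl
  obtain ⟨g, hg⟩ := exists_prime_orderOf_dvd_card' l h2
  have h3 : (Subgroup.zpowers g).comap (QuotientGroup.mk' N) = ⊤ := by
    refine hN.2 _ (lt_of_le_of_ne (fun x hx => ?_) fun h => ?_)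
    · rw [Subgroup.mem_comap, QuotientGroup.mk'_apply, (QuotientGroup.eq_one_iff x).2 hx]
      exact one_mem _
    · obtain ⟨x, rfl⟩ := QuotientGroup.mk'_surjective N g
      have : x ∈ N := h ▸ Subgroup.mem_comap.2 (Subgroup.mem_zpowers _)
      rw [QuotientGroup.mk'_apply, (QuotientGroup.eq_one_iff x).2 this, orderOf_one] at hg
      exact hl.ne_one hg.symm
  have h4 : ∀ y, y ∈ Subgroup.zpowers g := fun y => by
    obtain ⟨x, rfl⟩ := QuotientGroup.mk'_surjective N y
    exact Subgroup.mem_comap.1 (h3 ▸ Subgroup.mem_top x)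
  rwa [← orderOf_eq_card_of_forall_mem_zpowers h4, hg]

theorem solv_triv_aux (hF : ∀ l : ℕ, l.Prime → ∀ a : F, ∃ b : F, b ^ l = a) (L : Type) [Field L]
    [Algebra F L] [FiniteDimensional F L] [IsGalois F L] [Group.IsSolvable Gal(L/F)]
    (h : ∀ l : ℕ, l.Prime → l ∣ finrank F L → ∃ ζ : F, IsPrimitiveRoot ζ l) :
    finrank F L = 1 := by
  rw [← IsGalois.card_aut_eq_finrank] at h ⊢
  by_contra h1
  have : Nontrivial Gal(L/F) := by
    rw [← Finite.one_lt_card_iff_nontrivial]
    have := Nat.card_pos (α := Gal(L/F))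
    omega
  obtain ⟨N, hN, h2⟩ := exists_prime_index Gal(L/F)
  obtain ⟨ζ, hζ⟩ := h _ h2 (Subgroup.card_quotient_dvd_card N)
  rw [Nat.card_congr (IsGalois.normalAutEquivQuotient N).toEquiv,
    IsGalois.card_aut_eq_finrank] at h2 hζ
  exact kummer_false hF _ h2 hζ

variable [CharZero F]

theorem exists_prim (hF : ∀ l : ℕ, l.Prime → ∀ a : F, ∃ b : F, b ^ l = a) (l : ℕ) :
    l.Prime → ∃ ζ : F, IsPrimitiveRoot ζ l := by
  induction l using Nat.strong_induction_on with
  | _ l ih =>
  intro hl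
  have : NeZero l := ⟨hl.ne_zero⟩
  let L := CyclotomicField l F
  have : FiniteDimensional F L := IsCyclotomicExtension.finiteDimensional {l} F L
  have : IsGalois F L := IsCyclotomicExtension.isGalois {l} F L
  have hζ := IsCyclotomicExtension.zeta_spec l F L
  have hinj := hζ.autToPow_injective F
  have : Group.IsSolvable Gal(L/F) := Group.isSolvable_of_isSolvable_injective hinj
  have h1 : finrank F L < l := by
    rw [← IsGalois.card_aut_eq_finrank]
    refine (Nat.card_le_card_of_injective _ hinj).trans_lt ?_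
    rw [Nat.card_eq_fintype_card, ZMod.card_units_eq_totient]
    exact Nat.totient_lt l hl.one_lt
  have h2 := solv_triv_aux hF L fun q hq hd =>
    ih q ((Nat.le_of_dvd finrank_pos hd).trans_lt h1) hq
  rw [← bot_eq_top_iff_finrank_eq_one] at h2
  obtain ⟨ζ, h3⟩ : IsCyclotomicExtension.zeta l F L ∈ (⊥ : IntermediateField F L) :=
    h2 ▸ mem_top
  exact ⟨ζ, IsPrimitiveRoot.of_map_of_injective (f := algebraMap F L) (by
    rw [← h3] at hζ; exact hζ) (algebraMap F L).injective⟩

theorem mem_of_gal_solv (hF : ∀ l : ℕ, l.Prime → ∀ a : F, ∃ b : F, b ^ l = a) {E : Type} [Field E]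
    [Algebra F E] {f : F[X]} (hf : f ≠ 0) (hs : Group.IsSolvable f.Gal) {x : E}
    (hx : aeval x f = 0) : x ∈ (algebraMap F E).range := by
  have : IsGalois F f.SplittingField := {}
  have : Group.IsSolvable Gal(f.SplittingField/F) := hs
  have h1 := solv_triv_aux hF f.SplittingField fun l hl _ => exists_prim hF l hl
  rw [← Subalgebra.bot_eq_top_iff_finrank_eq_one, eq_comm,
    ← IsSplittingField.splits_iff f.SplittingField f] at h1
  exact h1.mem_range_of_isRoot hf (by rwa [IsRoot.def, eval_map_algebraMap])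

end Pool.Agent.Lib.MP_97eeef_nt.NP
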