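import Pool.Agent.Lib.MP_97eeef_nt.Linear
import Pool.Agent.Lib.MP_97eeef_nt.NPOdd
import Pool.Agent.Lib.MP_97eeef_nt.NPLoc
import Pool.Agent.Lib.MP_97eeef_nt.NPQuad

/-! A tower of number fields over which the curve has no point. -/

namespace Pool.Agent.Lib.MP_97eeef_nt.NP

open Polynomial IntermediateField NumberField

abbrev Qb := AlgebraicClosure ℚ

/-- The curve has no point in `k`. -/
def NoPt (k : IntermediateField ℚ Qb) : Prop :=
  ∀ x : Fin 4 → Qb, (∀ i, x i ∈ k) → B1 x x = 0 → B2 x x = 0 → x = 0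

theorem integ' (k : IntermediateField ℚ Qb) (x : Qb) : IsIntegral k x := (integ x).tower_top

variable {k : IntermediateField ℚ Qb} {x : Qb}

theorem NoPt.sub (h : NoPt k) (z : Fin 4 → k) (h1 : B1 z z = 0) (h2 : B2 z z = 0) : z = 0 := by
  have := h (fun i => algebraMap k Qb (z i)) (fun i => (z i).2)
    (by rw [← map_B1, h1, map_zero]) (by rw [← map_B2, h2, map_zero])
  exact funext fun i => Subtype.ext (congrFun this i)

theorem mem_ext {y : Qb} (h : y ∈ k ⊔ ℚ⟮x⟯) : ∃ f : k[X], aeval x f = y := by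
  rw [← restrictScalars_adjoin_eq_sup, mem_restrictScalars, ← mem_toSubalgebra,
    adjoin_simple_toSubalgebra_of_isAlgebraic (integ' k x).isAlgebraic,
    Algebra.adjoin_singleton_eq_range_aeval] at h
  exact h

theorem NoPt.odd (h : NoPt k) (hx : Odd (minpoly k x).natDegree) : NoPt (k ⊔ ℚ⟮x⟯) := by
  intro z hz h1 h2
  choose f hf using fun i => mem_ext (hz i)
  funext i
  obtain ⟨g, hg⟩ := odd_step ![1, 1, 1, 0] ![1, -1, 0, -1] (fun v e1 e2 => h.sub v
    (by simp only [Fin.sum_univ_four, Matrix.cons_val] at e1; rw [B1]; linear_combination e1)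
    (by simp only [Fin.sum_univ_four, Matrix.cons_val] at e2; rw [B2]; linear_combination e2))
    (minpoly.irreducible (integ' k x)) hx f
    (minpoly.dvd _ _ (by
      simp only [Fin.sum_univ_four, Matrix.cons_val, map_add, map_mul, map_pow, hf,
        map_one, map_zero]
      rw [B1] at h1; linear_combination h1))
    (minpoly.dvd _ _ (by
      simp only [Fin.sum_univ_four, Matrix.cons_val, map_add, map_mul, map_pow, hf,
        map_one, map_zero, map_neg]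
      rw [B2] at h2; linear_combination h2)) i
  rw [← hf, hg, map_mul, minpoly.aeval, zero_mul, Pi.zero_apply]

theorem NoPt.quad (h : NoPt k) {d : k} (hx : x ^ 2 = d) (hd : d ≠ 0 → ∀ u v : Fin 4 → k,
    B1 u u + d * B1 v v = 0 → B2 u u + d * B2 v v = 0 → B1 u v = 0 → B2 u v = 0 →
      u = 0 ∧ v = 0) : NoPt (k ⊔ ℚ⟮x⟯) := by
  by_cases hk : x ∈ k
  · rwa [sup_eq_left.2 (adjoin_simple_le_iff.2 hk)]
  have h1 : ∀ a b : k, (a : Qb) + b * x = 0 → a = 0 ∧ b = 0 := fun a b e => by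
    have hb : b = 0 := by
      by_contra hb
      have hb' : (b : Qb) ≠ 0 := by simpa using hb
      refine hk ((show ((-a / b : k) : Qb) = x from ?_) ▸ (-a / b).2)
      push_cast
      field_simp
      linear_combination -e
    exact ⟨by simpa [hb] using e, hb⟩
  have h2 : ∀ f : k[X], ∃ a b : k, aeval x f = a + b * x := fun f => by
    induction f using Polynomial.induction_on with
    | C a => exact ⟨a, 0, by simp⟩
    | add f g hf hg =>
      obtain ⟨a, b, e⟩ := hf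
      obtain ⟨a', b', e'⟩ := hg
      exact ⟨a + a', b + b', by rw [map_add, e, e']; push_cast; ring⟩
    | monomial n c hf =>
      obtain ⟨a, b, e⟩ := hf
      refine ⟨b * d, a, ?_⟩
      rw [pow_succ, ← mul_assoc, map_mul, e, aeval_X]
      push_cast
      linear_combination b * hx
  intro z hz e1 e2
  choose f hf using fun i => mem_ext (hz i)
  choose u v huv using fun i => h2 (f i)
  simp only [hf] at huv
  obtain ⟨e3, e4⟩ := h1 (B1 u u + d * B1 v v) (B1 u v + B1 u v) (by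
    simp only [B1, huv] at e1 ⊢
    push_cast
    linear_combination e1 - ((v 0 : Qb) ^ 2 + v 1 ^ 2 + v 2 ^ 2) * hx)
  obtain ⟨e5, e6⟩ := h1 (B2 u u + d * B2 v v) (B2 u v + B2 u v) (by
    simp only [B2, huv] at e2 ⊢
    push_cast
    linear_combination e2 - ((v 0 : Qb) ^ 2 - v 1 ^ 2 - v 3 ^ 2) * hx)
  obtain ⟨rfl, rfl⟩ := hd (by
    rintro rfl
    exact hk (by rw [pow_eq_zero_iff two_ne_zero |>.1 hx]; exact zero_mem _)) u v e3 e5
    (by simpa using e4) (by simpa using e6)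
  funext i
  simp [huv]

theorem noPt_bot : NoPt ⊥ := by
  intro z hz h1 h2
  choose r hr using fun i => IntermediateField.mem_bot.1 (hz i)
  obtain rfl : z = fun i => algebraMap ℚ Qb (r i) := funext fun i => (hr i).symm
  rw [← map_B1, map_eq_zero, B1] at h1
  rw [← map_B2, map_eq_zero, B2] at h2
  have e0 : r 0 = 0 := by nlinarith [mul_self_nonneg (r 0), mul_self_nonneg (r 1), mul_self_nonneg (r 2)]
  have e1 : r 1 = 0 := by nlinarith [mul_self_nonneg (r 0), mul_self_nonneg (r 1), mul_self_nonneg (r 2)]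
  have e2 : r 2 = 0 := by nlinarith [mul_self_nonneg (r 0), mul_self_nonneg (r 1), mul_self_nonneg (r 2)]
  have e3 : r 3 = 0 := by simpa [e0, e1] using h2
  funext i
  fin_cases i <;> simp [e0, e1, e2, e3]

/-- A number field of solvable numbers over which the curve has no point. -/
def Ok (k : IntermediateField ℚ Qb) : Prop := FiniteDimensional ℚ k ∧ k ≤ Qsolv ∧ NoPt k

theorem Ok.ext (h : Ok k) (hx : x ∈ Qsolv) (h' : NoPt (k ⊔ ℚ⟮x⟯)) : Ok (k ⊔ ℚ⟮x⟯) := by
  have := h.1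
  have := adjoin.finiteDimensional (integ x)
  exact ⟨inferInstance, sup_le h.2.1 (adjoin_simple_le_iff.2 hx), h'⟩

theorem Ok.step (h : Ok k) (x : Qb) (p : ℕ) : ∃ k', Ok k' ∧ k ≤ k' ∧
    (x ∈ Qsolv → Odd (minpoly k x).natDegree → x ∈ k') ∧
    (x ∈ k → x ≠ 0 → p ≠ 0 → IsEmpty (k' →+* ℝ) ∧
      ∃ b ∈ k', ∃ t ∈ k', IsIntegral ℤ t ∧ b ^ 2 = x * (1 + 4 * p * t)) := by
  by_cases h1 : x ∈ k ∧ x ≠ 0 ∧ p ≠ 0
  · obtain ⟨hx, h0, hp⟩ := h1
    have := h.1
    have : NumberField k := {}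
    obtain ⟨a, b, hb, e⟩ := IsFractionRing.div_surjective (A := 𝓞 k) (⟨x, hx⟩ : k)
    have hb0 := nonZeroDivisors.ne_zero hb
    obtain ⟨t, d, hd, h2, h3⟩ := quad_step h.2.2.sub (a * b) (mul_ne_zero (by
      rintro rfl
      exact h0 (by simpa using (congrArg Subtype.val e).symm)) hb0) hp
    obtain ⟨⟨δ, hδ⟩, h4⟩ := Qsolv_root 2 two_ne_zero ⟨d, h.2.1 d.2⟩
    replace h4 : δ ^ 2 = d := congrArg Subtype.val h4
    have h5 : δ ∈ k ⊔ ℚ⟮δ⟯ := le_sup_right (a := k) (mem_adjoin_simple_self ℚ δ)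
    have h6 : k ≤ k ⊔ ℚ⟮δ⟯ := le_sup_left
    refine ⟨_, h.ext hδ (h.2.2.quad h4 h3), h6, fun _ _ => h6 hx, fun _ _ _ => ⟨⟨fun σ => ?_⟩,
      δ / (b : k), div_mem h5 (h6 (b : k).2), (t : k), h6 (t : k).2,
      map_isIntegral_int (algebraMap k Qb) t.isIntegral_coe, ?_⟩⟩
    · have h7 := h2 (σ.comp (inclusion h6).toRingHom)
      have h8 : (inclusion h6).toRingHom d = ⟨δ, h5⟩ ^ 2 := Subtype.ext h4.symm
      rw [RingHom.comp_apply, h8, map_pow] at h7
      exact h7.not_ge (sq_nonneg _)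
    · have h7 : ((b : k) : Qb) ≠ 0 := by simpa using hb0
      have h8 : ((a : k) : Qb) / (b : k) = x := by
        rw [← show _ = x from congrArg Subtype.val e]; push_cast; rfl
      rw [div_pow, h4, hd, ← h8]
      simp only [RingOfIntegers.coe_eq_algebraMap, map_mul, map_add, map_one, map_natCast,
        map_ofNat] at h7 ⊢
      push_cast
      rw [show (((4 : k) : k) : Qb) = 4 from rfl]
      field_simp
  by_cases h2 : x ∈ Qsolv ∧ Odd (minpoly k x).natDegree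
  · exact ⟨_, h.ext h2.1 (h.2.2.odd h2.2), le_sup_left,
      fun _ _ => le_sup_right (a := k) (mem_adjoin_simple_self ℚ x),
      fun a b c => absurd ⟨a, b, c⟩ h1⟩
  · exact ⟨k, h, le_rfl, fun a b => absurd ⟨a, b⟩ h2, fun a b c => absurd ⟨a, b, c⟩ h1⟩

theorem deg_eq {K : IntermediateField ℚ Qb} (h : k ≤ K)
    (hc : ∀ i, ((minpoly K x).coeff i : Qb) ∈ k) :
    (minpoly k x).natDegree = (minpoly K x).natDegree := by
  let := (inclusion h).toAlgebra
  have : IsScalarTower k K Qb := .of_algebraMap_eq fun _ => rfl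
  obtain ⟨g, h3, h4, h5⟩ := lifts_and_natDegree_eq_and_monic (f := algebraMap k K)
    (p := minpoly K x) ((lifts_iff_coeff_lifts _).2 fun i => ⟨⟨_, hc i⟩, rfl⟩)
    (minpoly.monic (integ' K x))
  refine le_antisymm ((natDegree_le_of_dvd (minpoly.dvd _ _ ?_) h5.ne_zero).trans_eq h4)
    ((natDegree_le_of_dvd (minpoly.dvd_map_of_isScalarTower k K x)
      (map_ne_zero (minpoly.ne_zero (integ' k x)))).trans_eq (natDegree_map _))
  rw [← aeval_map_algebraMap K, h3, minpoly.aeval]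

theorem exists_field : ∃ K : IntermediateField ℚ Qb, K ≤ Qsolv ∧ NoPt K ∧ IsEmpty (K →+* ℝ) ∧
    (∀ x ∈ Qsolv, Odd (minpoly K x).natDegree → x ∈ K) ∧
    ∀ x ∈ K, x ≠ 0 → ∀ p : ℕ, p ≠ 0 →
      ∃ b ∈ K, ∃ t ∈ K, IsIntegral ℤ t ∧ b ^ 2 = x * (1 + 4 * p * t) := by
  have : Countable Qb := Set.countable_univ_iff.1 ((Algebraic.countable ℚ Qb).mono fun x _ =>
    (integ x).isAlgebraic)
  obtain ⟨f, hf⟩ := exists_surjective_nat (Qb × ℕ)
  choose F h1 h2 h3 h4 using fun (k : {k // Ok k}) (z : Qb × ℕ) => k.2.step z.1 z.2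
  let s : ℕ → {k // Ok k} := fun n => n.rec ⟨⊥, inferInstance, bot_le, noPt_bot⟩
    fun n k => ⟨F k (f n.unpair.1), h1 _ _⟩
  have hs : Monotone fun n => (s n).1 := monotone_nat_of_le_succ fun n => h2 _ _
  have hm : ∀ x, x ∈ ⨆ n, (s n).1 ↔ ∃ n, x ∈ (s n).1 := fun x => by
    rw [← SetLike.mem_coe, coe_iSup_of_directed hs.directed_le, Set.mem_iUnion]; rfl
  have hl : ∀ n, (s n).1 ≤ ⨆ n, (s n).1 := le_iSup fun n => (s n).1
  have hfin : ∀ (n : ℕ) (z : Fin n → Qb), (∀ i, z i ∈ ⨆ n, (s n).1) → ∃ m, ∀ i, z i ∈ (s m).1 := by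
    intro n z hz
    choose m hm using fun i => (hm _).1 (hz i)
    exact ⟨Finset.univ.sup m, fun i => hs (Finset.le_sup (Finset.mem_univ i)) (hm i)⟩
  have ht : ∀ (z : Qb × ℕ) (n : ℕ), ∃ m, n ≤ m ∧ (s (m + 1)).1 = F (s m) z := fun z n => by
    obtain ⟨i, rfl⟩ := hf z
    exact ⟨i.pair n, Nat.right_le_pair _ _, by simp [s]⟩
  refine ⟨⨆ n, (s n).1, iSup_le fun n => (s n).2.2.1, fun z hz => ?_, ⟨fun σ => ?_⟩,
    fun x hx ho => ?_, fun x hx h0 p hp => ?_⟩
  · obtain ⟨m, hm⟩ := hfin 4 z hz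
    exact (s m).2.2.2 z hm
  · obtain ⟨m, -, e⟩ := ht (1, 1) 0
    exact (h4 (s m) (1, 1) (one_mem _) one_ne_zero one_ne_zero).1.false
      (σ.comp (inclusion (e ▸ hl (m + 1))).toRingHom)
  · obtain ⟨n, hn⟩ := hfin ((minpoly (⨆ n, (s n).1 :) x).natDegree + 1)
      (fun i => ((minpoly (⨆ n, (s n).1 :) x).coeff i : Qb)) fun i => Subtype.prop _
    obtain ⟨m, h5, e⟩ := ht (x, 0) n
    refine hl (m + 1) (e ▸ h3 (s m) (x, 0) hx ?_)
    rwa [deg_eq (hl m) fun i => ?_]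
    by_cases hi : i < (minpoly (⨆ n, (s n).1 :) x).natDegree + 1
    · exact hs h5 (hn ⟨i, hi⟩)
    · rw [coeff_eq_zero_of_natDegree_lt (not_lt.1 hi)]
      exact zero_mem _
  · obtain ⟨n, hn⟩ := (hm x).1 hx
    obtain ⟨m, h5, e⟩ := ht (x, p) n
    obtain ⟨b, hb, t, ht, h6⟩ := (h4 (s m) (x, p) (hs h5 hn) h0 hp).2
    exact ⟨b, hl (m + 1) (e ▸ hb), t, hl (m + 1) (e ▸ ht), h6⟩

theorem two_pow (hk : k ≤ Qsolv) (h : ∀ x ∈ Qsolv, Odd (minpoly k x).natDegree → x ∈ k)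
    (hx : x ∈ Qsolv) : ∃ n : ℕ, (minpoly k x).natDegree = 2 ^ n := by
  let L := adjoin k ((minpoly k x).rootSet Qb)
  have : IsSplittingField k L (minpoly k x) :=
    adjoin_rootSet_isSplittingField (IsAlgClosed.splits _)
  have := IsSplittingField.finiteDimensional L (minpoly k x)
  have := Normal.of_isSplittingField (E := L) (minpoly k x)
  have : IsGalois k L := {}
  have h1 : L ≤ extendScalars hk := adjoin_le_iff.2 fun y hy => mem_of_solv (by
    rw [← minpoly.eq_of_irreducible_of_monic (minpoly.irreducible (integ x)) ?_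
      (minpoly.monic (integ x))]
    · exact solv_of_mem hx
    · rw [← aeval_map_algebraMap k]
      exact aeval_eq_zero_of_dvd_aeval_eq_zero (minpoly.dvd_map_of_isScalarTower ℚ k x)
        (aeval_eq_zero_of_mem_rootSet hy))
  let P : Sylow 2 Gal(L/k) := default
  have h2 : Module.finrank k (fixedField (P : Subgroup Gal(L/k))) = P.index := by
    rw [finrank_eq_fixingSubgroup_index, fixingSubgroup_fixedField]
  have h3 : fixedField (P : Subgroup Gal(L/k)) = ⊥ := eq_bot_iff.2 fun y hy => by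
    have h4 := minpoly.degree_dvd (Algebra.IsIntegral.isIntegral (R := k)
      (⟨y, hy⟩ : fixedField (P : Subgroup Gal(L/k))))
    rw [h2, minpoly_eq, minpoly_eq] at h4
    exact ⟨⟨_, h y (h1 y.2) ((Nat.odd_iff.2 (Nat.two_dvd_ne_zero.1 P.not_dvd_index)).of_dvd_nat
      h4)⟩, rfl⟩
  rw [h3, IntermediateField.finrank_bot] at h2
  obtain ⟨n, hn⟩ := P.isPGroup'.exists_card_eq
  have h4 := minpoly.degree_dvd (Algebra.IsIntegral.isIntegral (R := k) (⟨x, subset_adjoin _ _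
    ((mem_rootSet_of_ne (minpoly.ne_zero (integ' k x))).2 (minpoly.aeval k x))⟩ : L))
  rw [minpoly_eq, ← IsGalois.card_aut_eq_finrank, ← (P : Subgroup Gal(L/k)).card_mul_index, ← h2,
    mul_one, hn, Nat.dvd_prime_pow Nat.prime_two] at h4
  exact ⟨_, h4.choose_spec.2⟩

theorem loc_top (hk : k ≤ Qsolv) (h : ∀ x ∈ Qsolv, Odd (minpoly k x).natDegree → x ∈ k)
    (h' : ∀ x ∈ k, x ≠ 0 → ∀ p : ℕ, p ≠ 0 →
      ∃ b ∈ k, ∃ t ∈ k, IsIntegral ℤ t ∧ b ^ 2 = x * (1 + 4 * p * t))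
    (p : ℕ) [hp : Fact p.Prime] (σ : k →+* PadicAlgCl p) : adjoin ℚ_[p] (Set.range σ) = ⊤ := by
  refine adjoin_top σ fun l hl a ha => ?_
  have h0 : 0 < ‖(l : PadicAlgCl p) ^ l * σ a‖ := norm_pos_iff.2
    (mul_ne_zero (pow_ne_zero _ (Nat.cast_ne_zero.2 hl.ne_zero)) (by simpa using ha))
  rcases hl.eq_two_or_odd' with rfl | ho
  · obtain ⟨b, hb, t, ht, h1, h2⟩ := h' a a.2 (by simpa using ha) p hp.out.ne_zero
    refine ⟨⟨b, hb⟩, ?_⟩
    have h3 : (⟨b, hb⟩ : k) ^ 2 = a * (1 + 4 * p * ⟨t, ht⟩) := Subtype.ext h2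
    have h4 : IsIntegral ℤ (σ ⟨t, ht⟩) := map_isIntegral_int σ
      ((isIntegral_algebraMap_iff (algebraMap k Qb).injective).1 h1)
    have h5 : ‖σ ⟨t, ht⟩‖ ≤ 1 :=
      (Valuation.integer.integers (PadicAlgCl.valued p).v).mem_of_integral h4.tower_top
    rw [← map_pow, h3, show σ (a * (1 + 4 * p * ⟨t, ht⟩)) - σ a =
      ((2 : ℕ) : PadicAlgCl p) ^ 2 * σ a * (algebraMap ℚ_[p] _ p * σ ⟨t, ht⟩) by
        simp only [map_mul, map_add, map_one, map_natCast, map_ofNat]; push_cast; ring,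
      norm_mul _ (_ * _), mul_lt_iff_lt_one_right h0, norm_mul, norm_algebraMap']
    exact mul_lt_one_of_nonneg_of_lt_one_left (norm_nonneg _) Padic.norm_p_lt_one h5
  · obtain ⟨b, hb⟩ : ∃ b : k, b ^ l = a := by
      by_contra! h1
      obtain ⟨⟨x, hx⟩, h2⟩ := Qsolv_root l hl.ne_zero ⟨a, hk a.2⟩
      replace h2 : x ^ l = a := congrArg Subtype.val h2
      refine h1 ⟨x, h x hx ?_⟩ (Subtype.ext h2)
      rwa [← minpoly.eq_of_irreducible_of_monic (X_pow_sub_C_irreducible_of_prime hl h1)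
        (by simp [h2]) (monic_X_pow_sub_C _ hl.ne_zero), natDegree_X_pow_sub_C]
    exact ⟨b, by rwa [← map_pow, hb, sub_self, norm_zero]⟩

end Pool.Agent.Lib.MP_97eeef_nt.NP
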