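import Mathlib

namespace Pool.Agent.Lib.MP_97eeef_nt.Quartic

/-- `G` has no nonzero zero with coordinates in `K`. -/
def NoZero {n : ℕ} (G : MvPolynomial (Fin n) ℤ) (K : Type) [Field K] : Prop :=
  ∀ P : Fin n → K, MvPolynomial.aeval P G = 0 → P = 0

/-- The partial derivatives of `G` have no common nonzero zero with coordinates in `K`. -/
def NonsingularOver {n : ℕ} (G : MvPolynomial (Fin n) ℤ) (K : Type) [Field K] : Prop :=
  ∀ P : Fin n → K, (∀ i, MvPolynomial.aeval P (MvPolynomial.pderiv i G) = 0) → P = 0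

/-- No subgroup of `Γ` has a homomorphism onto the symmetric group on four letters. -/
def NoS4 (Γ : Type) [Group Γ] : Prop :=
  ∀ (H : Subgroup Γ) (φ : H →* Equiv.Perm (Fin 4)), ¬ Function.Surjective φ

end Pool.Agent.Lib.MP_97eeef_nt.Quartic
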