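import Pool.Agent.Lib.MP_97eeef_nt.QuarticNorm

/-! Nonsingular quartic forms whose points all have a section `S4` in their Galois group. -/

namespace Pool.Agent.Lib.MP_97eeef_nt.Quartic

open MvPolynomial

lemma conj_moves : ∀ s : Equiv.Perm (Fin 4), s ≠ 1 → ∀ j : Fin 4, j ≠ 0 →
    ∃ a : Equiv.Perm (Fin 4), (a * s * a⁻¹) 0 = j := by
  intro s hs j hj
  obtain ⟨u, hu⟩ : ∃ u, s u ≠ u := by
    by_contra hc
    push Not at hc
    exact hs (Equiv.ext hc)
  have key : ∀ u v j : Fin 4, v ≠ u → j ≠ 0 → ∃ a : Equiv.Perm (Fin 4), a u = 0 ∧ a v = j := by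
    decide
  obtain ⟨a, a1, a2⟩ := key u (s u) j hu hj
  refine ⟨a, ?_⟩
  have : a⁻¹ 0 = u := by rw [← a1]; simp
  simp [Equiv.Perm.mul_apply, this, a2]

lemma global_aniso (K : Type) [Field K] [CharZero K] [IsGalois ℚ K]
    (hK : ∀ (H : Subgroup (K ≃ₐ[ℚ] K)) (φ : H →* Equiv.Perm (Fin 4)), ¬ Function.Surjective φ)
    (x y z w : K) (hG : 3 * Nf x y z w + 32 * (x ^ 4 + y ^ 4 + z ^ 4 + w ^ 4) = 0) :
    x = 0 ∧ y = 0 ∧ z = 0 ∧ w = 0 := by
  obtain ⟨θ, h⟩ := exists_vieta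
  obtain ⟨ρ, hρ⟩ := exists_rho h
  have hs := rho_surj h hρ
  let ι : K →ₐ[ℚ] Om := IsAlgClosed.lift
  let _ : Algebra K Om := ι.toRingHom.toAlgebra
  have : IsScalarTower ℚ K Om := IsScalarTower.of_algebraMap_eq (fun q => (ι.commutes q).symm)
  let r : D →* (K ≃ₐ[ℚ] K) :=
    (AlgEquiv.restrictNormalHom K).comp (AlgEquiv.restrictScalarsHom ℚ)
  have hr : ∀ σ : D, ∀ u : K, ι (r σ u) = σ (ι u) := fun σ u =>
    AlgEquiv.restrictNormal_commutes (σ.restrictScalars ℚ) K u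
  have hk : ¬ r.rangeRestrict.ker ≤ ρ.ker := by
    intro hle
    apply hK r.range (r.rangeRestrict.liftOfSurjective r.rangeRestrict_surjective ⟨ρ, hle⟩)
    intro s
    obtain ⟨σ, rfl⟩ := hs s
    exact ⟨r.rangeRestrict σ, MonoidHom.liftOfRightInverse_comp_apply _ _ _ _ _⟩
  rw [MonoidHom.ker_rangeRestrict, SetLike.not_le_iff_exists] at hk
  obtain ⟨τ, hτ, hτ'⟩ := hk
  have ht : ∀ j, ∃ σ : D, r σ = 1 ∧ σ (θ 0) = θ j := by
    intro j
    by_cases hj : j = 0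
    · exact ⟨1, map_one r, by rw [hj]; rfl⟩
    obtain ⟨a, ha⟩ := conj_moves (ρ τ) hτ' j hj
    obtain ⟨g, rfl⟩ := hs a
    refine ⟨g * τ * g⁻¹, ?_, ?_⟩
    · rw [map_mul, map_mul, MonoidHom.mem_ker.1 hτ]; simp
    · rw [hρ, map_mul, map_mul, map_inv, ha]
  have hG' : 3 * Nf (ι x) (ι y) (ι z) (ι w) + 32 * (ι x ^ 4 + ι y ^ 4 + ι z ^ 4 + ι w ^ 4) = 0 := by
    have := congrArg ι hG
    simpa only [Nf, mo, map_add, map_mul, map_pow, map_intCast, map_ofNat, map_zero] using this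
  have := local_aniso h _ _ _ _ (fun j => by
    obtain ⟨σ, h1, h2⟩ := ht j
    refine ⟨σ, ?_, ?_, ?_, ?_, h2⟩ <;> rw [← hr, h1] <;> rfl) hG'
  simpa only [map_eq_zero] using this

lemma norm_aeval_le {L : Type*} [NormedField L] [IsUltrametricDist L] {n d : ℕ}
    (N : MvPolynomial (Fin n) ℤ) (hN : N.IsHomogeneous d) (P : Fin n → L) {M : ℝ} (hM : 0 ≤ M)
    (hP : ∀ i, ‖P i‖ ≤ M) : ‖aeval P N‖ ≤ M ^ d := by
  rw [aeval_def, eval₂_eq]
  apply IsUltrametricDist.norm_sum_le_of_forall_le_of_nonneg (pow_nonneg hM d)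
  intro s hs
  rw [norm_mul, norm_prod, hN.degree_eq_sum_deg_support hs, ← Finset.prod_pow_eq_pow_sum]
  have h1 : ‖algebraMap ℤ L (coeff s N)‖ ≤ 1 := IsUltrametricDist.norm_intCast_le_one L _
  have h2 : ∏ i ∈ s.support, ‖P i ^ s i‖ ≤ ∏ i ∈ s.support, M ^ s i :=
    Finset.prod_le_prod (fun _ _ => norm_nonneg _) (fun i _ => by
      rw [norm_pow]; exact pow_le_pow_left₀ (norm_nonneg _) (hP i) _)
  have h3 : 0 ≤ ∏ i ∈ s.support, ‖P i ^ s i‖ := Finset.prod_nonneg (fun _ _ => norm_nonneg _)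
  nlinarith [norm_nonneg (algebraMap ℤ L (coeff s N))]

lemma nonsing {n : ℕ} (N : MvPolynomial (Fin n) ℤ) (hN : N.IsHomogeneous 4)
    (P : Fin n → PadicAlgCl 3)
    (h : ∀ i, aeval P (pderiv i (3 * N + 32 * ∑ j, X j ^ 4)) = 0) : P = 0 := by
  by_contra hP
  obtain ⟨i0, hi0⟩ := Function.ne_iff.1 hP
  have : Nonempty (Fin n) := ⟨i0⟩
  obtain ⟨i, hi⟩ := Finite.exists_max (fun i => ‖P i‖)
  have hM : 0 < ‖P i‖ := lt_of_lt_of_le (norm_pos_iff.2 hi0) (hi i0)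
  have hd : pderiv i (3 * N + 32 * ∑ j, X j ^ 4 : MvPolynomial (Fin n) ℤ)
      = 3 * pderiv i N + 128 * X i ^ 3 := by
    have c3 : pderiv i (3 : MvPolynomial (Fin n) ℤ) = 0 := pderiv_C (a := 3)
    have c32 : pderiv i (32 : MvPolynomial (Fin n) ℤ) = 0 := pderiv_C (a := 32)
    have cs : pderiv i (∑ j, X j ^ 4 : MvPolynomial (Fin n) ℤ) = 4 * X i ^ 3 := by
      rw [map_sum, Finset.sum_eq_single i]
      · rw [pderiv_pow, pderiv_X_self]; simp
      · intro j _ hj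
        rw [pderiv_pow, pderiv_X_of_ne hj]; simp
      · simp
    rw [map_add, pderiv_mul, pderiv_mul, c3, c32, cs]; ring
  have h1 := h i
  rw [hd, map_add, map_mul, map_mul, map_pow, aeval_X, map_ofNat, map_ofNat] at h1
  have h3 : ‖(3 : PadicAlgCl 3)‖ = 1 / 3 := by
    have h := PadicAlgCl.norm_extends (p := 3) (3 : ℚ_[3])
    have h2 : ‖(3 : ℚ_[3])‖ = 1 / 3 := by
      have := Padic.norm_p (p := 3)
      simpa using this
    rw [h2] at h
    rw [← h, ← map_ofNat (algebraMap ℚ_[3] (PadicAlgCl 3)) 3]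
  have h128 : ‖(128 : PadicAlgCl 3)‖ = 1 := by
    have e : (128 : PadicAlgCl 3) = -1 + 3 * ((43 : ℤ) : PadicAlgCl 3) := by norm_num
    have h43 : ‖((43 : ℤ) : PadicAlgCl 3)‖ ≤ 1 :=
      IsUltrametricDist.norm_intCast_le_one (PadicAlgCl 3) 43
    have hlt : ‖3 * ((43 : ℤ) : PadicAlgCl 3)‖ < ‖(-1 : PadicAlgCl 3)‖ := by
      rw [norm_mul, h3, norm_neg, norm_one]
      exact lt_of_le_of_lt (mul_le_of_le_one_right (by norm_num) h43) (by norm_num)
    rw [e, IsUltrametricDist.norm_add_eq_max_of_norm_ne_norm (ne_of_gt hlt), max_eq_left hlt.le,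
      norm_neg, norm_one]
  have hb : ‖aeval P (pderiv i N)‖ ≤ ‖P i‖ ^ 3 :=
    norm_aeval_le (pderiv i N) hN.pderiv P hM.le hi
  have e : 128 * P i ^ 3 = -(3 * aeval P (pderiv i N)) := by linear_combination h1
  have e2 := congrArg norm e
  rw [norm_mul, h128, norm_pow, norm_neg, norm_mul, h3] at e2
  have := pow_pos hM 3
  linarith

lemma mo_hom {n : ℕ} {x y z w : MvPolynomial (Fin n) ℤ} (hx : x.IsHomogeneous 1)
    (hy : y.IsHomogeneous 1) (hz : z.IsHomogeneous 1) (hw : w.IsHomogeneous 1) (k : ℤ)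
    {i j l m : ℕ} (h : i + j + l + m = 4) : (mo k i j l m x y z w).IsHomogeneous 4 := by
  have := ((((hx.pow i).mul (hy.pow j)).mul (hz.pow l)).mul (hw.pow m)).C_mul k
  simp only [one_mul, h] at this
  exact this

lemma Nf_hom {n : ℕ} {x y z w : MvPolynomial (Fin n) ℤ} (hx : x.IsHomogeneous 1)
    (hy : y.IsHomogeneous 1) (hz : z.IsHomogeneous 1) (hw : w.IsHomogeneous 1) :
    (Nf x y z w).IsHomogeneous 4 := by
  unfold Nf
  repeat' apply IsHomogeneous.add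
  all_goals exact mo_hom hx hy hz hw _ rfl

/-- The `k`-th variable, or zero. -/
noncomputable def var (n k : ℕ) : MvPolynomial (Fin n) ℤ := if h : k < n then X ⟨k, h⟩ else 0

lemma var_hom (n k : ℕ) : (var n k).IsHomogeneous 1 := by
  unfold var
  split_ifs
  · exact isHomogeneous_X _ _
  · exact isHomogeneous_zero _ _ _

theorem main (n : ℕ) (hn : n ≤ 4) : ∃ G : MvPolynomial (Fin n) ℤ, G.IsHomogeneous 4 ∧
    (∀ P : Fin n → AlgebraicClosure ℚ, (∀ i, aeval P (pderiv i G) = 0) → P = 0) ∧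
    ∀ (K : Type) [Field K] [CharZero K] [IsGalois ℚ K],
      (∀ (H : Subgroup (K ≃ₐ[ℚ] K)) (φ : H →* Equiv.Perm (Fin 4)), ¬ Function.Surjective φ) →
      ∀ P : Fin n → K, aeval P G = 0 → P = 0 := by
  have hN := Nf_hom (var_hom n 0) (var_hom n 1) (var_hom n 2) (var_hom n 3)
  refine ⟨3 * Nf (var n 0) (var n 1) (var n 2) (var n 3) + 32 * ∑ j, X j ^ 4, ?_, ?_, ?_⟩
  · exact (hN.C_mul 3).add
      ((IsHomogeneous.sum _ _ _ (fun j _ => isHomogeneous_X_pow j 4)).C_mul 32)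
  · intro P hP
    have : Algebra.IsAlgebraic ℚ (AlgebraicClosure ℚ) := AlgebraicClosure.isAlgebraic ℚ
    let ι : AlgebraicClosure ℚ →ₐ[ℚ] PadicAlgCl 3 := IsAlgClosed.lift
    have := nonsing _ hN (fun i => ι (P i)) (fun i => by
      have h1 := congrArg ι (hP i)
      rw [map_zero] at h1
      rw [← h1]
      exact (comp_aeval_apply P ι.toRingHom.toIntAlgHom _).symm)
    funext i
    exact (map_eq_zero ι).1 (congrFun this i)
  · intro K _ _ _ hK P hP
    have e : ∑ j, P j ^ 4 = aeval P (var n 0) ^ 4 + aeval P (var n 1) ^ 4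
        + aeval P (var n 2) ^ 4 + aeval P (var n 3) ^ 4 := by
      interval_cases n <;> simp [var, Fin.sum_univ_succ, add_assoc]
    have hG : 3 * Nf (aeval P (var n 0)) (aeval P (var n 1)) (aeval P (var n 2))
        (aeval P (var n 3)) + 32 * (aeval P (var n 0) ^ 4 + aeval P (var n 1) ^ 4
        + aeval P (var n 2) ^ 4 + aeval P (var n 3) ^ 4) = 0 := by
      rw [← e, ← hP]
      simp only [Nf, mo, map_add, map_mul, map_pow, map_intCast, map_ofNat, map_sum, aeval_X]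
    obtain ⟨h0, h1, h2, h3⟩ := global_aniso K hK _ _ _ _ hG
    funext i
    obtain ⟨i, hi⟩ := i
    have hi4 : i < 4 := lt_of_lt_of_le hi hn
    interval_cases i
    · simpa [var, hi] using h0
    · simpa [var, hi] using h1
    · simpa [var, hi] using h2
    · simpa [var, hi] using h3

end Pool.Agent.Lib.MP_97eeef_nt.Quartic
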