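import Pool.Agent.Lib.MP_97eeef_nt.QuarticRoots

/-! The norm form of `T^4 + 2T + 2` and its 2-adic lower bound. -/

namespace Pool.Agent.Lib.MP_97eeef_nt.Quartic

/-- A monomial. -/
def mo {R : Type*} [CommRing R] (k : ℤ) (i j l m : ℕ) (x y z w : R) : R :=
  (k : R) * (x ^ i * y ^ j * z ^ l * w ^ m)

/-- The norm form of `x + y t + z t^2 + w t^3` for `t^4 + 2t + 2 = 0`. -/
def Nf {R : Type*} [CommRing R] (x y z w : R) : R :=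
  mo 1 4 0 0 0 x y z w
    + mo (-6) 3 0 0 1 x y z w
    + mo 6 2 1 1 0 x y z w
    + mo 8 2 1 0 1 x y z w
    + mo 4 2 0 2 0 x y z w
    + mo 12 2 0 0 2 x y z w
    + mo (-2) 1 3 0 0 x y z w
    + mo (-8) 1 2 1 0 x y z w
    + mo (-12) 1 1 1 1 x y z w
    + mo (-20) 1 1 0 2 x y z w
    + mo 4 1 0 3 0 x y z w
    + mo 4 1 0 2 1 x y z w
    + mo 16 1 0 1 2 x y z w
    + mo (-8) 1 0 0 3 x y z w
    + mo 2 0 4 0 0 x y z w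
    + mo 12 0 2 1 1 x y z w
    + mo 8 0 2 0 2 x y z w
    + mo (-4) 0 1 3 0 x y z w
    + mo (-16) 0 1 2 1 x y z w
    + mo 8 0 1 0 3 x y z w
    + mo 4 0 0 4 0 x y z w
    + mo (-8) 0 0 1 3 x y z w
    + mo 8 0 0 0 4 x y z w

lemma phi {R : Type*} [CommRing R] (a b c d x y z w e1 e2 e3 e4 : R) (h1 : a + b + c + d = e1)
    (h2 : a * b + a * c + a * d + b * c + b * d + c * d = e2)
    (h3 : a * b * c + a * b * d + a * c * d + b * c * d = e3) (h4 : a * b * c * d = e4) :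
    (x + a * y + a ^ 2 * z + a ^ 3 * w) * (x + b * y + b ^ 2 * z + b ^ 3 * w)
      * (x + c * y + c ^ 2 * z + c ^ 3 * w) * (x + d * y + d ^ 2 * z + d ^ 3 * w) =
    x^4 + x^3*y*e1 + x^3*z*e1^2 + (-2)*x^3*z*e2 + x^3*w*e1^3 + (-3)*x^3*w*e1*e2 + (3)*x^3*w*e3
      + x^2*y^2*e2 + x^2*y*z*e1*e2 + (-3)*x^2*y*z*e3 + x^2*y*w*e1^2*e2 + (-1)*x^2*y*w*e1*e3
      + (-2)*x^2*y*w*e2^2 + (4)*x^2*y*w*e4 + (-2)*x^2*z^2*e1*e3 + x^2*z^2*e2^2 + (2)*x^2*z^2*e4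
      + (-2)*x^2*z*w*e1^2*e3 + x^2*z*w*e1*e2^2 + (5)*x^2*z*w*e1*e4 + (-1)*x^2*z*w*e2*e3
      + (3)*x^2*w^2*e1^2*e4 + (-3)*x^2*w^2*e1*e2*e3 + x^2*w^2*e2^3 + (-3)*x^2*w^2*e2*e4
      + (3)*x^2*w^2*e3^2 + x*y^3*e3 + x*y^2*z*e1*e3 + (-4)*x*y^2*z*e4 + x*y^2*w*e1^2*e3
      + (-1)*x*y^2*w*e1*e4 + (-2)*x*y^2*w*e2*e3 + (-3)*x*y*z^2*e1*e4 + x*y*z^2*e2*e3
      + (-3)*x*y*z*w*e1^2*e4 + x*y*z*w*e1*e2*e3 + (4)*x*y*z*w*e2*e4 + (-3)*x*y*z*w*e3^2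
      + (-1)*x*y*w^2*e1*e2*e4 + (-2)*x*y*w^2*e1*e3^2 + x*y*w^2*e2^2*e3 + (5)*x*y*w^2*e3*e4
      + (-2)*x*z^3*e2*e4 + x*z^3*e3^2 + (-2)*x*z^2*w*e1*e2*e4 + x*z^2*w*e1*e3^2
      + (-1)*x*z^2*w*e3*e4 + (-1)*x*z*w^2*e1*e3*e4 + (-2)*x*z*w^2*e2^2*e4 + x*z*w^2*e2*e3^2
      + (4)*x*z*w^2*e4^2 + (3)*x*w^3*e1*e4^2 + (-3)*x*w^3*e2*e3*e4 + x*w^3*e3^3 + y^4*e4
      + y^3*z*e1*e4 + y^3*w*e1^2*e4 + (-2)*y^3*w*e2*e4 + y^2*z^2*e2*e4 + y^2*z*w*e1*e2*e4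
      + (-3)*y^2*z*w*e3*e4 + (-2)*y^2*w^2*e1*e3*e4 + y^2*w^2*e2^2*e4 + (2)*y^2*w^2*e4^2
      + y*z^3*e3*e4 + y*z^2*w*e1*e3*e4 + (-4)*y*z^2*w*e4^2 + (-3)*y*z*w^2*e1*e4^2
      + y*z*w^2*e2*e3*e4 + (-2)*y*w^3*e2*e4^2 + y*w^3*e3^2*e4 + z^4*e4^2 + z^3*w*e1*e4^2
      + z^2*w^2*e2*e4^2 + z*w^3*e3*e4^2 + w^4*e4^3 := by
  subst h1 h2 h3 h4
  ring

lemma normform {θ : Fin 4 → Om} (h : Vieta θ) (x y z w : Om) :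
    (x + θ 0 * y + θ 0 ^ 2 * z + θ 0 ^ 3 * w) * (x + θ 1 * y + θ 1 ^ 2 * z + θ 1 ^ 3 * w)
      * (x + θ 2 * y + θ 2 ^ 2 * z + θ 2 ^ 3 * w) * (x + θ 3 * y + θ 3 ^ 2 * z + θ 3 ^ 3 * w)
      = Nf x y z w := by
  rw [phi _ _ _ _ x y z w _ _ _ _ h.e1 h.e2 h.e3 h.e4]
  simp only [Nf, mo]
  push_cast
  ring

lemma dd {a b c d : Om} {δ s : ℝ} (hδ : 0 < δ) (ha : ‖a‖ ≤ δ * s) (hb : ‖b‖ ≤ δ * s)
    (hd : ‖d‖ = δ) (e : a - b = d * c) : ‖c‖ ≤ s := by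
  have := norm_sub_le' ha hb
  rw [e, norm_mul, hd] at this
  exact le_of_mul_le_mul_left this hδ

lemma norm_mul_le' {a b : Om} {s : ℝ} (ha : ‖a‖ ≤ 1) (hb : ‖b‖ ≤ s) : ‖a * b‖ ≤ s := by
  rw [norm_mul]
  nlinarith [norm_nonneg a, norm_nonneg b]

lemma coords_le {θ : Fin 4 → Om} (h : Vieta θ) (x y z w : Om) {r : ℝ}
    (hr : ∀ i, ‖x + θ i * y + θ i ^ 2 * z + θ i ^ 3 * w‖ ≤ r) :
    ‖x‖ ≤ 2 * r ∧ ‖y‖ ≤ 2 * r ∧ ‖z‖ ≤ 2 * r ∧ ‖w‖ ≤ 2 * r := by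
  have hr0 : 0 ≤ r := le_trans (norm_nonneg _) (hr 0)
  have hc : ∀ i j, i ≠ j → ‖θ i - θ j‖ ^ 3 = 1 / 2 := fun i j hij =>
    diff_norm (h.root i) (h.root j) (fun e => hij (h.inj e))
  obtain ⟨δ, hδ⟩ : ∃ δ, δ = ‖θ 0 - θ 1‖ := ⟨_, rfl⟩
  have hδ3 : δ ^ 3 = 1 / 2 := by rw [hδ]; exact hc 0 1 (by decide)
  have hδ0 : 0 ≤ δ := by rw [hδ]; exact norm_nonneg _
  have hδp : 0 < δ := by
    rcases hδ0.lt_or_eq with h1 | h1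
    · exact h1
    · rw [← h1] at hδ3; norm_num at hδ3
  have hδ1 : δ ≤ 1 := by
    by_contra hcon
    push Not at hcon
    have := one_lt_pow₀ hcon (n := 3) (by norm_num)
    linarith
  have hd : ∀ i j, i ≠ j → ‖θ i - θ j‖ = δ := fun i j hij =>
    (pow_left_inj₀ (norm_nonneg _) hδ0 (by norm_num : (3 : ℕ) ≠ 0)).1 (by rw [hc i j hij, hδ3])
  have h1 : ∀ i, ‖θ i‖ ≤ 1 := fun i => (root_lt_one (h.root i)).le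
  have hr' : ∀ i, ‖x + θ i * y + θ i ^ 2 * z + θ i ^ 3 * w‖ ≤ δ * (δ * (δ * (2 * r))) := by
    intro i
    have : δ * (δ * (δ * (2 * r))) = r := by linear_combination (2 * r) * hδ3
    rw [this]; exact hr i
  have hM : ∀ j, j ≠ 0 → ‖y + (θ 0 + θ j) * z + (θ 0 ^ 2 + θ 0 * θ j + θ j ^ 2) * w‖
      ≤ δ * (δ * (2 * r)) := fun j hj =>
    dd hδp (hr' 0) (hr' j) (hd 0 j hj.symm) (by ring)
  have hN : ∀ j, j ≠ 0 → j ≠ 1 → ‖z + (θ 0 + θ 1 + θ j) * w‖ ≤ δ * (2 * r) := fun j hj hj1 =>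
    dd hδp (hM 1 (by decide)) (hM j hj) (hd 1 j hj1.symm) (by ring)
  have hw : ‖w‖ ≤ 2 * r :=
    dd hδp (hN 2 (by decide) (by decide)) (hN 3 (by decide) (by decide)) (hd 2 3 (by decide))
      (by ring)
  have s1 : δ * (2 * r) ≤ 2 * r := by nlinarith
  have s2 : δ * (δ * (2 * r)) ≤ 2 * r := by nlinarith [mul_nonneg hδ0 hr0]
  have hz : ‖z‖ ≤ 2 * r := by
    have e : z = (z + (θ 0 + θ 1 + θ 2) * w) - (θ 0 + θ 1 + θ 2) * w := by ring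
    rw [e]
    exact norm_sub_le' ((hN 2 (by decide) (by decide)).trans s1)
      (norm_mul_le' (norm_add_le' (norm_add_le' (h1 0) (h1 1)) (h1 2)) hw)
  have hy : ‖y‖ ≤ 2 * r := by
    have e : y = (y + (θ 0 + θ 1) * z + (θ 0 ^ 2 + θ 0 * θ 1 + θ 1 ^ 2) * w)
        - (θ 0 + θ 1) * z - (θ 0 * θ 0 + θ 0 * θ 1 + θ 1 * θ 1) * w := by ring
    rw [e]
    exact norm_sub_le' (norm_sub_le' ((hM 1 (by decide)).trans s2)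
      (norm_mul_le' (norm_add_le' (h1 0) (h1 1)) hz))
      (norm_mul_le' (norm_add_le' (norm_add_le' (norm_mul_le' (h1 0) (h1 0))
        (norm_mul_le' (h1 0) (h1 1))) (norm_mul_le' (h1 1) (h1 1))) hw)
  have hx : ‖x‖ ≤ 2 * r := by
    have e : x = (x + θ 0 * y + θ 0 ^ 2 * z + θ 0 ^ 3 * w) - θ 0 * y - θ 0 * (θ 0 * z)
        - θ 0 * (θ 0 * (θ 0 * w)) := by ring
    rw [e]
    exact norm_sub_le' (norm_sub_le' (norm_sub_le' ((hr 0).trans (by linarith))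
      (norm_mul_le' (h1 0) hy)) (norm_mul_le' (h1 0) (norm_mul_le' (h1 0) hz)))
      (norm_mul_le' (h1 0) (norm_mul_le' (h1 0) (norm_mul_le' (h1 0) hw)))
  exact ⟨hx, hy, hz, hw⟩

lemma norm_three : ‖(3 : Om)‖ = 1 := by
  have : (3 : Om) = 1 + 2 := by norm_num
  rw [this, norm_add_left (by rw [norm_two, norm_one]; norm_num), norm_one]

lemma local_aniso {θ : Fin 4 → Om} (h : Vieta θ) (x y z w : Om)
    (ht : ∀ j, ∃ σ : D, σ x = x ∧ σ y = y ∧ σ z = z ∧ σ w = w ∧ σ (θ 0) = θ j)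
    (hG : 3 * Nf x y z w + 32 * (x ^ 4 + y ^ 4 + z ^ 4 + w ^ 4) = 0) :
    x = 0 ∧ y = 0 ∧ z = 0 ∧ w = 0 := by
  obtain ⟨r, hr⟩ : ∃ r, r = ‖x + θ 0 * y + θ 0 ^ 2 * z + θ 0 ^ 3 * w‖ := ⟨_, rfl⟩
  have hr0 : 0 ≤ r := by rw [hr]; exact norm_nonneg _
  have he : ∀ j, ‖x + θ j * y + θ j ^ 2 * z + θ j ^ 3 * w‖ = r := by
    intro j
    obtain ⟨σ, a1, a2, a3, a4, a5⟩ := ht j
    rw [hr, ← norm_gal σ (x + θ 0 * y + θ 0 ^ 2 * z + θ 0 ^ 3 * w)]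
    simp only [map_add, map_mul, map_pow, a1, a2, a3, a4, a5]
  obtain ⟨hx, hy, hz, hw⟩ := coords_le h x y z w (fun i => (he i).le)
  have hN : ‖Nf x y z w‖ = r ^ 4 := by
    rw [← normform h, norm_mul, norm_mul, norm_mul, he, he, he, he]; ring
  have p4 : ∀ u : Om, ‖u‖ ≤ 2 * r → ‖u ^ 4‖ ≤ (2 * r) ^ 4 := fun u hu => by
    rw [norm_pow]; exact pow_le_pow_left₀ (norm_nonneg _) hu 4
  have hF : ‖x ^ 4 + y ^ 4 + z ^ 4 + w ^ 4‖ ≤ (2 * r) ^ 4 :=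
    norm_add_le' (norm_add_le' (norm_add_le' (p4 x hx) (p4 y hy)) (p4 z hz)) (p4 w hw)
  have e : 3 * Nf x y z w = -(2 ^ 5 * (x ^ 4 + y ^ 4 + z ^ 4 + w ^ 4)) := by
    linear_combination hG
  have e2 := congrArg norm e
  rw [norm_mul, norm_three, hN, norm_neg, norm_mul, norm_pow, norm_two] at e2
  have hr4 : r ^ 4 = 0 := by
    have : 0 ≤ r ^ 4 := pow_nonneg hr0 4
    nlinarith
  have hr00 : r = 0 := pow_eq_zero_iff (by norm_num) |>.1 hr4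
  rw [hr00, mul_zero] at hx hy hz hw
  exact ⟨norm_le_zero_iff.1 hx, norm_le_zero_iff.1 hy, norm_le_zero_iff.1 hz,
    norm_le_zero_iff.1 hw⟩

end Pool.Agent.Lib.MP_97eeef_nt.Quartic
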