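import Mathlib

/-! The roots of `T^4 + 2T + 2` in an algebraic closure of the 2-adic numbers:
the local Galois group acts on them as the full symmetric group. -/

namespace Pool.Agent.Lib.MP_97eeef_nt.Quartic

open Polynomial

abbrev Om := PadicAlgCl 2

lemma ex4 (c1 c0 : Om) : ∃ t : Om, t ^ 4 + c1 * t + c0 = 0 := by
  have h : (X ^ 4 + C c1 * X + C c0 : Om[X]).degree = 4 := by compute_degree!
  obtain ⟨t, ht⟩ := IsAlgClosed.exists_root (X ^ 4 + C c1 * X + C c0 : Om[X]) (by rw [h]; decide)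
  exact ⟨t, by simpa using ht⟩

lemma ex3 (c2 c1 c0 : Om) : ∃ t : Om, t ^ 3 + c2 * t ^ 2 + c1 * t + c0 = 0 := by
  have h : (X ^ 3 + C c2 * X ^ 2 + C c1 * X + C c0 : Om[X]).degree = 3 := by compute_degree!
  obtain ⟨t, ht⟩ := IsAlgClosed.exists_root (X ^ 3 + C c2 * X ^ 2 + C c1 * X + C c0 : Om[X])
    (by rw [h]; decide)
  exact ⟨t, by simpa using ht⟩

lemma ex2 (c1 c0 : Om) : ∃ t : Om, t ^ 2 + c1 * t + c0 = 0 := by
  have h : (X ^ 2 + C c1 * X + C c0 : Om[X]).degree = 2 := by compute_degree!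
  obtain ⟨t, ht⟩ := IsAlgClosed.exists_root (X ^ 2 + C c1 * X + C c0 : Om[X]) (by rw [h]; decide)
  exact ⟨t, by simpa using ht⟩

/-- Vieta relations for `T^4 + 2T + 2`. -/
structure Vieta (θ : Fin 4 → Om) : Prop where
  e1 : θ 0 + θ 1 + θ 2 + θ 3 = 0
  e2 : θ 0 * θ 1 + θ 0 * θ 2 + θ 0 * θ 3 + θ 1 * θ 2 + θ 1 * θ 3 + θ 2 * θ 3 = 0
  e3 : θ 0 * θ 1 * θ 2 + θ 0 * θ 1 * θ 3 + θ 0 * θ 2 * θ 3 + θ 1 * θ 2 * θ 3 = -2
  e4 : θ 0 * θ 1 * θ 2 * θ 3 = 2

lemma exists_vieta : ∃ θ : Fin 4 → Om, Vieta θ := by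
  obtain ⟨a, ha⟩ := ex4 2 2
  obtain ⟨b, hb⟩ := ex3 a (a ^ 2) (a ^ 3 + 2)
  obtain ⟨c, hc⟩ := ex2 (a + b) (a ^ 2 + a * b + b ^ 2)
  refine ⟨![a, b, c, -a - b - c], ?_, ?_, ?_, ?_⟩
  · simp only [Matrix.cons_val]; ring
  · simp only [Matrix.cons_val]; linear_combination (-1) * hc
  · simp only [Matrix.cons_val]; linear_combination hb - (a + b) * hc
  · simp only [Matrix.cons_val]; linear_combination (-1) * ha + a * hb - a * b * hc

lemma norm_two : ‖(2 : Om)‖ = 1 / 2 := by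
  have h := PadicAlgCl.norm_extends (p := 2) (2 : ℚ_[2])
  have h2 : ‖(2 : ℚ_[2])‖ = 1 / 2 := by
    have := Padic.norm_p (p := 2)
    simpa using this
  rw [h2] at h
  rw [← h, ← map_ofNat (algebraMap ℚ_[2] Om) 2]

lemma norm_add_left {a b : Om} (h : ‖b‖ < ‖a‖) : ‖a + b‖ = ‖a‖ := by
  rw [IsUltrametricDist.norm_add_eq_max_of_norm_ne_norm (ne_of_gt h), max_eq_left h.le]

lemma norm_add_lt {a b : Om} {r : ℝ} (ha : ‖a‖ < r) (hb : ‖b‖ < r) : ‖a + b‖ < r :=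
  lt_of_le_of_lt (IsUltrametricDist.norm_add_le_max a b) (max_lt ha hb)

lemma norm_add_le' {a b : Om} {r : ℝ} (ha : ‖a‖ ≤ r) (hb : ‖b‖ ≤ r) : ‖a + b‖ ≤ r :=
  le_trans (IsUltrametricDist.norm_add_le_max a b) (max_le ha hb)

lemma norm_sub_le' {a b : Om} {r : ℝ} (ha : ‖a‖ ≤ r) (hb : ‖b‖ ≤ r) : ‖a - b‖ ≤ r := by
  rw [sub_eq_add_neg]; exact norm_add_le' ha (by rwa [norm_neg])

lemma root_lt_one {t : Om} (h : t ^ 4 + 2 * t + 2 = 0) : ‖t‖ < 1 := by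
  by_contra hc
  push Not at hc
  have h1 : t ^ 4 = -(2 * (t + 1)) := by linear_combination h
  have h2 : ‖t + 1‖ ≤ ‖t‖ := norm_add_le' le_rfl (by simpa using hc)
  have h3 : ‖t‖ ^ 4 = 1 / 2 * ‖t + 1‖ := by
    rw [← norm_pow, h1, norm_neg, norm_mul, norm_two]
  have h4 : ‖t‖ ≤ ‖t‖ ^ 4 := le_self_pow₀ hc (by norm_num)
  linarith

lemma root_norm {t : Om} (h : t ^ 4 + 2 * t + 2 = 0) : ‖t‖ ^ 4 = 1 / 2 := by
  have h1 : t ^ 4 = -(2 * (1 + t)) := by linear_combination h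
  have h2 : ‖1 + t‖ = 1 := by
    rw [norm_add_left (by simpa using root_lt_one h)]; simp
  rw [← norm_pow, h1, norm_neg, norm_mul, norm_two, h2]; ring

lemma diff_norm {s t : Om} (hs : s ^ 4 + 2 * s + 2 = 0) (ht : t ^ 4 + 2 * t + 2 = 0)
    (hst : s ≠ t) : ‖s - t‖ ^ 3 = 1 / 2 := by
  have hs1 := root_lt_one hs
  have ht1 := root_lt_one ht
  have h0 : s ^ 3 + s ^ 2 * t + s * t ^ 2 + t ^ 3 + 2 = 0 := by
    have : (s - t) * (s ^ 3 + s ^ 2 * t + s * t ^ 2 + t ^ 3 + 2) = 0 := by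
      linear_combination hs - ht
    exact (mul_eq_zero.1 this).resolve_left (sub_ne_zero.2 hst)
  have h1 : (s - t) ^ 3 = -(2 * (1 + (s ^ 2 * t + s ^ 2 * t + (-(s * t ^ 2)) + t ^ 3))) := by
    linear_combination h0
  have hp := norm_nonneg s
  have hq := norm_nonneg t
  have a1 : ‖s ^ 2 * t‖ < 1 := by
    rw [norm_mul, norm_pow]; nlinarith [mul_nonneg hp hp, mul_nonneg hp hq]
  have a2 : ‖-(s * t ^ 2)‖ < 1 := by
    rw [norm_neg, norm_mul, norm_pow]; nlinarith [mul_nonneg hq hq, mul_nonneg hp hq]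
  have a3 : ‖t ^ 3‖ < 1 := by
    rw [norm_pow]; exact pow_lt_one₀ hq ht1 (by norm_num)
  have h2 : ‖1 + (s ^ 2 * t + s ^ 2 * t + (-(s * t ^ 2)) + t ^ 3)‖ = 1 := by
    rw [norm_add_left]
    · simp
    · rw [norm_one]; exact norm_add_lt (norm_add_lt (norm_add_lt a1 a1) a2) a3
  rw [← norm_pow, h1, norm_neg, norm_mul, norm_two, h2]; ring

namespace Vieta

variable {θ : Fin 4 → Om}

lemma prod (h : Vieta θ) (T : Om) :
    (T - θ 0) * (T - θ 1) * (T - θ 2) * (T - θ 3) = T ^ 4 + 2 * T + 2 := by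
  linear_combination (-T ^ 3) * h.e1 + T ^ 2 * h.e2 - T * h.e3 + h.e4

lemma root (h : Vieta θ) (i : Fin 4) : θ i ^ 4 + 2 * θ i + 2 = 0 := by
  rw [← h.prod]
  fin_cases i <;> simp

lemma eq_root (h : Vieta θ) {t : Om} (ht : t ^ 4 + 2 * t + 2 = 0) : ∃ j, t = θ j := by
  rw [← h.prod] at ht
  simp only [mul_eq_zero, sub_eq_zero] at ht
  rcases ht with ((ht | ht) | ht) | ht <;> exact ⟨_, ht⟩

lemma disc (h : Vieta θ) : (Matrix.vandermonde θ).det ^ 2 = 1616 := by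
  have d0 : θ 0 * ((θ 0 - θ 1) * (θ 0 - θ 2) * (θ 0 - θ 3)) = -6 * θ 0 - 8 := by
    linear_combination 4 * h.root 0 - 3 * θ 0 ^ 3 * h.e1 + 2 * θ 0 ^ 2 * h.e2 - θ 0 * h.e3
  have d1 : θ 1 * ((θ 1 - θ 0) * (θ 1 - θ 2) * (θ 1 - θ 3)) = -6 * θ 1 - 8 := by
    linear_combination 4 * h.root 1 - 3 * θ 1 ^ 3 * h.e1 + 2 * θ 1 ^ 2 * h.e2 - θ 1 * h.e3
  have d2 : θ 2 * ((θ 2 - θ 0) * (θ 2 - θ 1) * (θ 2 - θ 3)) = -6 * θ 2 - 8 := by
    linear_combination 4 * h.root 2 - 3 * θ 2 ^ 3 * h.e1 + 2 * θ 2 ^ 2 * h.e2 - θ 2 * h.e3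
  have d3 : θ 3 * ((θ 3 - θ 0) * (θ 3 - θ 1) * (θ 3 - θ 2)) = -6 * θ 3 - 8 := by
    linear_combination 4 * h.root 3 - 3 * θ 3 ^ 3 * h.e1 + 2 * θ 3 ^ 2 * h.e2 - θ 3 * h.e3
  have hp : (-6 * θ 0 - 8) * (-6 * θ 1 - 8) * (-6 * θ 2 - 8) * (-6 * θ 3 - 8) = 3232 := by
    linear_combination 3072 * h.e1 + 2304 * h.e2 + 1728 * h.e3 + 1296 * h.e4
  rw [← d0, ← d1, ← d2, ← d3] at hp
  have hv : (Matrix.vandermonde θ).det = (θ 1 - θ 0) * (θ 2 - θ 0) * (θ 3 - θ 0) * (θ 2 - θ 1)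
      * (θ 3 - θ 1) * (θ 3 - θ 2) := by
    rw [Matrix.det_vandermonde, Fin.prod_univ_four]
    have i0 : Finset.Ioi (0 : Fin 4) = {1, 2, 3} := by decide
    have i1 : Finset.Ioi (1 : Fin 4) = {2, 3} := by decide
    have i2 : Finset.Ioi (2 : Fin 4) = {3} := by decide
    have i3 : Finset.Ioi (3 : Fin 4) = ∅ := by decide
    rw [i0, i1, i2, i3, Finset.prod_insert (by decide), Finset.prod_insert (by decide),
      Finset.prod_insert (by decide)]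
    simp only [Finset.prod_singleton, Finset.prod_empty]
    ring
  have h2 : (θ 0 * θ 1 * θ 2 * θ 3) * (Matrix.vandermonde θ).det ^ 2 = 3232 := by
    rw [hv, ← hp]; ring
  rw [h.e4] at h2
  linear_combination (1 / 2 : Om) * h2

lemma inj (h : Vieta θ) : Function.Injective θ := by
  have : (Matrix.vandermonde θ).det ≠ 0 := by
    intro h0
    have := h.disc
    rw [h0] at this
    norm_num at this
  exact Matrix.det_vandermonde_ne_zero_iff.1 this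

end Vieta

abbrev D := Om ≃ₐ[ℚ_[2]] Om

lemma norm_gal (σ : D) (x : Om) : ‖σ x‖ = ‖x‖ := by
  rw [← PadicAlgCl.spectralNorm_eq, ← PadicAlgCl.spectralNorm_eq]
  exact (spectralNorm_eq_of_equiv σ x).symm

lemma fixed_mem {x : Om} (hx : ∀ σ : D, σ x = x) : ∃ q : ℚ_[2], algebraMap ℚ_[2] Om q = x := by
  have := (InfiniteGalois.mem_bot_iff_fixed (k := ℚ_[2]) x).2 hx
  exact IntermediateField.mem_bot.1 this

lemma exists_rho {θ : Fin 4 → Om} (h : Vieta θ) :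
    ∃ ρ : D →* Equiv.Perm (Fin 4), ∀ σ i, σ (θ i) = θ (ρ σ i) := by
  have key : ∀ (σ : D) (i : Fin 4), ∃ j, σ (θ i) = θ j := by
    intro σ i
    apply h.eq_root
    have := congrArg σ (h.root i)
    simpa [map_ofNat] using this
  choose j hj using key
  let _ : MulAction D (Fin 4) :=
    { smul := j
      one_smul := fun i => h.inj (by
        show θ (j 1 i) = θ i
        rw [← hj]; rfl)
      mul_smul := fun σ τ i => h.inj (by
        show θ (j (σ * τ) i) = θ (j σ (j τ i))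
        rw [← hj, ← hj, ← hj]; rfl) }
  exact ⟨MulAction.toPermHom D (Fin 4), fun σ i => hj σ i⟩

lemma dvd_of_norm {x : Om} {n m : ℕ} (hn : ‖x‖ ^ n = 1 / 2) (q : ℚ_[2])
    (hq : ‖q‖ = ‖x‖ ^ m) : n ∣ m := by
  have hx : 0 < ‖x‖ ^ m := by
    apply pow_pos
    rcases (norm_nonneg x).lt_or_eq with h | h
    · exact h
    · rw [← h] at hn
      rcases Nat.eq_zero_or_pos n with h0 | h0
      · rw [h0] at hn; norm_num at hn
      · rw [zero_pow h0.ne'] at hn; norm_num at hn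
  have hq0 : q ≠ 0 := by
    intro h0; rw [h0, norm_zero] at hq; exact hx.ne hq
  have h1 := Padic.norm_eq_zpow_neg_valuation hq0
  have h2 : ((2 : ℕ) : ℝ) ^ ((-q.valuation) * n) = ((2 : ℕ) : ℝ) ^ (-(m : ℤ)) := by
    rw [zpow_mul, ← h1, hq, zpow_natCast, ← pow_mul, mul_comm, pow_mul, hn, zpow_neg,
      zpow_natCast]
    simp
  have h3 := zpow_right_injective₀ (by norm_num) (by norm_num) h2
  have : (n : ℤ) ∣ m := ⟨q.valuation, by linarith⟩
  exact_mod_cast this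

lemma dvd_card {ρ : D →* Equiv.Perm (Fin 4)} (a : Equiv.Perm (Fin 4) → Om)
    (ha : ∀ σ γ, σ (a γ) = a (ρ σ * γ)) {n : ℕ} (hn : ‖a 1‖ ^ n = 1 / 2) :
    n ∣ Nat.card ρ.range := by
  classical
  have : Fintype ρ.range := Fintype.ofFinite _
  have hfix : ∀ σ : D, σ (∏ γ : ρ.range, a γ) = ∏ γ : ρ.range, a γ := by
    intro σ
    rw [map_prod]
    simp only [ha]
    exact Equiv.prod_comp (Equiv.mulLeft (⟨ρ σ, σ, rfl⟩ : ρ.range)) (fun γ => a γ)
  obtain ⟨q, hq⟩ := fixed_mem hfix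
  apply dvd_of_norm hn q
  rw [← PadicAlgCl.norm_extends]
  show ‖algebraMap ℚ_[2] Om q‖ = _
  rw [hq, norm_prod, Nat.card_eq_fintype_card, ← Finset.card_univ, ← Finset.prod_const]
  apply Finset.prod_congr rfl
  rintro ⟨_, σ, rfl⟩ -
  have := ha σ 1
  rw [mul_one] at this
  show ‖a (ρ σ)‖ = _
  rw [← this, norm_gal]

lemma not_sq (q : ℚ_[2]) : q ^ 2 ≠ 1616 := by
  intro h
  have h1 : (q / 4) ^ 2 = 101 := by linear_combination (1 / 16 : ℚ_[2]) * h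
  have h2 : ‖q / 4‖ ≤ 1 := by
    have h3 : ‖q / 4‖ ^ 2 ≤ 1 := by
      rw [← norm_pow, h1]
      exact_mod_cast Padic.norm_int_le_one (p := 2) 101
    nlinarith [norm_nonneg (q / 4)]
  let u : ℤ_[2] := ⟨q / 4, h2⟩
  have hu : u ^ 2 = 101 := by
    apply Subtype.ext
    push_cast
    exact h1
  have h4 := congrArg (PadicInt.toZModPow (p := 2) 3) hu
  rw [map_pow, map_ofNat] at h4
  revert h4
  generalize PadicInt.toZModPow (p := 2) 3 u = v
  revert v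
  decide

lemma rho_surj {θ : Fin 4 → Om} (h : Vieta θ) {ρ : D →* Equiv.Perm (Fin 4)}
    (hρ : ∀ σ i, σ (θ i) = θ (ρ σ i)) : Function.Surjective ρ := by
  have h4 : 4 ∣ Nat.card ρ.range :=
    dvd_card (fun γ => θ (γ 0)) (fun σ γ => hρ σ _) (root_norm (h.root 0))
  have h3 : 3 ∣ Nat.card ρ.range :=
    dvd_card (fun γ => θ (γ 0) - θ (γ 1)) (fun σ γ => by rw [map_sub, hρ, hρ]; rfl)
      (diff_norm (h.root 0) (h.root 1) (fun e => by simpa using h.inj e))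
  have h12 : 12 ∣ Nat.card ρ.range :=
    Nat.Coprime.mul_dvd_of_dvd_of_dvd (by norm_num : Nat.Coprime 4 3) h4 h3
  have hc := ρ.range.index_mul_card
  have h24 : Nat.card (Equiv.Perm (Fin 4)) = 24 := by
    rw [Nat.card_perm]; simp [Nat.factorial]
  rw [h24] at hc
  obtain ⟨k, hk⟩ := h12
  rw [hk] at hc
  have hi : ρ.range.index * k = 2 := by nlinarith
  have hi2 : ρ.range.index = 1 ∨ ρ.range.index = 2 :=
    (Nat.dvd_prime Nat.prime_two).1 ⟨k, hi.symm⟩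
  rcases hi2 with hi2 | hi2
  · rw [Subgroup.index_eq_one] at hi2
    exact MonoidHom.range_eq_top.1 hi2
  · exfalso
    have halt := Equiv.Perm.eq_alternatingGroup_of_index_eq_two hi2
    have hfix : ∀ σ : D, σ (Matrix.vandermonde θ).det = (Matrix.vandermonde θ).det := by
      intro σ
      have hs : Equiv.Perm.sign (ρ σ) = 1 := by
        have : ρ σ ∈ alternatingGroup (Fin 4) := by rw [← halt]; exact ⟨σ, rfl⟩
        exact Equiv.Perm.mem_alternatingGroup.1 this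
      have e1 : σ (Matrix.vandermonde θ).det
          = ((Matrix.vandermonde θ).submatrix (ρ σ) id).det := by
        rw [AlgEquiv.map_det]
        congr 1
        ext i j
        simp [Matrix.vandermonde, hρ]
      rw [e1, Matrix.det_permute, hs]
      simp
    obtain ⟨q, hq⟩ := fixed_mem hfix
    apply not_sq q
    apply (algebraMap ℚ_[2] Om).injective
    rw [map_pow, hq, h.disc, map_ofNat]

end Pool.Agent.Lib.MP_97eeef_nt.Quartic
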